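import Pool.Agent.helper37.QA.Quasi

/-!
# Project p2 (MP_063734_an), block XI: S0, quasi-attractors in a trapping region without charged discs

THEOREM S0: if no linear disc of the trapping region `U` is charged by the Green current, then every compact invariant subset `K` of `U` contains a periodic point. For every `ℙ^k`.

Idea: an idempotent ultrafilter `e` on the positive integers gives `ρ = lim_e f^n`, `ρ ∘ ρ = ρ`; `ρ` is continuous on `U`; the fixed points of `ρ` in `U` form a compact set `M`; the maximum principle for `log ‖Z‖ - u(Z)` shows that `M` is finite; `f` maps `M` to `M`.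

Rules: row `XXX` is `theorem XXX (h : YYY_stmt) .. : XXX_stmt` in `Pool/Agent/<seat>/P2/XXX.lean`, `import Pool.Agent.helper83.P2.SpecS0`, `set_option autoImplicit false`, `namespace Pool.Agent.P2`, the open lines of this file. Hypotheses: other statements of this file only (not circularly), exactly the line of the lock note; everything of
`Pool/Agent/helper37/QA` may be used (`cone`, `pmap`, `iter`, `toPP`, `map_toPP`, `map_iter`, `map_cont`, `cone_open`, `cone_smul`, `pmap_iter_add`, `pmap_smul`, `iter_hom`, instances `T2Space`, `CompactSpace`).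
Auxiliary lemmas are prefixed `XXX_`. No sorry, no double quotes, no `congr!`, no `convert`, no `native_decide`. A wrong or awkward statement: tell helper83 at once.
-/

set_option autoImplicit false

namespace Pool.Agent.P2

open Metric Filter Topology MeasureTheory
open Pool.Agent.helper37.QA

noncomputable section

variable {k d : ℕ}

/-- `u` is the Green function on the cone over `U`, with constant `C` -/
def Green (f : Endo k d) (U : Set (PP k)) (u : (Fin (k + 1) → ℂ) → ℝ) (C : ℝ) : Prop :=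
  ∀ (n : ℕ), ∀ Z ∈ cone U, |(d : ℝ) ^ n * u Z - Real.log ‖pmap (iter f.F n) Z‖| ≤ C

/-- `u` is harmonic on the linear discs in the cone over `U` -/
def Harm (U : Set (PP k)) (u : (Fin (k + 1) → ℂ) → ℝ) : Prop :=
  ∀ a b : Fin (k + 1) → ℂ, (∀ t ∈ closedBall (0 : ℂ) 1, a + t • b ∈ cone U) →
    ∃ g : ℂ → ℂ, DifferentiableOn ℂ g (ball 0 1) ∧ ∀ t ∈ ball (0 : ℂ) 1, u (a + t • b) = (g t).re

/-- `e` is an idempotent ultrafilter on the positive integers: `e + e = e` -/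
def Idem (e : Ultrafilter ℕ) : Prop := {n | 0 < n} ∈ e ∧ ∀ A ∈ e, {m | {n | m + n ∈ A} ∈ e} ∈ e

/-- `ρ` is the limit of the iterates of `f` along `e` -/
def Rho {Ω : Type} [TopologicalSpace Ω] (f : Ω → Ω) (e : Ultrafilter ℕ) (ρ : Ω → Ω) : Prop :=
  ∀ z, Tendsto (fun n => f^[n] z) e (𝓝 (ρ z))

/-- the euclidean norm -/
def n2 (Z : Fin (k + 1) → ℂ) : ℝ := ‖(WithLp.toLp 2 Z : EuclideanSpace ℂ (Fin (k + 1)))‖

open Laplacian in
/-- SWE (medium). WEYL'S LEMMA on a disc. Mollify: `φ_ε(x) = ∫ v(y) ψ_ε(x - y) dy` (`ψ_ε` a smooth even bump function of integral 1 with support in `ball 0 ε`: `ContDiffBump`, `normed`) is smooth on `ball 0 (1 - ε)` with `Δ φ_ε (x) = ∫ v(y) (Δ ψ_ε)(x - y) dy = 0` (the hypothesis for `χ(y) = ψ_ε(x - y)`; to have a function on all of `ℂ`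
replace `v` by `v * 1_(closedBall 0 r)`, `r < 1`, which is integrable, and take `x ∈ ball 0 (r - ε)`; Mathlib: `ContDiffBump.convolution`, `HasCompactSupport.contDiff_convolution_left`, derivative of a convolution). So `φ_ε` is harmonic (`HarmonicOnNhd`) on `ball 0 (r - ε)`. Poisson formula `HarmonicOnNhd.circleAverage_re_herglotzRieszKernel_smul`
(Mathlib, `Analysis/Complex/Harmonic/Poisson.lean`) on a circle of radius `r' < r`: `φ_ε(w) = Re (circle average of herglotzRieszKernel 0 w * φ_ε)`; `φ_ε → v` uniformly on the circle (`ContDiffBump.convolution_tendsto_right_of_continuous` or uniform continuity of `v` on compact sets), so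
`v(w) = Re G(w)`, `G(w)` = the circle average of `herglotzRieszKernel 0 w * v`, which is holomorphic in `w ∈ ball 0 r'` (`herglotzRieszKernel 0 w z = (z + w) / (z - w)`; differentiation under the integral, or write it with the Cauchy integral: `(z + w)/(z - w) = 2 z / (z - w) - 1`). So `v` is harmonic at every point of `ball 0 1`
(real part of a holomorphic function) and `InnerProductSpace.HarmonicOnNhd.exists_analyticOnNhd_ball_re_eq` gives `g`. -/
def SWE_stmt : Prop := ∀ v : ℂ → ℝ, ContinuousOn v (ball 0 1) →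
  (∀ χ : ℂ → ℝ, ContDiff ℝ (⊤ : ℕ∞) χ → HasCompactSupport χ → tsupport χ ⊆ ball 0 1 → ∫ z, v z * (Δ χ) z = 0) →
  ∃ g : ℂ → ℂ, DifferentiableOn ℂ g (ball 0 1) ∧ ∀ t ∈ ball (0 : ℂ) 1, v t = (g t).re

/-- SGR (short). PROPERTIES OF THE GREEN FUNCTION. (1) `u` is a uniform limit of the continuous functions `d^(-n) log ‖F^n‖` on the cone (`d ≥ 2`). (2) `log ‖F^n (c Z)‖ = d^n log ‖c‖ + log ‖F^n Z‖` (`iter_hom`, `pmap_smul`), so `d^n |u (c Z) - u Z - log ‖c‖| ≤ 2 C` for all `n`: it is zero.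
(3) `F Z ∈ cone U` (`map_toPP`, `U ⊂ closure U`), `F^n (F Z) = F^(n+1) Z` (`pmap_iter_add`, `pmap_iter_succ`): `d^n |u (F Z) - d u Z| ≤ 2 C` for all `n`; then induction. -/
def SGR_stmt : Prop := ∀ (k d : ℕ), 2 ≤ d → ∀ (f : Endo k d) (U : Set (PP k)) (u : (Fin (k + 1) → ℂ) → ℝ) (C : ℝ), IsTrapping f U → Green f U u C →
  ContinuousOn u (cone U) ∧ (∀ Z ∈ cone U, ∀ c : ℂ, c ≠ 0 → u (c • Z) = u Z + Real.log ‖c‖) ∧
  (∀ Z ∈ cone U, ∀ n, pmap (iter f.F n) Z ∈ cone U) ∧ ∀ Z ∈ cone U, ∀ n, u (pmap (iter f.F n) Z) = (d : ℝ) ^ n * u Z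

/-- SLF (short-medium, from SGR). NORMALISED LIFTS of the iterates on a linear disc. `g` from `Harm`, corrected by an imaginary constant: `Im g 0 = 0`, so `g 0 = u a`. `h n t = exp (- d^n g t) • F^n (a + t • b)`, `c = exp (- d^n g t)`, `log ‖c‖ = - d^n u (a + t • b)`: `log ‖h n t‖ = log ‖F^n‖ - d^n u ∈ [-C, C]`, `u (h n t) = u (F^n) + log ‖c‖ = 0`. -/
def SLF_stmt : Prop := ∀ (k d : ℕ), 2 ≤ d → ∀ (f : Endo k d) (U : Set (PP k)) (u : (Fin (k + 1) → ℂ) → ℝ) (C : ℝ), IsTrapping f U → Green f U u C → Harm U u →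
  ∀ a b : Fin (k + 1) → ℂ, (∀ t ∈ closedBall (0 : ℂ) 1, a + t • b ∈ cone U) →
  ∃ h : ℕ → ℂ → (Fin (k + 1) → ℂ), (∀ n, DifferentiableOn ℂ (h n) (ball 0 1)) ∧
    (∀ n, h n 0 = (Real.exp (-((d : ℝ) ^ n * u a)) : ℂ) • pmap (iter f.F n) a) ∧
    ∀ n, ∀ t ∈ ball (0 : ℂ) 1, h n t ∈ cone U ∧ u (h n t) = 0 ∧ Real.exp (-C) ≤ ‖h n t‖ ∧ ‖h n t‖ ≤ Real.exp C ∧
      ∃ c : ℂ, c ≠ 0 ∧ h n t = c • pmap (iter f.F n) (a + t • b)

/-- SUL (short-medium). LIMITS OF HOLOMORPHIC MAPS ALONG AN ULTRAFILTER. `R t` = the limit (closed balls of `Fin m → ℂ` are compact: `Ultrafilter.le_nhds_lim` or `IsCompact.ultrafilter_le_nhds`). Schwarz lemma (`Complex.dist_le_div_mul_dist_of_mapsTo_ball`, target `ball (h n 0) (3 B)`): the last inequality. `R` is differentiable at `t0`, `r = 1 - ‖t0‖`: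
`dslope (h n) t0` is holomorphic on `ball t0 r` and bounded by `4 B / r` on it (maximum principle, or by the Schwarz lemma `Complex.norm_dslope_le_div_of_mapsTo_ball`), so `‖dslope (h n) t0 t - deriv (h n) t0‖ ≤ C' ‖t - t0‖` with `C'` independent of `n`, `‖h n t - h n t0 - (t - t0) • deriv (h n) t0‖ ≤ C' ‖t - t0‖^2`. `deriv (h n) t0` is bounded:
let `A` be its limit along `e`. In the limit `‖R t - R t0 - (t - t0) • A‖ ≤ C' ‖t - t0‖^2`. -/
def SUL_stmt : Prop := ∀ (m : ℕ) (e : Ultrafilter ℕ) (h : ℕ → ℂ → (Fin m → ℂ)) (B : ℝ), 0 < B → (∀ n, DifferentiableOn ℂ (h n) (ball 0 1)) → (∀ n, ∀ t ∈ ball (0 : ℂ) 1, ‖h n t‖ ≤ B) →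
  ∃ R : ℂ → (Fin m → ℂ), DifferentiableOn ℂ R (ball 0 1) ∧ (∀ t ∈ ball (0 : ℂ) 1, Tendsto (fun n => h n t) e (𝓝 (R t))) ∧
    ∀ t ∈ ball (0 : ℂ) 1, ‖R t - R 0‖ ≤ 3 * B * ‖t‖

/-- SID (short-medium). IDEMPOTENT ULTRAFILTERS. `Ultrafilter ℕ+` is a compact Hausdorff right topological semigroup (`Ultrafilter.addSemigroup`, `Ultrafilter.continuous_add_left`, see Mathlib `Combinatorics/Hindman.lean`), so `exists_idempotent_of_compact_t2_of_continuous_add_left` gives `e' + e' = e'`; `e` = the image of `e'` under `ℕ+ → ℕ`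
(`Ultrafilter.map`). (`A ∈ e' + e' ↔ {m | {n | m + n ∈ A} ∈ e'} ∈ e'`: `Ultrafilter.eventually_add`.) -/
def SID_stmt : Prop := ∃ e : Ultrafilter ℕ, Idem e

/-- SRH (short-medium). THE LIMIT MAP. `ρ z` = the limit of the ultrafilter `e.map (fun n => f^[n] z)` in the compact space. (1) `ρ (ρ z) = ρ z`: for a closed neighbourhood `W` of `ρ z` (regular space: `exists_mem_nhds_isClosed_subset`) `A = {n | f^[n] z ∈ W} ∈ e`; for `m` in the set `{m | {n | m + n ∈ A} ∈ e} ∈ e`: `f^[m] (f^[n] z) ∈ W` for `e`-most `n`,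
and it tends to `f^[m] (ρ z)` (continuity): `f^[m] (ρ z) ∈ W`. So `ρ (ρ z) ∈ W`; all `W`: equal. (2) `f^[n] (f z) = f (f^[n] z)`. (3), (4): closed sets, `f^[n] z ∈ f '' closure U` for `n > 0` (compact, so closed). -/
def SRH_stmt : Prop := ∀ (Ω : Type) [TopologicalSpace Ω] [CompactSpace Ω] [T2Space Ω] (f : Ω → Ω) (e : Ultrafilter ℕ), Continuous f → Idem e →
  ∃ ρ : Ω → Ω, Rho f e ρ ∧ (∀ z, ρ (ρ z) = ρ z) ∧ (∀ z, ρ (f z) = f (ρ z)) ∧
    (∀ K : Set Ω, IsClosed K → f '' K ⊆ K → ∀ z ∈ K, ρ z ∈ K) ∧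
    ∀ U : Set Ω, f '' closure U ⊆ U → ∀ z ∈ U, ρ z ∈ f '' closure U

/-- SOP (short). `toPP` IS OPEN. `PP k` has the coinduced topology: `toPP ⁻¹' (toPP '' V)` is the union of the `{v | c • v ∈ V}`, `c ≠ 0` (`Projectivization.mk_eq_mk_iff'`), each is open. -/
def SOP_stmt : Prop := ∀ (k : ℕ), IsOpenMap (toPP : {v : Fin (k + 1) → ℂ // v ≠ 0} → PP k)

/-- SCT (short-medium, from SLF, SUL, SOP). `ρ` IS CONTINUOUS ON `U`. `V Z` = the limit along `e` of `exp (- d^n u Z) • F^n Z` (norm between `e^(-C)` and `e^C`; `toPP (V Z) = ρ (toPP Z)`, because `toPP` is continuous and `map_iter`). Let `Z ∈ cone U`, `closedBall Z r ⊂ cone U` (`cone_open`), `W ≠ Z`, `‖W - Z‖ < r`: `a = Z`, `b = (r / ‖W - Z‖) • (W - Z)`,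
`t = ‖W - Z‖ / r`: SLF, SUL (`B = e^C`): `R 0 = V Z`, `R t` is a lift of `ρ (toPP W)` (`‖R t‖ ≥ e^(-C)`, so it is not zero), `‖R t - V Z‖ ≤ 3 e^C ‖W - Z‖ / r`. So `W ↦ ρ (toPP W)` is continuous at `Z` (composition of `toPP` with a map tending to `V Z`, in the subtype), and `toPP` is an open map: `ρ` is continuous at `toPP Z`. -/
def SCT_stmt : Prop := ∀ (k d : ℕ), 2 ≤ d → ∀ (f : Endo k d) (U : Set (PP k)) (u : (Fin (k + 1) → ℂ) → ℝ) (C : ℝ), IsTrapping f U → Green f U u C → Harm U u →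
  ∀ (e : Ultrafilter ℕ) (ρ : PP k → PP k), Rho f.map e ρ → ContinuousOn ρ U

/-- SMX (short-medium, from SGR, SLF, SUL). THE MAXIMUM PRINCIPLE. `z0 = toPP Z0` is a fixed point of `ρ`, the disc `Z0 + t • b` lies in the cone, and `log n2 - u` is at most its value at `Z0` on all lifts `W` of the points `ρ (Z0 + t • b)`. Then `ρ` is constant on the disc. SLF, SUL: `R` holomorphic, `‖R t‖ ≥ e^(-C)`, `toPP (R t) = ρ (toPP (Z0 + t • b))`
(`h n t` is a lift of `f^n`, `toPP` continuous, limits are unique), which lies in `U` (hypothesis `hρU`), so `R t ∈ cone U`, and `u (R t) = 0` (`u` is continuous on the cone, `u (h n t) = 0`). `R 0 = c • Z0`: `0 = u (R 0) = u Z0 + log ‖c‖`, `log n2 (R 0) = log ‖c‖ + log n2 Z0 = log n2 Z0 - u Z0`. So `n2 (R t) ≤ n2 (R 0)` for all `t`: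
`R` is constant (`Complex.eqOn_of_isPreconnected_of_isMaxOn_norm` for the strictly convex space `EuclideanSpace`). -/
def SMX_stmt : Prop := ∀ (k d : ℕ), 2 ≤ d → ∀ (f : Endo k d) (U : Set (PP k)) (u : (Fin (k + 1) → ℂ) → ℝ) (C : ℝ), IsTrapping f U → Green f U u C → Harm U u →
  ∀ (e : Ultrafilter ℕ) (ρ : PP k → PP k), Rho f.map e ρ → (∀ z ∈ U, ρ z ∈ U) →
  ∀ (Z0 b : Fin (k + 1) → ℂ) (h0 : Z0 ≠ 0), ρ (toPP ⟨Z0, h0⟩) = toPP ⟨Z0, h0⟩ → (∀ t ∈ closedBall (0 : ℂ) 1, Z0 + t • b ∈ cone U) →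
  (∀ t ∈ ball (0 : ℂ) 1, ∀ (h : Z0 + t • b ≠ 0) (W : Fin (k + 1) → ℂ) (hW : W ≠ 0), toPP ⟨W, hW⟩ = ρ (toPP ⟨Z0 + t • b, h⟩) →
    Real.log (n2 W) - u W ≤ Real.log (n2 Z0) - u Z0) →
  ∀ t ∈ ball (0 : ℂ) 1, ∀ h : Z0 + t • b ≠ 0, ρ (toPP ⟨Z0 + t • b, h⟩) = toPP ⟨Z0, h0⟩

/-- SFN (medium, from SGR, SOP, SCT, SMX). `M = {z ∈ U | ρ z = z}` IS FINITE. `M ⊂ f '' closure U ⊂ U` is closed in this compact set (`ρ` is continuous on `U`), so compact. If it is infinite, the set `M'` of the accumulation points of `M` (`AccPt z (𝓟 M)`; `derivedSet`) is nonempty (`Set.Infinite.exists_accPt_of_subset_isCompact`), closed, `M' ⊂ M`.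
The set `{Z | n2 Z = 1, toPP Z ∈ M'}` is compact and nonempty (scale a lift); let `Z0` minimise `u` on it. For every lift `W` of a point of `M'`: `log n2 W - u W ≤ - u Z0 = log n2 Z0 - u Z0` (SGR (2), scale). Let `closedBall Z0 r ⊂ cone U`. For `0 < ‖W - Z0‖ < r` take `b = (r / ‖W - Z0‖) • (W - Z0)`, `t = ‖W - Z0‖ / r`. Let `L` = the set of the
`ρ (toPP (Z0 + t • b))`, `t ∈ ball 0 1`: preconnected (continuous image of a ball), `L ⊂ M` (`ρ ρ = ρ`, `ρ z ∈ U`), `z0 = toPP Z0 ∈ L`. `L ⊂ M'`: a point `w ∈ L`, `w ∉ M'`, is isolated in `M`, so `{w}` is open and closed in `L`, `L = {w}`, `z0 = w ∉ M'`, a contradiction. SMX: `ρ (toPP W) = z0`. So `ρ = z0` on the neighbourhood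
`toPP (ball Z0 r)` of `z0` (SOP), so no other point of `M` is in it: `z0 ∉ M'`, a contradiction. -/
def SFN_stmt : Prop := ∀ (k d : ℕ), 2 ≤ d → ∀ (f : Endo k d) (U : Set (PP k)) (u : (Fin (k + 1) → ℂ) → ℝ) (C : ℝ), IsTrapping f U → Green f U u C → Harm U u →
  ∀ (e : Ultrafilter ℕ) (ρ : PP k → PP k), Rho f.map e ρ → (∀ z, ρ (ρ z) = ρ z) → (∀ z ∈ U, ρ z ∈ f.map '' closure U) → {z ∈ U | ρ z = z}.Finite

/-- S0 (short, from SID, SRH, SFN). `y ∈ K`, `x = ρ y ∈ K` (`K` is closed: compact in a Hausdorff space), `ρ x = x`, `x ∈ U`. `M` is finite and `f` maps `M ∩ K` to itself (`ρ (f z) = f (ρ z)`): the orbit of `x` is in a finite set, `f^[i] x = f^[j] x` for some `i < j`; `f^[i] x ∈ K` is periodic. (`map_cont f`.) -/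
def S0_stmt : Prop := ∀ (k d : ℕ), 2 ≤ d → ∀ (f : Endo k d) (U : Set (PP k)) (u : (Fin (k + 1) → ℂ) → ℝ) (C : ℝ), IsTrapping f U → Green f U u C → Harm U u →
  ∀ K : Set (PP k), IsCompact K → K.Nonempty → K ⊆ U → f.map '' K ⊆ K → ∃ x ∈ K, ∃ n, 0 < n ∧ f.map^[n] x = x

end

end Pool.Agent.P2
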