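import Mathlib

/-!
# Project p2 (MP_063734_an), block X: closing

Nothing about projective space in this file. A node is a map `P : ℂ × ℂ → Ω` (for instance `P (ξ, w) =` the point with coordinates `(c_j + κ ξ, γ_b (c_j + κ ξ) + s w)` in a chart). `ball (0 : ℂ × ℂ) 1` is the unit polydisc (sup norm).

Rules: row `XXX` is `theorem XXX (h : YYY_stmt) .. : XXX_stmt` in `Pool/Agent/<seat>/P2/XXX.lean`, `import Pool.Agent.helper83.P2.SpecX`, `set_option autoImplicit false`, `namespace Pool.Agent.P2`, the open lines of this file. Hypotheses: other statements of this file only (not circularly), exactly the line of the lock note.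
Auxiliary lemmas are prefixed `XXX_`. No sorry, no double quotes, no `congr!`, no `convert`, no `native_decide`. A wrong or awkward statement: tell helper83 at once.
-/

set_option autoImplicit false

namespace Pool.Agent.P2

open Metric Set Filter Topology Finset

noncomputable section

/-- An edge from the node `P` to the node `Q` with time `N`: `f^N (P (X (ζ, w), w)) = Q (ζ, V (ζ, w))`. -/
def Edge {Ω : Type} (f : Ω → Ω) (P Q : ℂ × ℂ → Ω) (N : ℕ) : Prop :=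
  ∃ X V : ℂ × ℂ → ℂ, DifferentiableOn ℂ X (ball 0 1) ∧ DifferentiableOn ℂ V (ball 0 1) ∧
    ∀ z ∈ ball (0 : ℂ × ℂ) 1, ‖X z‖ ≤ 1 / 4 ∧ ‖V z‖ ≤ 1 / 4 ∧ f^[N] (P (X z, z.2)) = Q (z.1, V z)

/-- the set in which everything happens -/
abbrev Qd : Set (ℂ × ℂ) := closedBall 0 (1 / 4)

/-- a contracting function on `Qd` -/
def Ctr (h : ℂ × ℂ → ℂ) : Prop := (∀ p ∈ Qd, ‖h p‖ ≤ 1 / 4) ∧ ∀ p ∈ Qd, ∀ q ∈ Qd, ‖h p - h q‖ ≤ 3 / 4 * ‖p - q‖

/-- XLP (short). LIPSCHITZ. `p, q ∈ Qd`, `p ≠ q`, `r = ‖q - p‖ ≤ 1/2`, `φ(t) = h (p + (t / r) • (q - p))` for `‖t‖ < 3/4`: the point is in the polydisc (`‖p‖ + ‖t‖ < 1`), `φ` is differentiable, `‖φ t - φ 0‖ ≤ 1/2 < 9/16`, so by the Schwarz lemma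
`Complex.dist_le_div_mul_dist_of_mapsTo_ball` (or `Complex.norm_dslope_le_div_of_mapsTo_ball`) with `R₁ = 3/4`, `R₂ = 9/16`: `‖φ r - φ 0‖ ≤ 3/4 * r`. -/
def XLP_stmt : Prop := ∀ h : ℂ × ℂ → ℂ, DifferentiableOn ℂ h (ball 0 1) → (∀ z ∈ ball (0 : ℂ × ℂ) 1, ‖h z‖ ≤ 1 / 4) → Ctr h

/-- XCH (short-medium). AN INFINITE CHAIN. Contraction: `α = Qd` (complete), `E = BoundedContinuousFunction ℕ α` (or any complete space of sequences in `α` with the sup distance), `Φ : E → E`, `(Φ z) 0 = (X 0 ((z 1).1, (z 0).2), g (z 0).1)` and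
`(Φ z) (k+1) = (X (k+1) ((z (k+2)).1, (z (k+1)).2), V k ((z (k+1)).1, (z k).2))`. `Φ` contracts the sup distance by `3/4` (`‖(a, b) - (a', b')‖ = max`); `ContractingWith.fixedPoint`. (`dist f g ≤ C ↔ ∀ x, dist (f x) (g x) ≤ C`: `BoundedContinuousFunction.dist_le`.) -/
def XCH_stmt : Prop := ∀ (X V : ℕ → ℂ × ℂ → ℂ) (g : ℂ → ℂ), (∀ k, Ctr (X k)) → (∀ k, Ctr (V k)) → Ctr (fun p => g p.1) →
  ∃ z : ℕ → ℂ × ℂ, (∀ k, z k ∈ Qd) ∧ (z 0).2 = g (z 0).1 ∧ (∀ k, (z k).1 = X k ((z (k + 1)).1, (z k).2)) ∧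
    ∀ k, (z (k + 1)).2 = V k ((z (k + 1)).1, (z k).2)

/-- XPE (short-medium). THE CHAIN CONVERGES TO A PERIODIC CHAIN, for the period 2. Let `δ k = ‖z (k+2) - z k‖ ≤ 1/2`. For `k ≥ 1`: `δ k ≤ 3/4 * max (δ (k-1)) (max (δ k) (δ (k+1)))` (from the equations for `(z k).1` and `(z k).2` and the same equations for `k + 2`; `X (k+2) = X k`). Claim: `δ k ≤ (3/4)^k / 2` for all `k`.
Proof: by induction on `n`: for all `k`, `δ k ≤ (3/4)^(min k n) / 2` (for `k ≥ 1`: the three terms at `k-1, k, k+1` are at most `(3/4)^(min (k-1) n) / 2`, so `δ k ≤ (3/4)^(min (k-1) n + 1) / 2 ≤ (3/4)^(min k (n+1)) / 2`). So the sequences `z (2k)`, `z (2k+1)` converge (`cauchySeq_of_le_geometric`) to `a`, `b ∈ Qd`;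
`X 0`, `X 1`, `V 0`, `V 1` are continuous on `Qd`: the equations pass to the limit. -/
def XPE_stmt : Prop := ∀ (X V : ℕ → ℂ × ℂ → ℂ) (z : ℕ → ℂ × ℂ), (∀ k, Ctr (X k)) → (∀ k, Ctr (V k)) → (∀ k, X (k + 2) = X k) → (∀ k, V (k + 2) = V k) →
  (∀ k, z k ∈ Qd) → (∀ k, (z k).1 = X k ((z (k + 1)).1, (z k).2)) → (∀ k, (z (k + 1)).2 = V k ((z (k + 1)).1, (z k).2)) →
  ∃ a ∈ Qd, ∃ b ∈ Qd, Tendsto (fun k => z (2 * k)) atTop (𝓝 a) ∧
    a.1 = X 0 (b.1, a.2) ∧ b.2 = V 0 (b.1, a.2) ∧ b.1 = X 1 (a.1, b.2) ∧ a.2 = V 1 (a.1, b.2)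

/-- XC1 (short-medium, from XLP, XCH, XPE). CLOSING ON A CYCLE OF LENGTH TWO. `X 0, V 0` from the edge `P → Q`, `X 1, V 1` from the edge `Q → P`, extended with period 2 (`fun k => if k % 2 = 0 then X0 else X1`). XLP: `Ctr` (for `fun p => g p.1` as well: it is differentiable on the polydisc). XCH: `z`; XPE: `a, b`. `Qd ⊂ ball 0 1` and `(ζ, w)` is in the polydisc if both coordinates are.
Points of the chain: `p (2k) = P (z (2k))`, `p (2k+1) = Q (z (2k+1))`: `f^[N] (p (2k)) = p (2k+1)`, `f^[N'] (p (2k+1)) = p (2k+2)` (the edge relation at the point `((z (k+1)).1, (z k).2)`). `p 0 ∈ U` (`g`), `f` maps `U` to `U` (`U ⊂ closure U`), so `p (2k) ∈ U` for all `k`; `P` is continuous on `Qd`: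
`P a ∈ closure U`. The equations of `a, b`: `f^[N] (P a) = Q b`, `f^[N'] (Q b) = P a`. So `f^[N' + N] (P a) = P a`, and `f^[n] (closure U) ⊂ U` for `n > 0`: `P a ∈ U`. -/
def XC1_stmt : Prop := ∀ (Ω : Type) [TopologicalSpace Ω] (f : Ω → Ω) (U : Set Ω) (P Q : ℂ × ℂ → Ω) (N N' : ℕ) (g : ℂ → ℂ),
  Continuous f → f '' closure U ⊆ U → ContinuousOn P Qd → Edge f P Q N → Edge f Q P N' → 0 < N + N' →
  DifferentiableOn ℂ g (ball 0 1) → (∀ x ∈ ball (0 : ℂ) 1, ‖g x‖ ≤ 1 / 4) → (∀ x ∈ closedBall (0 : ℂ) (1 / 4), P (x, g x) ∈ U) →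
  ∃ z ∈ U, f^[N + N'] z = z

section comb
open Classical

/-- the frequency of the letter `b` in the dyadic block `[i 2^m, (i+1) 2^m)` of the word `ν` -/
def Fq {ι : Type} (ν : ℕ → Option ι) (m i : ℕ) (b : ι) : ℝ :=
  (#{k ∈ Finset.Ico (i * 2 ^ m) ((i + 1) * 2 ^ m) | ν k = some b} : ℝ) / 2 ^ m

/-- the number of the pairs (left half, right half) of the block `i` of size `2^(m+1)` which are not edges -/
def bad {ι : Type} (E : ι → ι → Prop) (ν : ℕ → Option ι) (m i : ℕ) : ℕ :=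
  #{p ∈ Finset.Ico (2 * i * 2 ^ m) ((2 * i + 1) * 2 ^ m) ×ˢ Finset.Ico ((2 * i + 1) * 2 ^ m) ((2 * i + 2) * 2 ^ m) |
    ¬ ∃ b b', ν p.1 = some b ∧ ν p.2 = some b' ∧ E b b'}

/-- XFQ (short). `0 ≤ Fq`, sum at most one, halves: `2 Fq (m+1) i = Fq m (2i) + Fq m (2i+1)` (`Ico` is the disjoint union of the two halves). -/
def XFQ_stmt : Prop := ∀ (ι : Type) [Fintype ι] (ν : ℕ → Option ι) (m i : ℕ),
  (∀ b, 0 ≤ Fq ν m i b) ∧ ∑ b, Fq ν m i b ≤ 1 ∧ ∀ b, 2 * Fq ν (m + 1) i b = Fq ν m (2 * i) b + Fq ν m (2 * i + 1) b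

/-- XTL (short-medium, from XFQ). TELESCOPING. Let `A m = 2^(-(M-m)) ∑_(i < 2^(M-m)) ∑_b Fq m i b ^ 2 ∈ [0, 1]` (sums of squares of sub-probability vectors are at most 1). `(x - y)^2 = 2 x^2 + 2 y^2 - 4 ((x+y)/2)^2`: the average over `i < 2^(M-m-1)` of `∑_b (Fq m (2i) b - Fq m (2i+1) b)^2` is `4 (A m - A (m+1))`
(`Finset.sum_range` over `2^(M-m) = 2 * 2^(M-m-1)` splits in even and odd indices: `Finset.sum_range_succ_mul_comm`.. or induction: `∑_(i<2n) c i = ∑_(i<n) (c (2i) + c (2i+1))`). Telescope: `4 (A m0 - A M) ≤ 4`. -/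
def XTL_stmt : Prop := ∀ (ι : Type) [Fintype ι] (ν : ℕ → Option ι) (m0 M : ℕ), m0 ≤ M →
  ∑ m ∈ Finset.Ico m0 M, (∑ i ∈ range (2 ^ (M - m - 1)), ∑ b, (Fq ν m (2 * i) b - Fq ν m (2 * i + 1) b) ^ 2) / 2 ^ (M - m - 1) ≤ 4

/-- XAC (short). ASYMMETRIC RELATIONS. `B = ∑_(b,b') 1_E x b x b' ≤ 1/2`, as `1_E(b,b') + 1_E(b',b) ≤ 1` and `(∑ x)^2 ≤ 1`. `∑ 1_E x b (y b' - x b') ≤ ∑_(b') |y b' - x b'|`. -/
def XAC_stmt : Prop := ∀ (ι : Type) [Fintype ι] (E : ι → ι → Prop) (x y : ι → ℝ), (∀ b b', E b b' → ¬ E b' b) → (∀ b, 0 ≤ x b) → ∑ b, x b ≤ 1 →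
  ∑ b, ∑ b', (if E b b' then x b * y b' else 0) ≤ 1 / 2 + ∑ b, |x b - y b|

/-- XBD (short-medium). COUNTING: the number of all pairs of the block is `4^m`; the number of the good pairs is `∑_(b,b') 1_E (2^m Fq m (2i) b) (2^m Fq m (2i+1) b')`. -/
def XBD_stmt : Prop := ∀ (ι : Type) [Fintype ι] (E : ι → ι → Prop) (ν : ℕ → Option ι) (m i : ℕ),
  (bad E ν m i : ℝ) / 4 ^ m = 1 - ∑ b, ∑ b', (if E b b' then Fq ν m (2 * i) b * Fq ν m (2 * i + 1) b' else 0)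

/-- XC2 (short-medium, from XFQ, XTL, XAC, XBD). AN ASYMMETRIC RELATION MISSES A PROPORTION 1/4 OF THE PAIRS. `q = Fintype.card ι`. If `q = 0` then all pairs are bad: `bad / 4^m = 1` (XBD). If `q ≥ 1`, `L = M - m0 ≥ 64 q`. For every block `bad / 4^m ≥ 1/2 - ∑_b |d b|`, `d b = Fq m (2i) b - Fq m (2i+1) b` (XBD, XAC, XFQ);
`|t| ≤ 2 q t^2 + 1/(8 q)`, so `∑_b |d b| ≤ 2 q ∑_b (d b)^2 + 1/8`. Average over `i < 2^(M-m-1)` and sum over `m`: `≥ (1/2 - 1/8) L - 2 q * 4 ≥ (3/8 - 1/8) L = L / 4` (XTL; `8 q ≤ L / 8`). -/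
def XC2_stmt : Prop := ∀ (ι : Type) [Fintype ι] (E : ι → ι → Prop) (ν : ℕ → Option ι) (m0 M : ℕ), (∀ b b', E b b' → ¬ E b' b) → m0 + 64 * Fintype.card ι ≤ M →
  ((M : ℝ) - m0) / 4 ≤ ∑ m ∈ Finset.Ico m0 M, (∑ i ∈ range (2 ^ (M - m - 1)), (bad E ν m i : ℝ) / 4 ^ m) / 2 ^ (M - m - 1)

/-- XCL (short-medium, from XC1, XC2). THE THEOREM OF THIS BLOCK. `E' b b'` = `E b b'` and `b`, `b'` occur in the word (`ν k = some b` for some `k < 2^M`); `bad E' = bad E` for the blocks in question (all positions are `< 2^M`: `(2i+2) 2^m ≤ 2^M`). By XC2 `E'` is not asymmetric: `E' b b'`, `E' b' b`. XC1. -/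
def XCL_stmt : Prop := ∀ (Ω : Type) [TopologicalSpace Ω] (f : Ω → Ω) (U : Set Ω) (ι : Type) [Fintype ι] (P : ι → ℂ × ℂ → Ω) (ν : ℕ → Option ι) (m0 M T : ℕ),
  Continuous f → f '' closure U ⊆ U → (∀ b, ContinuousOn (P b) Qd) →
  (∀ k < 2 ^ M, ∀ b, ν k = some b → ∃ g : ℂ → ℂ, DifferentiableOn ℂ g (ball 0 1) ∧ (∀ x ∈ ball (0 : ℂ) 1, ‖g x‖ ≤ 1 / 4) ∧
    ∀ x ∈ closedBall (0 : ℂ) (1 / 4), P b (x, g x) ∈ U) →
  m0 + 64 * Fintype.card ι ≤ M →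
  ∑ m ∈ Finset.Ico m0 M, (∑ i ∈ range (2 ^ (M - m - 1)),
    (bad (fun b b' => ∃ N, 0 < N ∧ N ≤ T ∧ Edge f (P b) (P b') N) ν m i : ℝ) / 4 ^ m) / 2 ^ (M - m - 1) < ((M : ℝ) - m0) / 4 →
  ∃ z ∈ U, ∃ n, 0 < n ∧ n ≤ 2 * T ∧ f^[n] z = z

end comb

end

end Pool.Agent.P2
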