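import Pool.Agent.helper37.P2.DefsC

set_option autoImplicit false

/-!
# Project P2 (MP_063734_an), block V: near-maximal discs. TARGET: `VBL_stmt` of `helper37/P2/DefsC.lean`

Rows `p2:V*`: prove `XX_stmt` in `Pool/Agent/<seat>/P2/XX.lean`, `import Pool.Agent.helper83.P2.SpecV`, namespace `Pool.Agent.P2V`, then `open Pool.Agent.P2`; auxiliary lemmas prefixed `XX_`; the rows after the word from are hypotheses,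
in this order (`theorem XX (hYY : YY_stmt) ... : XX_stmt`, exact line in the lock note). Rows of blocks A, B (`UN1`, `UNH`, `MSS`, `RAD`, `DMS`, `ENC`, `RIE`, ...) are hypotheses too, but their files may be imported for their lemmas.

IDEA. `Psf f Λ m N` is the logarithm of the squared size of `Df^m` (truncated at `exp(-Λ m)`), `pv` the same for the derivative of `f^m` in one direction, `Tf` the average of `pv` along a disc. Fekete: the supremum of `Jf (Psf)` over the discs of `Us J` of large mass is `a m + o(m)`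
(`VFK`), and by spreading the disc a little (`VSP`) the supremum of `Tf` has the same growth. So there are discs with `Tf f Λ L N Z ≥ L(a-ε)`; by telescoping (`VTT`) on most of the images `F^i Z` `Tf f Λ m` is `≥ m(a-2ε)`, whereas `Jf (Psf) ≤ m(a+ε)` for these discs and their translates. The quantitative
subharmonicity of `v ↦ Jf (Psf) (A_v Y)` and, on every island, of the average of `Th` (the logarithm of the horizontal derivative), gives that the average of `Psf - Th`, so of `Lf`, over the translates of the islands is `≤ 3 ε m` (`VPT`).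

* `Av ι v Y` is the translate `Y + v Y_ι e_2` of the disc `Y`: the point `gp ι c κ γ (ξ,0)` goes to `gp ι c κ γ (ξ,v)`.
* `Kr r δ K`: `K` is a kernel as in row `KER`.
* In all rows `U` is a trapping region with `Good0 f U`. `UN1` gives: `|un f N W - (1/2) log nq W| ≤ C`, `|(1/2) log nq (It f m W) - d^m un f N W| ≤ 2C` for `m ≤ N`, and (same for all `N`) `nq (It f m W) ≤ C pq (It f m W)`, for `W` in the cone of `closure U`.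
* `It f (m+n) W = It f n (It f m W)` (`pmap_iter_add`).
-/

open scoped ContDiff Topology
open MeasureTheory Filter Set Metric MvPolynomial Pool.Agent.helper37.QA Pool.Agent.P2

namespace Pool.Agent.P2V

/-! ### Definitions -/

/-- squared size of `Df^m` at `Z` (up to bounded factors), homogeneous of degree `0` -/
noncomputable def hop {d : ℕ} (f : Endo 2 d) (m N : ℕ) (Z : E3) : ℝ :=
  nq Z * (∑ i : Fin 3, nq (crs (It f m Z) (fderiv ℂ (It f m) Z (Pi.single i 1)))) * Real.exp (-(4 * (d : ℝ) ^ m * un f N Z))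

/-- truncated logarithm of `hop` -/
noncomputable def Psf {d : ℕ} (f : Endo 2 d) (Λ : ℝ) (m N : ℕ) (Z : E3) : ℝ := Real.log (hop f m N Z + Real.exp (-(Λ * m)))

/-- squared size of the derivative of `f^m` in the direction `V` -/
noncomputable def Rv {d : ℕ} (f : Endo 2 d) (m N : ℕ) (W V : E3) : ℝ :=
  nq (crs (It f m W) (fderiv ℂ (It f m) W V)) / nq (crs W V) * Real.exp (4 * un f N W - 4 * (d : ℝ) ^ m * un f N W)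

/-- truncated logarithm of `Rv` -/
noncomputable def pv {d : ℕ} (f : Endo 2 d) (Λ : ℝ) (m N : ℕ) (W V : E3) : ℝ := Real.log (Rv f m N W V + Real.exp (-(Λ * m)))

/-- density of `u_N` in the direction `V` -/
noncomputable def tv {d : ℕ} (f : Endo 2 d) (N : ℕ) (W V : E3) : ℝ := (1 / 2) * Complex.normSq (cc f N W V) / pq (It f N W) ^ 2 / (d : ℝ) ^ N

/-- average of `pv` along the disc, for the law of level `N` -/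
noncomputable def Tf {d : ℕ} (f : Endo 2 d) (Λ : ℝ) (m N : ℕ) (Z : ℂ → E3) : ℝ := (∫ z, eta z ^ 2 * (pv f Λ m N (Z z) (deriv Z z) * tau f N Z z)) / mass f N Z

/-- truncated logarithm of the squared size of `∂_ξ (It f m ∘ gp)` (in the tube of a graph) -/
noncomputable def Th {d : ℕ} (f : Endo 2 d) (Λ : ℝ) (m N : ℕ) (ι : Fin 2) (c : ℂ) (κ : ℝ) (γ : ℂ → ℂ) (p : ℂ × ℂ) : ℝ :=
  Real.log (nq (crs (It f m (gp ι c κ γ p)) (fderiv ℂ (fun q => It f m (gp ι c κ γ q)) p (1, 0))) * Real.exp (-(4 * (d : ℝ) ^ m * un f N (gp ι c κ γ p))) + Real.exp (-(Λ * m)))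

/-- the properties of the kernels of row `KER` -/
def Kr (r δ : ℝ) (K : ℂ → ℝ) : Prop :=
  ContDiff ℝ ∞ K ∧ (∀ s, r ≤ ‖s‖ → K s = 0) ∧ (∀ s, 0 ≤ K s) ∧ (∀ s, lap K s = phr r s - phr δ s) ∧ (∀ s, s ≠ 0 → ‖fderiv ℝ K s‖ ≤ 4 / ‖s‖) ∧
    (∀ s, s ≠ 0 → K s ≤ max (Real.log (r / ‖s‖)) 0)

/-- the translate of the disc `Y` (in the vertical direction) -/
def Av (ι : Fin 2) (v : ℂ) (Y : ℂ → E3) : ℂ → E3 := fun z => mv (adE one3 2 ι.castSucc v) (Y z)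

/-- integral of `Θ` over the translate `γ + v`, law of level `N` -/
noncomputable def Ja {d : ℕ} (f : Endo 2 d) (N : ℕ) (Θ : ℂ × ℂ → ℝ) (ι : Fin 2) (c : ℂ) (κ : ℝ) (γ : ℂ → ℂ) (v : ℂ) : ℝ := ∫ ξ, eta ξ ^ 2 * (Θ (ξ, v) * gt f N ι c κ γ (ξ, v))

/-- integral of `Psf - Th` over the translate `γ + v` -/
noncomputable def Dj {d : ℕ} (f : Endo 2 d) (Λ : ℝ) (m N : ℕ) (ι : Fin 2) (c : ℂ) (κ : ℝ) (γ : ℂ → ℂ) (v : ℂ) : ℝ :=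
  Ja f N (fun p => Psf f Λ m N (gp ι c κ γ p)) ι c κ γ v - Ja f N (Th f Λ m N ι c κ γ) ι c κ γ v

/-- energy density of `Θ` on the sheets of level `N` in the tube of `γ` -/
noncomputable def Ge {d : ℕ} (f : Endo 2 d) (N : ℕ) (Θ : ℂ × ℂ → ℝ) (ι : Fin 2) (c : ℂ) (κ : ℝ) (γ : ℂ → ℂ) (p : ℂ × ℂ) : ℝ :=
  lev Θ p (ev (gP f N ι c κ γ) (gQ f N ι c κ γ) p) * om (gP f N ι c κ γ) (gQ f N ι c κ γ) p / (2 * (d : ℝ) ^ N)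

/-- energy density of `Ψ` on the translate `A_v Y` -/
noncomputable def Gn {d : ℕ} (f : Endo 2 d) (N : ℕ) (Ψ : E3 → ℝ) (ι : Fin 2) (v : ℂ) (Y : ℂ → E3) (z : ℂ) : ℝ :=
  en f N Ψ (Av ι v Y z) (Pi.single 2 (Y z ι.castSucc)) (mv (adE one3 2 ι.castSucc v) (deriv Y z))

/-- classes of pairs (level, disc) -/
def Cls {d : ℕ} (f : Endo 2 d) (Us : ℕ → Set (PP 2)) (J : ℕ) (B : ℝ) (M : ℕ) : Set (ℕ × (ℂ → E3)) :=
  {x | Dsc (Us J) x.2 ∧ M ≤ x.1 ∧ (M : ℝ) ≤ mass f x.1 x.2 ∧ ∀ z ∈ ball (0 : ℂ) 1, |un f x.1 (x.2 z)| ≤ B * mass f x.1 x.2}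

/-- `g` is an island of the disc `Y` over `(ι, c, κ)` (the same as `Isl f Z k ι c κ g γ` for `Y z = It f k (Z z)`) -/
def Is0 (Y : ℂ → E3) (ι : Fin 2) (c : ℂ) (κ : ℝ) (g γ : ℂ → ℂ) : Prop :=
  DifferentiableOn ℂ g (ball 0 1) ∧ (∀ ξ ∈ ball (0 : ℂ) 1, g ξ ∈ ball (0 : ℂ) 1) ∧ DifferentiableOn ℂ γ (ball 0 1) ∧
    ∀ ξ ∈ ball (0 : ℂ) 1, ∃ a : ℂ, a ≠ 0 ∧ Y (g ξ) = a • gp ι c κ γ (ξ, 0)

theorem Is0_iff {d : ℕ} (f : Endo 2 d) (Z : ℂ → E3) (k : ℕ) (ι : Fin 2) (c : ℂ) (κ : ℝ) (g γ : ℂ → ℂ) : Isl f Z k ι c κ g γ ↔ Is0 (fun z => It f k (Z z)) ι c κ g γ := Iff.rfl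

/-- a family of pairwise disjoint islands of `Y` -/
def Fam (Y : ℂ → E3) (κ : ℝ) {n : ℕ} (A : Fin n → ID) : Prop :=
  (∀ a, ‖(A a).c‖ ≤ 2 ∧ Is0 Y (A a).ι (A a).c κ (A a).g (A a).γ) ∧ ∀ a b, a ≠ b → Disjoint ((A a).g '' ball 0 1) ((A b).g '' ball 0 1)

/-- admissible weights of the islands -/
def Wgt {n : ℕ} (A : Fin n → ID) (W : Fin n → ℝ) : Prop := ∀ a, 0 ≤ W a ∧ ∀ ξ : ℂ, ‖ξ‖ ≤ 4 / 5 → W a ≤ eta ((A a).g ξ) ^ 2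

/-! ### Pure rows -/

/-- Row VTL (short to medium): telescoping a subadditive cocycle. Proof: for `0 ≤ ρ < m` write `L = ρ + q m + ρ'` with `0 ≤ ρ' < m`: `a 0 L ≤ a 0 ρ + ∑_(j<q) a (ρ+jm) m + a (ρ+qm) ρ'` (induction). Sum over `ρ`: the numbers `ρ + jm` with `ρ + jm + m ≤ L` are exactly the `i ≤ L - m`, each once. So
`m a 0 L ≤ ∑_(i≤L-m) a i m + 2 C m · m`, and for the missing `i ∈ (L-m, L)` `a i m ≥ -C(m+1)`. Total error `≤ 2Cm² + C(m-1)(m+1) ≤ 3C(m+1)²`. (Alternative by induction on `L`: with `S(L) = ∑_(ρ<m) a 0 (L-ρ)` one has `S(L+1) - S(L) = a 0 (L+1) - a 0 (L+1-m) ≤ a (L+1-m) m` for `L + 1 ≥ m`, so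
`S(L) ≤ S(m-1) + ∑_(i≤L-m) a i m`, and `m a 0 L ≤ S(L) + ∑_(ρ<m) a (L-ρ) ρ`.) -/
def VTL_stmt : Prop :=
  ∀ (a : ℕ → ℕ → ℝ) (C : ℝ) (m L N : ℕ), 0 ≤ C → 1 ≤ m → m ≤ L → L + m ≤ N → (∀ i n k, i + n + k ≤ N → a i (n + k) ≤ a i n + a (i + n) k) →
    (∀ i n, i + n ≤ N → |a i n| ≤ C * (n + 1)) → m * a 0 L ≤ (∑ i ∈ Finset.range L, a i m) + 3 * C * (m + 1) ^ 2

/-- Row VFK (medium): Fekete's lemma and a continuity point. `S m` is a shift. Proof: let `α_m(J,B,M) = sup {φ m x : x ∈ Cl J B M}` for `M ≥ m`, `B ≥ K0` (nonempty, bounded by `C(m+1)`), it decreases in `J`, `M` and increases in `B`; `α_m(B) = inf_(J,M) α_m(J,B,M)` (directed). Subadditivity of `φ` and `S m (Cl J B (M+m)) ⊆ Cl J B M` give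
`α_(m+n)(B) ≤ α_m(B) + α_n(B) + C`, so `a(B) = inf_(m≥1) (α_m(B) + C)/m` is the limit of `α_m(B)/m` (Fekete: `Subadditive.tendsto_lim` for `m ↦ α_m(B) + C`, or directly), `a(B)` is monotone, `|a(B)| ≤ 3C`. Let `Kb` be a continuity point of `a` (`Monotone.countable_not_continuousAt`; extend `a` as a constant below `K0`)
in `(K0, K0+1)`, `a = a(Kb)`. (U): take `τ` with `a(Kb+τ) ≤ a + ε/4`, `m₁` with `(α_(m₁)(Kb+τ) + C)/m₁ ≤ a + ε/2`, and `J0`, `M₁` with `(α_(m₁)(J0,Kb+τ,M₁) + C)/m₁ ≤ a + 3ε/4`; by induction on `q`, for `x ∈ Cl J0 (Kb+τ) (M₁ + q m₁ + ρ)`: `φ (q m₁ + ρ) x ≤ q m₁ (a + 3ε/4) + C(m₁+1)`, for `0 ≤ ρ < m₁`; this is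
`≤ m(a+ε)` for `m = q m₁ + ρ ≥ m₀` (`|a| m₁` also goes into the error). (L): take `τ` with `Kb - τ ≥ K0` and `a(Kb-τ) ≥ a - ε`; `α_m(J,Kb-τ,M) ≥ α_m(Kb-τ) ≥ m a(Kb-τ) - C`, and take `x` with `φ m x` greater than the supremum minus `1` (for `M ≥ m`; for smaller `M` use the class with `max M m`). For `m = 0`: `φ 0 x ≥ -C`. -/
def VFK_stmt : Prop :=
  ∀ (X : Type) (Cl : ℕ → ℝ → ℕ → Set X) (S : ℕ → X → X) (φ : ℕ → X → ℝ) (C K0 : ℝ), 0 ≤ C →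
    (∀ (J J' : ℕ) (B B' : ℝ) (M M' : ℕ), J ≤ J' → B' ≤ B → M ≤ M' → Cl J' B' M' ⊆ Cl J B M) →
    (∀ (J : ℕ) (M : ℕ), (Cl J K0 M).Nonempty) →
    (∀ (J : ℕ) (B : ℝ) (M m : ℕ) (x : X), x ∈ Cl J B (M + m) → S m x ∈ Cl J B M) →
    (∀ (J : ℕ) (B : ℝ) (m : ℕ) (x : X), x ∈ Cl J B m → |φ m x| ≤ C * (m + 1)) →
    (∀ (J : ℕ) (B : ℝ) (m n : ℕ) (x : X), x ∈ Cl J B (m + n) → φ (m + n) x ≤ φ m x + φ n (S m x) + C) →
    ∃ Kb a : ℝ, K0 < Kb ∧ Kb < K0 + 1 ∧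
      (∀ ε : ℝ, 0 < ε → ∃ (J0 m0 : ℕ) (τ : ℝ), 0 < τ ∧ 1 ≤ m0 ∧ ∀ m ≥ m0, ∃ M : ℕ, ∀ x ∈ Cl J0 (Kb + τ) M, φ m x ≤ m * (a + ε)) ∧
      (∀ ε : ℝ, 0 < ε → ∃ τ : ℝ, 0 < τ ∧ ∀ J m M : ℕ, ∃ x ∈ Cl J (Kb - τ) M, m * (a - ε) - C - 1 ≤ φ m x)

/-- Row VDS (short to medium): change of variables on disjoint images. Proof: `ball 0 1 ⊇ ⋃ g_a(ball 0 1)`, disjoint measurable sets (open: injective holomorphic, or `MeasurableSet.image_of_continuousOn_injOn`); `integrableOn_image_iff_integrableOn_abs_det_fderiv_smul`, `integral_image_eq_integral_abs_det_fderiv_smul` with the real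
derivative of `g_a`, the multiplication by `deriv g_a ξ`, whose determinant is `Complex.normSq` of it; `integral_finset_biUnion` (or `integral_iUnion_fintype`) and `setIntegral_mono_set`. -/
def VDS_stmt : Prop :=
  ∀ (n : ℕ) (g : Fin n → ℂ → ℂ) (G : ℂ → ℝ), (∀ a, DifferentiableOn ℂ (g a) (ball 0 1) ∧ InjOn (g a) (ball 0 1) ∧ ∀ ξ ∈ ball (0 : ℂ) 1, g a ξ ∈ ball (0 : ℂ) 1) →
    (∀ a b, a ≠ b → Disjoint (g a '' ball 0 1) (g b '' ball 0 1)) → (∀ z ∈ ball (0 : ℂ) 1, 0 ≤ G z) → IntegrableOn G (ball 0 1) →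
    (∀ a, IntegrableOn (fun ξ => G (g a ξ) * Complex.normSq (deriv (g a) ξ)) (ball 0 1)) ∧
    ∑ a, ∫ ξ in ball (0 : ℂ) 1, G (g a ξ) * Complex.normSq (deriv (g a) ξ) ≤ ∫ z in ball (0 : ℂ) 1, G z

/-- Row VL1 (short to medium). Proof: if `b1 = 0` then `K = 0`. Otherwise let `s₀` be the minimum point of `nq (b0 + s b1)`: `nq (b0 + s b1) ≥ ‖s - s₀‖² nq b1` (Cauchy-Schwarz), so `log(1 + K/nq) ≤ log(1 + C/‖s-s₀‖²) ≤ √C/‖s-s₀‖` for `s ≠ s₀` (`log(1+x) ≤ √x`), and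
`∫_(ball 0 ρ) 1/‖s-s₀‖ ≤ ∫_(ball s₀ ρ) 1/‖s-s₀‖ + πρ²/ρ = 3πρ`. -/
def VL1_stmt : Prop :=
  ∀ ρ C : ℝ, 0 < ρ → 0 < C → ∃ C1 : ℝ, 0 < C1 ∧ ∀ (K : ℝ) (b0 b1 : E3), 0 ≤ K → K ≤ C * nq b1 →
    ∫⁻ s in ball (0 : ℂ) ρ, ENNReal.ofReal (Real.log (1 + K / nq (b0 + s • b1))) ≤ ENNReal.ofReal C1

/-- Row VPH (short to medium): the densities `phr`. Proof: definition of `bmp`, `phr` (helper1's `KER.lean` has `KER_c`, `KER_cpos`, `KER_phr`). Third part: `bmp (v/(2s)) = 1` for `‖v‖ < s` and `∫ bmp ≤ π/2` (support in `‖s‖² ≤ 1/2`). Last part: `|∫ phr δ h - h 0| ≤ sup_(‖v‖<δ) |h v - h 0|` (if `h` is measurable near `0`;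
helper90's `CORE` has this step: continuous on a ball suffices). -/
def VPH_stmt : Prop :=
  (∀ r : ℝ, 0 < r → Continuous (phr r) ∧ (∀ v, 0 ≤ phr r v) ∧ (∀ v, r ≤ ‖v‖ → phr r v = 0) ∧ ∫ v, phr r v = 1 ∧ ∃ C : ℝ, ∀ v, phr r v ≤ C) ∧
  (∀ (s : ℝ) (v : ℂ), 0 < s → ‖v‖ < s → 1 / (2 * Real.pi * s ^ 2) ≤ phr (2 * s) v) ∧
  (∀ (r : ℝ) (h : ℂ → ℝ), 0 < r → ContinuousOn h (ball 0 r) → ∀ ε : ℝ, 0 < ε → ∃ δ0 : ℝ, 0 < δ0 ∧ ∀ δ : ℝ, 0 < δ → δ < δ0 →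
    Integrable (fun v => phr δ v * h v) ∧ |(∫ v, phr δ v * h v) - h 0| ≤ ε) ∧
  (∀ (r r' : ℝ) (h : ℂ → ℝ), 0 < r → r < r' → ContinuousOn h (ball 0 r') → Integrable (fun v => phr r v * h v))

/-! ### Potential theory: discs on which `|u_N|` is comparable to the mass -/

/-- Row VN0 (medium): the Newton potential. Proof: `N(z) = (2/π) ∫ log‖w‖ ρ(z - w) dw` is smooth (`ρ` smooth with compact support, `log‖·‖` locally integrable: `HasCompactSupport.contDiff_convolution_left/right`), and `lap N = (2/π) ∫ log‖w‖ (lap ρ)(z-w) dw`; it remains `∫ log‖w‖ lap χ(w) dw = (π/2) χ(0)` for smooth `χ` with compact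
support: search `fundamental`, `log‖` in `Pool/Agent` (helper1's `KER`, helper53's `INTA`, helper37's `QA`); e.g. replace `log‖w‖` by `(1/2) log(‖w‖²+ε²)`, whose `lap` is `(1/2) ε²/(‖w‖²+ε²)²`, integrate by parts twice and let `ε → 0` (approximate identity of mass `π/2`). -/
def VN0_stmt : Prop :=
  ∀ ρ : ℂ → ℝ, ContDiff ℝ ∞ ρ → HasCompactSupport ρ →
    ContDiff ℝ ∞ (fun z => (2 / Real.pi) * ∫ w, Real.log ‖w‖ * ρ (z - w)) ∧ ∀ z, lap (fun z => (2 / Real.pi) * ∫ w, Real.log ‖w‖ * ρ (z - w)) z = ρ z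

/-- Row VN1 (medium; from VN0). Proof: `χ` a smooth cut-off, `1` on `closedBall 0 (17/16)`, support in `ball 0 (9/8)`, `0 ≤ χ ≤ 1`; `ρ = χ lap v ≥ 0` and `N` its Newton potential. For `z ∈ ball 0 1` `|N z| ≤ (2/π) ∫ |log‖z-w‖| ρ(w) dw ≤ C A`: the part `‖w-z‖ < 1/8` by dyadic rings `2^(-k-1)/8 ≤ ‖w-z‖ < 2^(-k)/8`
(`|log| ≤ k + 4`, mass `≤ A (2^(-k)/8)^β`, hypothesis with `ζ = z`), the part `1/8 ≤ ‖w-z‖ ≤ 17/8` by `|log| ≤ log 8` and `∫ ρ ≤ ∑` over a covering of `ball 0 (9/8)` by balls `ball ζ_i (1/8)`, `ζ_i ∈ ball 0 (9/8)`. The function `v - N` is smooth with `lap = 0` on `ball 0 (17/16)`, so it is the real part of a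
holomorphic function there (`InnerProductSpace.HarmonicOnNhd`, `harmonic_is_realOfHolomorphic` of Mathlib; helper39's `SWE.lean` uses something similar). -/
def VN1_stmt : Prop :=
  ∀ β : ℝ, 0 < β → ∃ C : ℝ, 0 < C ∧ ∀ (A : ℝ) (v : ℂ → ℝ), 0 ≤ A → ContDiffOn ℝ ∞ v (ball 0 (5 / 4)) → (∀ z ∈ ball (0 : ℂ) (5 / 4), 0 ≤ lap v z) →
    (∀ ζ ∈ ball (0 : ℂ) (9 / 8), ∀ t : ℝ, 0 < t → t ≤ 1 / 8 → ∫ z in ball ζ t, lap v z ≤ A * t ^ β) →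
    ∃ g : ℂ → ℂ, DifferentiableOn ℂ g (ball 0 1) ∧ ∀ z ∈ ball (0 : ℂ) 1, |v z - (g z).re| ≤ C * A

/-- Row VN2 (long; from UN1 UNH MSS): a sub-disc on which the mass is regularly distributed. Proof. `α` of `UNH`, `β = α/2`. Let `M_N(a,ρ) = mass f N (Z(a + ρ·)) = ∫ lap(η²)(z) u_N(Z(a+ρz)) dz` (`MSS`) for `(a,ρ)` admissible: `0 < ρ`, `‖a‖ + 2ρ ≤ 9/10`. By `UN1` `|u_N(Z) - u_n(Z)| ≤ C/d^n`, so the limit `M(a,ρ)` exists,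
`|M_N - M| ≤ C'/d^N` with `C'` independent of `(a,ρ)`. Hoelder: by `UNH` (the disc is Lipschitz and `‖Z‖ ≥ c` on `closedBall 0 (9/10)`; for large `‖z-z'‖` use that the `u_N(Z)` are uniformly bounded there) `|u_N(Z z) - u_N(Z z')| ≤ C_Z ‖z-z'‖^α` on this disc, hence `M_N(a,ρ) ≤ C_Z ρ^α` (subtract `u_N(Z a)`, `∫ lap(η²) = 0`).
So `sup M(a,ρ)/ρ^β < ∞`; it is `> 0`: otherwise, covering `closedBall 0 (4/5)` by finitely many balls `ball a_i (1/40)` and with `η(·/ρ) = 1` on `‖z‖ ≤ ρ/2`, `mass f N Z ≤ ∫_(‖z‖≤4/5) lap(u_N∘Z) ≤ ∑ M_N(a_i,1/20) → 0`. Choose `(a,ρ)` admissible with `M(a,ρ)/ρ^β ≥ (1/2) sup`, `Z₁ = Z(a+ρ·)`. For `ζ ∈ ball 0 (9/8)`, `t ≤ 1/8`, `t' = 3t/2`: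
`∫_(ball ζ t) lap(u_N∘Z₁) ≤ ∫ η((z-ζ)/t')² lap(u_N∘Z₁) = M_N(a+ρζ, ρt')`, the pair is admissible (`9/8 + 2t' ≤ 2`), so this is `≤ 2 M(a,ρ) t'^β + C'/d^N` and also `≤ C_Z (ρt')^α`. For `t ≤ t₁` (`t₁` depends on `Z`) the second bound is `≤ M(a,ρ) t^β`; for `t ≥ t₁` and `N` large `C'/d^N ≤ M(a,ρ) t₁^β`. Finally `M_N(a,ρ) ≥ M(a,ρ)/2` for large `N`.
The constant: `C = 20` (as `β ≤ 1`). -/
def VN2_stmt : Prop :=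
  ∀ (d : ℕ) (f : Endo 2 d) (U : Set (PP 2)), 2 ≤ d → Good0 f U → ∃ β C : ℝ, 0 < β ∧ 1 ≤ C ∧ ∀ Z : ℂ → E3, Dsc U Z → (∃ c : ℝ, 0 < c ∧ ∀ᶠ N in atTop, c ≤ mass f N Z) →
    ∃ (a : ℂ) (ρ c : ℝ), 0 < ρ ∧ ‖a‖ + 2 * ρ < 1 ∧ 0 < c ∧ ∀ᶠ N in atTop, c ≤ mass f N (fun z => Z (a + ρ * z)) ∧
      ∀ ζ ∈ ball (0 : ℂ) (9 / 8), ∀ t : ℝ, 0 < t → t ≤ 1 / 8 → ∫ z in ball ζ t, lap (fun z => un f N (Z (a + ρ * z))) z ≤ C * mass f N (fun z => Z (a + ρ * z)) * t ^ β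

/-- Row VNE (medium; from UN1 MSS VIT VN1 VN2): the classes are not empty, with a uniform bound `K0`. Proof: constants `β, C` of `VN2` for `Us 0`, `C'` of `VN1`; `K0 = C C'`. Given `J`, `M`: a charged disc `Z` in `Us J` (`Core.charged`, it is also a disc in `Us 0` by `Core.anti`), `a, ρ, c` of `VN2`, `k` with `d^k c ≥ M`, and `N ≥ k + M` large.
`v = u_N∘Z₁`, `Z₁ = Z(a+ρ·)` (holomorphic for `‖z‖ < 2`), is smooth with `lap v ≥ 0` on `ball 0 (5/4)` (`pq (It f N (Z z)) > 0` by `UN1`; `lap ≥ 0`: `MSS` for `Z` and `lap (h(a+ρ·)) = ρ² lap h`). `VN1` with `A = C mass f N Z₁` gives `g`. `Z₂ = e^(-g) • Z₁` (put `Z₂ = Z₁` outside the ball if convenient) is a disc in `Us J`,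
`un f N (c • W) = un f N W + log‖c‖`, so `un f N (Z₂ z) = v z - (g z).re`, and `tau f N Z₂ = tau f N Z₁` on the ball (`(aP)'(aQ) - (aQ)'(aP) = a²(P'Q - Q'P)`), so the masses are equal. `x = (N - k, It f k ∘ Z₂)`: `VIT`. -/
def VNE_stmt : Prop :=
  ∀ (d : ℕ) (f : Endo 2 d) (Us : ℕ → Set (PP 2)) (K : Set (PP 2)), 2 ≤ d → Core f Us K → ∃ K0 : ℝ, 0 < K0 ∧ ∀ J M : ℕ, (Cls f Us J K0 M).Nonempty

/-! ### The functionals -/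

/-- Row VIT (short to medium; no hypothesis): iterates. Proof: `It f (N-k) (It f k W) = It f N W` (`pmap_iter_add`), so `pq (It f (N-k) (It f k W)) = pq (It f N W)` and `tau f (N-k) (It f k ∘ Z) z = d^k tau f N Z z` directly from the definitions (the functions of `z` under `deriv` are the same). Trapping: `f.map '' closure U ⊆ U`; the image of a
disc is a disc, with values in the cone of `f^k(U)` (helper42's `DMS.lean` has the case `k = 1`). `deriv (It f k ∘ Z) z = fderiv ℂ (It f k) (Z z) (deriv Z z)`. -/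
def VIT_stmt : Prop :=
  ∀ (d : ℕ) (f : Endo 2 d) (U : Set (PP 2)), 2 ≤ d → Good0 f U → ∀ k N : ℕ, k ≤ N →
    (∀ W : E3, It f (N - k) (It f k W) = It f N W ∧ un f (N - k) (It f k W) = (d : ℝ) ^ k * un f N W) ∧
    (∀ W ∈ cone U, It f k W ∈ cone U) ∧
    ∀ Z : ℂ → E3, Dsc U Z → Dsc U (fun z => It f k (Z z)) ∧ (1 ≤ k → Dsc (f.map '' closure U) (fun z => It f k (Z z))) ∧
      (∀ z, tau f (N - k) (fun z => It f k (Z z)) z = (d : ℝ) ^ k * tau f N Z z) ∧ mass f (N - k) (fun z => It f k (Z z)) = (d : ℝ) ^ k * mass f N Z ∧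
      (∀ Ψ : E3 → ℝ, Jf f (N - k) Ψ (fun z => It f k (Z z)) = Jf f N (fun Y => Ψ (It f k Y)) Z) ∧
      (∀ z ∈ ball (0 : ℂ) 1, deriv (fun z => It f k (Z z)) z = fderiv ℂ (It f k) (Z z) (deriv Z z))

/-- Row VSA (medium; from UN1): subadditivity and bounds. `T(W) : X ↦ It f m W × D(It f m)_W X` (cross product); it kills `W` (Euler: `D(It f m)_W W = d^m It f m W`). Proof. (1) If `crs W V = 0` then `V` is a multiple of `W`, all cross products are `0` and both sides of the inequality for `pv` are equal (`x/0 = 0`); otherwise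
`Rv f (m+n) N W V = Rv f m N W V · Rv f n (N-m) (It f m W) (D(It f m)_W V)` if `crs (It f m W) (D(It f m)_W V) ≠ 0` (as `un f (N-m) (It f m W) = d^m un f N W`), and both sides are `0` otherwise; `ab + e^(-Λ(m+n)) ≤ (a+e^(-Λm))(b+e^(-Λn))`. (2) With `H = It f m W`, `T_H : X ↦ It f n H × D(It f n)_H X`, which kills `H`:
`|T_H X|² ≤ (∑_j |T_H e_j|²) |H × X|²/|H|²` (Cauchy-Schwarz for the component of `X` orthogonal to `H`, whose length is `|H × X|/|H|`). Sum over `X = D(It f m)_W e_i`: `hop f (m+n) N W ≤ hop f m N W · hop f n (N-m) H · e^(4 d^m un f N W)/|H|⁴`, and `d^m un f N W = un f (N-m) H ≤ log|H| + C` by `UN1`; so `Psf` is subadditive up to `4C`.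
(3) In the same way `Rv f m N W V ≤ hop f m N W · e^(4 un f N W)/|W|⁴ ≤ e^(4C) hop f m N W`. (4) `Psf, pv ≥ -Λm`; `hop f 0 N W = 2|W|⁴ e^(-4 un) ≤ C'`, `hop f 1 N W ≤ C'` (`|F W × DF_W e_i| ≤ C |W|^(2d-1)`: polynomials), so by (2) `hop f m N W ≤ C'^(m+1)`. -/
def VSA_stmt : Prop :=
  ∀ (d : ℕ) (f : Endo 2 d) (U : Set (PP 2)), 2 ≤ d → Good0 f U → ∃ C : ℝ, 1 ≤ C ∧ ∀ (Λ : ℝ) (m n N : ℕ), 0 ≤ Λ → m ≤ N → ∀ W ∈ cone U, ∀ V : E3,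
    Psf f Λ (m + n) N W ≤ Psf f Λ m N W + Psf f Λ n (N - m) (It f m W) + C ∧
    pv f Λ (m + n) N W V ≤ pv f Λ m N W V + pv f Λ n (N - m) (It f m W) (fderiv ℂ (It f m) W V) ∧
    pv f Λ m N W V ≤ Psf f Λ m N W + C ∧ |Psf f Λ m N W| ≤ (C + Λ) * (m + 1) ∧ |pv f Λ m N W V| ≤ (C + Λ) * (m + 1)

/-- Row VAD (medium; from UN1 MAU CHN LSE VSA): `Psf` is admissible. Adapt helper80's `PSC.lean`. Proof: smooth on the cone (`pq (It f N Z) > 0`, polynomials; the argument of the logarithm is `> 0`), bounded by `VSA`, homogeneous of degree `0` (`It f m (cZ) = c^(d^m) It f m Z`, `D(It f m)_(cZ) = c^(d^m - 1) D(It f m)_Z`,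
`un f N (cZ) = un f N Z + log‖c‖`: exponents `2 + 2(2d^m - 1) - 4 d^m = 0`). Levi form at `Z` in a direction `E` with `cc f N Z E = 0`: on the line `Z + tE` put `G = (Z_k (It f m × D(It f m) e_i)_l)_(k,i,l)` (holomorphic, `nq G = nq Z ∑_i nq(..)`; `27` components, index it by `Fin 27` or generalise `LSE`) and `2B = -Λm + 4 d^m u_N`:
`Psf = log(nq G + e^(2B)) - 4 d^m u_N`; `lap u_N = (1/2)|cc f N Z E|²/pq²/d^N = 0` at `t = 0`, so `lap B = 0` and `LSE` gives `lap log(..) ≥ 0`. -/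
def VAD_stmt : Prop :=
  ∀ (d : ℕ) (f : Endo 2 d) (U : Set (PP 2)), 2 ≤ d → Good0 f U → ∃ C : ℝ, 1 ≤ C ∧ ∀ (Λ : ℝ) (m N : ℕ), 0 ≤ Λ → m ≤ N → Adm f U N (Psf f Λ m N) ((C + Λ) * (m + 1))

/-- Row VTT (medium; from UN1 VTL VIT VSA): telescoping along a disc. Proof: for `z` in the ball `a(i,n) = pv f Λ n (N-i) (It f i (Z z)) (deriv (It f i ∘ Z) z)` is a subadditive cocycle for `i + n ≤ N` by `VSA` (for the disc point `It f i (Z z)`, level `N - i`; `deriv (It f i ∘ Z) z = D(It f i)(deriv Z z)` and the chain rule), bounded by `(C+Λ)(n+1)`.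
`VTL` pointwise, times `η² tau f N Z/mass f N Z ≥ 0`, integrate (all functions are bounded and measurable times `η² tau`: `pv (Z z) (deriv Z z)` is measurable: quotient of continuous functions), and `tau f (N-i) (It f i ∘ Z) = d^i tau f N Z`, `mass` too (`VIT`). -/
def VTT_stmt : Prop :=
  ∀ (d : ℕ) (f : Endo 2 d) (U : Set (PP 2)) (Λ : ℝ), 2 ≤ d → Good0 f U → 0 ≤ Λ → ∃ C : ℝ, 1 ≤ C ∧ ∀ (m L N : ℕ) (Z : ℂ → E3), 1 ≤ m → m ≤ L → L + m ≤ N → Dsc U Z → 0 < mass f N Z →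
    m * Tf f Λ L N Z ≤ (∑ i ∈ Finset.range L, Tf f Λ m (N - i) (fun z => It f i (Z z))) + C * (m + 1) ^ 2 ∧ |Tf f Λ m N Z| ≤ C * (m + 1)

/-- Row VPW (long; from UN1 RAD VL1 VSA): pointwise spreading. Proof. First part: `VSA` (3). Second part: if `crs W V = 0` then `V` is a multiple of `W` and `tv = 0` (Euler). Otherwise `V = V⊥ + tW`, `V⊥ ⊥ W`, `λ = |V⊥| > 0`, and let `q` be the row vector `conj(V⊥)/λ`: `qW = 0`, `qV = λ`, `|q| = 1`. For `s ∈ S = {s ∈ ℂ³ : ‖s_i‖ < r/8}` the shift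
`A ↦ A + s⊗q` (entries `A_ij + s_i q_j`) preserves the measure, moves `Near (r/8)` into `Near (r/4)` and this into `Near (r/2)`, `(A+s⊗q)W = AW`, `(A+s⊗q)V = AV + λs`. By averaging over `s` and Tonelli it suffices to show, for every `A` near `(r/4)`, `W' = AW`, `V' = AV⊥` (mod `W'`):
`∫_S (Psf(W') - pv(W',V'+λs) + C) tv(W',V'+λs) ds ≤ C₁ ∫_S tv(W',V'+λs) ds`; then undo the average: `∫_(Near(r/4)) ∫_S tv(..) ds dA ≤ |S| ∫_(Near(r/2)) tv(AW,AV) dA`. Let `T : X ↦ It f m W' × D(It f m)_(W') X`, `‖T‖² = ∑|Te_i|²`, `c = cc f N W'` (both kill `W'`). (a) `|c(V'+λs)| ≤ 3λ|c|` (norm of the coefficient vector; `|V'| ≤ 2λ` by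
`RAD`) and `∫_S |c(V'+λs)|² ds ≥ λ² ∫_S |c(s)|² ds = c_r λ²|c|²` (symmetry `s ↦ -s`, and the coordinates are orthogonal in `L²(S)`). (b) `(h+e)/(R+e) ≤ 1 + h/R` for `R > 0`; here `h = hop`, `R = Rv`: `h/R = |W'|²‖T‖²|W'×(V'+λs)|² e^(-4u)/|T(V'+λs)|² ≤ C ‖T‖²/|T(V'/λ) + Ts|²` as `|W'×(V'+λs)| ≤ 3λ|W'|` and `e^(-4u) ≤ C/|W'|⁴`. (c) If `T = 0`,
`Psf = pv`. Otherwise choose `j` with `|Te_j|² ≥ ‖T‖²/3` and integrate first in `s_j`: `VL1` (`ρ = r/8`, `b1 = Te_j`). So `∫_S log(1+h/R) ds ≤ C`, and by (a) the left side is `≤ C |c|²λ²·(1/2)/pq²/d^N`. (Set of `s` with `T(V'+λs) = 0`: measure zero if `T ≠ 0`.) -/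
def VPW_stmt : Prop :=
  ∀ (d : ℕ) (f : Endo 2 d) (U : Set (PP 2)) (r : ℝ), 2 ≤ d → Good0 f U → 0 < r → r ≤ 1 / 100 → Rad r (f.map '' closure U) U → ∃ C1 : ℝ, 1 ≤ C1 ∧
    ∀ (Λ : ℝ) (m N : ℕ), 0 ≤ Λ → m ≤ N → ∀ W ∈ cone (f.map '' closure U), ∀ V : E3,
      (∀ A, Near r A → 0 ≤ Psf f Λ m N (mv A W) - pv f Λ m N (mv A W) (mv A V) + C1) ∧
      ∫⁻ A in {A : M3 | Near (r / 8) A}, ENNReal.ofReal ((Psf f Λ m N (mv A W) - pv f Λ m N (mv A W) (mv A V) + C1) * tv f N (mv A W) (mv A V)) ≤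
        ENNReal.ofReal C1 * ∫⁻ A in {A : M3 | Near (r / 2) A}, ENNReal.ofReal (tv f N (mv A W) (mv A V))

/-- Row VSP (medium to long; from UN1 RIE RAD DMS VSA VAD VPW): a perturbed disc has a large `Tf`. Proof: `Ψ = Psf f Λ m N` is admissible with bound `B = (C+Λ)(m+1)` (`VAD`); `RIE` (1): `Jf Ψ Z ≤ ∫ rho(r/8)(A) Jf Ψ (AZ) dA + C B mass^(-1/2)`. The density `rho (r/8)` is supported in `Near (r/8)`, bounded, with integral `1`. For `A` near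
`tau f N (AZ) z = tv f N (AZ z) (AZ' z)`; `Jf Ψ (AZ) = (∫ η² Ψ(AZ) tau(AZ))/mass(AZ)` differs from `mass(Z)⁻¹ ∫ η² Ψ(AZ) tau(AZ)` by at most `B C/mass(Z)` (`DMS` (1)), the same for `Tf`. By Tonelli and `VPW`: `∫_(Near(r/8)) ∫ η² (Ψ - pv + C₁) tau(AZ) dz dA ≤ C₁ ∫_(Near(r/2)) mass(AZ) dA ≤ C₂ mass(Z)`. So if
`Tf(AZ) < b` for all `A` near `(r/8)` then `Jf Ψ Z ≤ b + C₃ + C₃ B mass^(-1/2)`: contradiction for `b = Jf Ψ Z - C₃ - C₃ B mass^(-1/2) - 1`. (Measurability in `(A,z)`: the functions are quotients of continuous functions of `(A,z)`.) -/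
def VSP_stmt : Prop :=
  ∀ (d : ℕ) (f : Endo 2 d) (U : Set (PP 2)) (r : ℝ), 2 ≤ d → Good0 f U → 0 < r → r ≤ 1 / 100 → Rad r (f.map '' closure U) U → ∃ C1 : ℝ, 1 ≤ C1 ∧
    ∀ (Λ : ℝ) (m N : ℕ) (Z : ℂ → E3), 0 ≤ Λ → m ≤ N → Dsc (f.map '' closure U) Z → C1 ≤ mass f N Z →
      ∃ A : M3, Near r A ∧ Jf f N (Psf f Λ m N) Z ≤ Tf f Λ m N (fun z => mv A (Z z)) + C1 + C1 * (1 + Λ) * (m + 1) * (mass f N Z) ^ (-(1 / 2) : ℝ)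

/-- Row VNM (medium; from UN1 RAD DMS VFK VNE VIT VSA VSP): near-maximal discs. Proof: `VFK` with `X = ℕ × (ℂ → E3)`, `Cl = Cls f Us` (monotone: `Us` decreases), `K0` of `VNE`, `S m (N,Z) = (N - m, It f m ∘ Z)` (`VIT`), `φ m (N,Z) = Jf f N (Psf f Λ m N) Z` (bounded by `(C+Λ)(m+1)`, constants of `VSA` for `Us 0`; for `m = 0` the class allows mass `0`:
then `Jf = 0` since `x/0 = 0`; subadditive by `VSA` and `VIT`: `Jf f (N-m) Ψ (It f m ∘ Z) = Jf f N (Ψ ∘ It f m) Z`, monotonicity of the integral with `η² tau ≥ 0`). First part: (U). Second part: given `ε`, `J` let `r` be the radius of `RAD` for `Us J`, `C₁` of `VSP`, `τ` of (L) for `ε/2`. For `L ≥ L1` and `M' ≥ M + 1` huge (depends on `L`) take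
`(N₀,Z₀) ∈ Cls f Us J (Kb-τ) M'` with `φ (L+1) ≥ (L+1)(a-ε/2) - C`; `φ (L+1) (N₀,Z₀) ≤ φ 1 (N₀,Z₀) + φ L (N₀-1, F∘Z₀) + C`, so for `N = N₀ - 1`, `Y = F∘Z₀`, a disc in `f(closure (Us J))`, `Jf f N (Psf f Λ L N) Y ≥ L(a-ε/2) - C'`. `VSP`: `A` near `r` with `Tf f Λ L N (AY) ≥ L(a-ε/2) - C'' ≥ L(a-ε)`. The pair `(N, AY)` is in
`Cls f Us J Kb M`: `|un f N (AY z) - un f N (Y z)| ≤ C` (`UN1`, `RAD`), `|mass(AY) - mass(Y)| ≤ C` (`DMS`), so `|un f N (AY z)| ≤ (Kb-τ) mass(Y) + C ≤ Kb mass(AY)` as the mass is large. -/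
def VNM_stmt : Prop :=
  ∀ (d : ℕ) (f : Endo 2 d) (Us : ℕ → Set (PP 2)) (K : Set (PP 2)) (Λ : ℝ), 2 ≤ d → Core f Us K → 0 ≤ Λ → ∃ Kb a : ℝ, 0 < Kb ∧
    (∀ ε : ℝ, 0 < ε → ∃ (J0 m0 : ℕ) (τ : ℝ), 0 < τ ∧ 1 ≤ m0 ∧ ∀ m ≥ m0, ∃ M : ℕ, ∀ (N : ℕ) (Z : ℂ → E3), (N, Z) ∈ Cls f Us J0 (Kb + τ) M → Jf f N (Psf f Λ m N) Z ≤ m * (a + ε)) ∧
    (∀ ε : ℝ, 0 < ε → ∀ J : ℕ, ∃ L1 : ℕ, ∀ L ≥ L1, ∀ M : ℕ, ∃ (N : ℕ) (Z : ℂ → E3), (N, Z) ∈ Cls f Us J Kb M ∧ L * (a - ε) ≤ Tf f Λ L N Z)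

/-! ### Two-sided inequalities with a kernel -/

/-- Row VC2 (medium: adapt helper90's `CORE_step`, whose identity `h10` is two-sided; from IBP LHM). Proof: `IBP` on `ball 0 (4r) × ball 0 R` for `κ(s,z) = K(s) η(z)²`, `A = Ψ`; multiply by `w/(2D)`: the main terms are exactly the three terms of the statement, and the two error terms are bounded as in `CORE` (the mass hypothesis has the
constant `M` instead of `2`, the sign of `lev Ψ` is not used). -/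
def VC2_stmt : Prop :=
  ∀ C0 α M R : ℝ, 0 < C0 → 0 < α → α ≤ 1 → 0 < M → 0 < R → ∀ η : ℂ → ℝ, ContDiff ℝ ∞ η → tsupport η ⊆ ball 0 R →
    ∃ C1 : ℝ, 0 < C1 ∧ ∀ (r δ D w B : ℝ) (K : ℂ → ℝ) (P Q : ℂ × ℂ → ℂ) (Ψ : ℂ × ℂ → ℝ), 0 < r → r ≤ 1 → 0 < δ → δ ≤ r / 8 → Kr r δ K → 0 < D → 0 < w → 0 ≤ B →
      DifferentiableOn ℂ P (ball 0 (4 * r) ×ˢ ball 0 R) → DifferentiableOn ℂ Q (ball 0 (4 * r) ×ˢ ball 0 R) →
      (∀ p ∈ ball (0 : ℂ) (4 * r) ×ˢ ball (0 : ℂ) R, P p ≠ 0 ∨ Q p ≠ 0) →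
      (∀ s ∈ ball (0 : ℂ) (4 * r), ∀ s' ∈ ball (0 : ℂ) (4 * r), ∀ z ∈ ball (0 : ℂ) R, |uu P Q D (s, z) - uu P Q D (s', z)| ≤ C0 * ‖s - s'‖ ^ α) →
      (∀ s ∈ ball (0 : ℂ) r, w * ∫ z, η z ^ 2 * ta P Q D (s, z) ≤ M) →
      ContDiffOn ℝ ∞ Ψ (ball 0 (4 * r) ×ˢ ball 0 R) → (∀ p ∈ ball (0 : ℂ) (4 * r) ×ˢ ball (0 : ℂ) R, |Ψ p| ≤ B) →
      |(∫ s, phr r s * (w * ∫ z, η z ^ 2 * (Ψ (s, z) * ta P Q D (s, z)))) - (∫ s, phr δ s * (w * ∫ z, η z ^ 2 * (Ψ (s, z) * ta P Q D (s, z)))) -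
        ∫ s, K s * (w * ∫ z, η z ^ 2 * (lev Ψ (s, z) (ev P Q (s, z)) * om P Q (s, z) / (2 * D)))| ≤ C1 * B * (w * r ^ α + (w * r ^ α) ^ (1 / 2 : ℝ))

/-- Row VGL (medium: adapt helper60's `DCO`; from VC2 CHN UNH UN1 MSS DMS RAD): the global version, for the translates of a disc. Proof: as `DCO` with `A = one3`, `(i,j) = (2, ι)`: `VC2` with radius `r/8`, `R = 1`, `M = 2`, `η = eta`, `w = 1/mass f N Z`, `D = d^N`; `w ∫ η² Ψ tau(A_v Z) = Jf(A_v Z) mass(A_v Z)/mass(Z)` differs from `Jf` by at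
most `B C/mass` (`DMS`) and `∫ phr = 1`; `lev·om/(2D) = en` (`CHN`), as in `DCO`. -/
def VGL_stmt : Prop :=
  ∀ (d : ℕ) (f : Endo 2 d) (U : Set (PP 2)) (r : ℝ), 2 ≤ d → Good0 f U → 0 < r → r ≤ 1 / 100 → Rad r (f.map '' closure U) U → ∃ C1 : ℝ, 1 ≤ C1 ∧
    ∀ (N : ℕ) (Ψ : E3 → ℝ) (B δ : ℝ) (K : ℂ → ℝ) (Z : ℂ → E3) (ι : Fin 2), Adm f U N Ψ B → 1 ≤ B → Dsc (f.map '' closure U) Z → C1 ≤ mass f N Z → 0 < δ → δ ≤ r / 64 → Kr (r / 8) δ K →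
      |(∫ v, phr (r / 8) v * Jf f N Ψ (Av ι v Z)) - (∫ v, phr δ v * Jf f N Ψ (Av ι v Z)) - (mass f N Z)⁻¹ * ∫ v, K v * ∫ z, eta z ^ 2 * Gn f N Ψ ι v Z z| ≤ C1 * B * (mass f N Z) ^ (-(1 / 2) : ℝ)

/-- Row VJA (medium; from UN1 MAU CHN): laws on the translates of a graph. `gt f N ι c κ γ (ξ,v) = ta1 = (1/2)|w1|² om/D ≥ 0` is continuous on the tube (`pq (It f N (gp ..)) > 0` by `UN1`), and it is `lap` in `ξ` of `u_N(gp ι c κ γ (ξ,v))` (`MAU` second part with `a = (1,0)`, `CHN` third part). So `∫ η² gt(ξ,v) dξ = ∫ lap(η²) u_N(gp(ξ,v)) dξ ≤ C`: on the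
cone of `U` `nq W ≤ C (|W_0|²+|W_1|²)` (`UN1` third part for `n = 0`, or compactness), so `1 ≤ nq (gp ..) ≤ C'` (`‖c‖ ≤ 2`, `κ ≤ 1/10`) and `|u_N(gp ..)| ≤ C''` by `UN1`. Third part: dominated convergence / continuity of a parameter integral, the integrand is continuous with support in `‖ξ‖ ≤ 4/5` (`continuous_parametric_integral_of_continuous`
or helper90's `CORE` lemmas; `eta ξ = 0` for `‖ξ‖² ≥ 5/8`). Last part: `|γ| ≤ C` on the ball, Cauchy. -/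
def VJA_stmt : Prop :=
  ∀ (d : ℕ) (f : Endo 2 d) (U : Set (PP 2)), 2 ≤ d → Good0 f U → ∃ C : ℝ, 1 ≤ C ∧ ∀ (N : ℕ) (r κ : ℝ) (ι : Fin 2) (c : ℂ) (γ : ℂ → ℂ), 0 < r → r ≤ 1 / 4 → 0 < κ → κ ≤ 1 / 10 → ‖c‖ ≤ 2 →
    DifferentiableOn ℂ γ (ball 0 1) → (∀ ξ ∈ ball (0 : ℂ) 1, ∀ v ∈ ball (0 : ℂ) r, gp ι c κ γ (ξ, v) ∈ cone U) →
    (∀ p, 0 ≤ gt f N ι c κ γ p) ∧ ContinuousOn (gt f N ι c κ γ) (ball 0 1 ×ˢ ball 0 r) ∧ (∀ v ∈ ball (0 : ℂ) r, Ja f N (fun _ => 1) ι c κ γ v ≤ C) ∧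
    (∀ Θ : ℂ × ℂ → ℝ, ContinuousOn Θ (ball 0 (9 / 10) ×ˢ ball 0 r) → ContinuousOn (Ja f N Θ ι c κ γ) (ball 0 r) ∧
      ∀ v ∈ ball (0 : ℂ) r, Integrable (fun ξ => eta ξ ^ 2 * (Θ (ξ, v) * gt f N ι c κ γ (ξ, v)))) ∧
    (∀ p ∈ ball (0 : ℂ) 1 ×ˢ ball (0 : ℂ) r, 1 ≤ nq (gp ι c κ γ p) ∧ nq (gp ι c κ γ p) ≤ C) ∧ ∀ ξ ∈ ball (0 : ℂ) (9 / 10), ‖deriv γ ξ‖ ≤ C

/-- Row VJB (short to medium; from UN1): continuity of the energies in the tube. Proof: `gP`, `gQ`, `w1`, `w2` are holomorphic on the tube, `om` is smooth (`pq > 0` by `UN1`), `p ↦ lev Θ p (e p)` is continuous for smooth `Θ` and continuous `e` (helper90's `CORE_levcont` in `COREd.lean`); `eta` has support in `‖ξ‖² ≤ 5/8`; parameter integral of a continuous function with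
compact support in `ξ`. -/
def VJB_stmt : Prop :=
  ∀ (d : ℕ) (f : Endo 2 d) (U : Set (PP 2)), 2 ≤ d → Good0 f U → ∀ (N : ℕ) (r κ : ℝ) (ι : Fin 2) (c : ℂ) (γ : ℂ → ℂ) (Θ : ℂ × ℂ → ℝ), 0 < r →
    DifferentiableOn ℂ γ (ball 0 1) → (∀ ξ ∈ ball (0 : ℂ) 1, ∀ v ∈ ball (0 : ℂ) r, gp ι c κ γ (ξ, v) ∈ cone U) → ContDiffOn ℝ ∞ Θ (ball 0 (9 / 10) ×ˢ ball 0 r) →
    ContinuousOn (fun v => ∫ ξ, eta ξ ^ 2 * Ge f N Θ ι c κ γ (ξ, v)) (ball 0 r) ∧ ∀ v ∈ ball (0 : ℂ) r, Integrable (fun ξ => eta ξ ^ 2 * Ge f N Θ ι c κ γ (ξ, v))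

/-- Row VCJ (medium; from UN1): continuity in `v` of the integrals over the translates of a disc. Proof: the integrands are continuous functions of `(v,z)` on `ball 0 r × ball 0 1` (`Av ι v Y z` is polynomial in `v`, `Y`; `pq (It f N _) > 0` on the cone of `U` by `UN1`; `deriv Y` is continuous; `lev Ψ` with a continuous vector: helper90's `CORE_levcont` after composing with
`(v,z) ↦ Av ι v Y z`, or directly from second derivatives of `Ψ`, `cone U` is open; see `DCO_ta_cont` in helper60's `DCO.lean`), with support in `‖z‖² ≤ 5/8`. -/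
def VCJ_stmt : Prop :=
  ∀ (d : ℕ) (f : Endo 2 d) (U : Set (PP 2)), 2 ≤ d → Good0 f U → ∀ (N : ℕ) (Ψ : E3 → ℝ) (B r : ℝ) (Y : ℂ → E3) (ι : Fin 2), Adm f U N Ψ B → 0 < r → DifferentiableOn ℂ Y (ball 0 1) →
    (∀ v ∈ ball (0 : ℂ) r, ∀ z ∈ ball (0 : ℂ) 1, Av ι v Y z ∈ cone U) →
    ContinuousOn (fun v => mass f N (Av ι v Y)) (ball 0 r) ∧ ContinuousOn (fun v => ∫ z, eta z ^ 2 * (Ψ (Av ι v Y z) * tau f N (Av ι v Y) z)) (ball 0 r) ∧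
    ContinuousOn (fun v => ∫ z, eta z ^ 2 * Gn f N Ψ ι v Y z) (ball 0 r) ∧
    ∀ v ∈ ball (0 : ℂ) r, Integrable (fun z => eta z ^ 2 * tau f N (Av ι v Y) z) ∧ Integrable (fun z => eta z ^ 2 * (Ψ (Av ι v Y z) * tau f N (Av ι v Y) z)) ∧ Integrable (fun z => eta z ^ 2 * Gn f N Ψ ι v Y z)

/-- Row VLC (medium; from UN1 UNH VC2 VJA): the local version, in the tube of a graph. Proof: `VC2` with the coordinates exchanged (`P(v,ξ) = gP (ξ,v)`, `Ψ(v,ξ) = Θ (ξ,v)`), `R = 9/10`, `η = eta` (support in `‖ξ‖² ≤ 5/8`), `w = 1`, `D = d^N`, `M = C` of `VJA`: `ta` of the exchanged functions is `gt`, the vector `ev` becomes `-ev` exchanged (`lev` is even in the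
vector), `om` is the same. Hoelder: `UNH` for `gp(ξ,v)`, `gp(ξ,v')`: the difference has norm `‖v-v'‖ ≤ 1/2` and `‖gp‖ ≥ 1`. Error `C B (r^α + r^(α/2)) ≤ C' B r^(α/2)`. -/
def VLC_stmt : Prop :=
  ∀ (d : ℕ) (f : Endo 2 d) (U : Set (PP 2)), 2 ≤ d → Good0 f U → ∃ C1 α : ℝ, 1 ≤ C1 ∧ 0 < α ∧ α ≤ 1 ∧
    ∀ (r δ κ B : ℝ) (K : ℂ → ℝ) (N : ℕ) (ι : Fin 2) (c : ℂ) (γ : ℂ → ℂ) (Θ : ℂ × ℂ → ℝ), 0 < r → r ≤ 1 / 16 → 0 < δ → δ ≤ r / 8 → Kr r δ K → 0 < κ → κ ≤ 1 / 10 → ‖c‖ ≤ 2 → 0 ≤ B →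
      DifferentiableOn ℂ γ (ball 0 1) → (∀ ξ ∈ ball (0 : ℂ) 1, ∀ v ∈ ball (0 : ℂ) (4 * r), gp ι c κ γ (ξ, v) ∈ cone U) →
      ContDiffOn ℝ ∞ Θ (ball 0 (9 / 10) ×ˢ ball 0 (4 * r)) → (∀ p ∈ ball (0 : ℂ) (9 / 10) ×ˢ ball (0 : ℂ) (4 * r), |Θ p| ≤ B) →
      |(∫ v, phr r v * Ja f N Θ ι c κ γ v) - (∫ v, phr δ v * Ja f N Θ ι c κ γ v) - ∫ v, K v * ∫ ξ, eta ξ ^ 2 * Ge f N Θ ι c κ γ (ξ, v)| ≤ C1 * B * r ^ α

/-! ### Islands -/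

/-- Row VTR (medium to long; from CHN ENC): translation between the disc and the tube. Proof. `a(ξ) = Y_ι(g ξ)` is holomorphic, `≠ 0` (component `ι` of `gp` is `1`), and `(Y_(1-ι)/Y_ι)(g ξ) = c + κξ`, so `g` is injective and `g' ≠ 0`. `Av ι v Y (g ξ) = a gp(ξ,v)` (`mv (adE one3 2 ι v)` adds `v Z_ι` to `Z_2`). (3): `P_N(aW) = a^D P_N(W)`, `D = d^N`; with
`P = P_N(Av ι v Y (g ξ)) = a^D gP(ξ,v)` as functions of `ξ`: `P'Q - Q'P = a^(2D) w1(gP,gQ)(ξ,v)` up to sign and the left side is `g'(ξ)` times the expression in `tau` at `g ξ`; `pq(..)² = |a|^(4D) (|gP|²+|gQ|²)²`. (4): with `X = Pi.single 2 (Y_ι(gξ)) = a ∂_v gp`, `X' = mv(adE ..) Y'(gξ)`, `g' X' = a' gp + a ∂_ξ gp`: `cc f N (aW) (X) = a^(2D-1) cc f N W X`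
(homogeneity), `cc f N W W = 0` (Euler), `cc(gp)(∂_v gp) = w2`, `cc(gp)(∂_ξ gp) = w1` (chain rule), so `g' (cc X • X' - cc X' • X) = a^(2D+1) (w2 ∂_ξ gp - w1 ∂_v gp) + (..) gp = -a^(2D+1) Dgp(ev) + (..) gp`; `lev Ψ (aW) (aE) = lev Ψ W E` and `lev Ψ W (E + tW) = lev Ψ W E` for `Ψ` homogeneous of degree `0` (helper80's `ENC.lean`), `lev` is `|·|²`-homogeneous
in the vector, and `lev Ψ (gp p) (Dgp e) = lev (Ψ∘gp) p e` (`CHN`, or the file of `CHN`). -/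
def VTR_stmt : Prop :=
  ∀ (d : ℕ) (f : Endo 2 d) (U : Set (PP 2)), 2 ≤ d → Good0 f U → ∀ (N : ℕ) (r κ : ℝ) (Y : ℂ → E3) (ι : Fin 2) (c : ℂ) (g γ : ℂ → ℂ), 0 < r → 0 < κ → DifferentiableOn ℂ Y (ball 0 1) →
    (∀ v ∈ ball (0 : ℂ) r, ∀ z ∈ ball (0 : ℂ) 1, Av ι v Y z ∈ cone U) → Is0 Y ι c κ g γ →
    InjOn g (ball 0 1) ∧ (∀ ξ ∈ ball (0 : ℂ) 1, deriv g ξ ≠ 0) ∧
    ∀ ξ ∈ ball (0 : ℂ) 1, ∀ v ∈ ball (0 : ℂ) r, gp ι c κ γ (ξ, v) ∈ cone U ∧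
      tau f N (Av ι v Y) (g ξ) * Complex.normSq (deriv g ξ) = gt f N ι c κ γ (ξ, v) ∧
      ∀ (Ψ : E3 → ℝ) (B : ℝ), Adm f U N Ψ B → Ψ (Av ι v Y (g ξ)) = Ψ (gp ι c κ γ (ξ, v)) ∧ 0 ≤ Gn f N Ψ ι v Y (g ξ) ∧
        Gn f N Ψ ι v Y (g ξ) * Complex.normSq (deriv g ξ) = Ge f N (fun p => Ψ (gp ι c κ γ p)) ι c κ γ (ξ, v)

/-- Row VCP (medium; from UN1 VSA VJA): comparison on an island. `D := d^m`, `T : X ↦ It f m (gp p) × D(It f m)_(gp p) X`, `X₁ = ∂_ξ gp = κ e_(1-ι) + γ'(ξ) e_2`, `X₂ = ∂_v gp = e_2` (chain rule: `fderiv (It f m ∘ gp) p (1,0) = D(It f m)(X₁)`). By `UN1` `|(1/2) log nq (It f m W) - d^m un f N W| ≤ 2C` for `m ≤ N`, so `e^(4 d^m u_N)` and `nq(It f m W)²` are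
comparable, and `1 ≤ nq (gp p) ≤ C`, `‖γ'‖ ≤ C` (`VJA`). (1) `Th` is smooth: holomorphic functions and `u_N∘gp` (`pq > 0`). (2) `|TX_1|² ≤ C ∑|Te_i|²`, so `|TX_1|² e^(-4 d^m u) ≤ C hop`, `Th ≤ Psf + C ≤ (C+Λ)(m+1) + C`, `Th ≥ -Λm`. (3) `Lf ≥ 0`: `Af ≥ 0`. `Af(1,0) + Af(0,1) ≤ C hop`, so its truncated logarithm is `≤ Psf + C`, and
`|TX_1|² e^(-4 d^m u) ≤ C Af(1,0)`, so `Th ≤ log(Af(1,0) + e^(-Λm)) + C`. (4) `nq (crs gp X₁) ≥ κ²` (the component `1·κ`), `e^(4u_N(gp)) ≤ C`: `Rv ≤ (C/κ²) |TX_1|² e^(-4 d^m u)`. For the disc: `Y(gξ) = a gp(ξ,0)`, `g' Y'(gξ) = a' gp + a X₁`, and `pv` is invariant under `(W,V) ↦ (aW, bV + tW)`, `a, b ≠ 0` (`g' ≠ 0`, as in `VTR`). -/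
def VCP_stmt : Prop :=
  ∀ (d : ℕ) (f : Endo 2 d) (U : Set (PP 2)) (κ : ℝ), 2 ≤ d → Good0 f U → 0 < κ → κ ≤ 1 / 10 → ∃ C : ℝ, 1 ≤ C ∧ ∀ (Λ : ℝ) (m N : ℕ) (r : ℝ) (ι : Fin 2) (c : ℂ) (γ : ℂ → ℂ), 0 ≤ Λ → m ≤ N → 0 < r → r ≤ 1 / 4 → ‖c‖ ≤ 2 →
    DifferentiableOn ℂ γ (ball 0 1) → (∀ ξ ∈ ball (0 : ℂ) 1, ∀ v ∈ ball (0 : ℂ) r, gp ι c κ γ (ξ, v) ∈ cone U) →
    ContDiffOn ℝ ∞ (Th f Λ m N ι c κ γ) (ball 0 (9 / 10) ×ˢ ball 0 r) ∧ ContinuousOn (Lf f m (Λ * m) ι c κ γ) (ball 0 (9 / 10) ×ˢ ball 0 r) ∧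
    (∀ p ∈ ball (0 : ℂ) (9 / 10) ×ˢ ball (0 : ℂ) r, |Th f Λ m N ι c κ γ p| ≤ (C + Λ) * (m + 1) ∧ 0 ≤ Lf f m (Λ * m) ι c κ γ p ∧
      Lf f m (Λ * m) ι c κ γ p ≤ Psf f Λ m N (gp ι c κ γ p) - Th f Λ m N ι c κ γ p + C) ∧
    ∀ (Y : ℂ → E3) (g : ℂ → ℂ), DifferentiableOn ℂ Y (ball 0 1) → Is0 Y ι c κ g γ → ∀ ξ ∈ ball (0 : ℂ) (9 / 10), pv f Λ m N (Y (g ξ)) (deriv Y (g ξ)) ≤ Th f Λ m N ι c κ γ (ξ, 0) + C

/-- Row VGT (medium; from UN1 MAU LSE): `Th` has a nonnegative Levi form along the sheets. Proof: at `p` with `e = ev gP gQ p`, on the line `p + te`: `G(t) = It f m (gp) × ∂_ξ(It f m ∘ gp)` is holomorphic near `t = 0`, `u(t) = un f N (gp(p+te)) = uu gP gQ (d^N) (p+te)`, `2B = -Λm + 4 d^m u`; `lap u 0 = lev (uu ..) p e = 0` (`MAU`, third part), so `lap B 0 = 0`;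
`Th = log(nq G + e^(2B)) - 4 d^m u`, and `LSE` (on a small ball of `t`) gives `lap (log ..) 0 ≥ 0` (linearity of `lap` for functions which are `C²` near `0`). `om ≥ 0`. -/
def VGT_stmt : Prop :=
  ∀ (d : ℕ) (f : Endo 2 d) (U : Set (PP 2)), 2 ≤ d → Good0 f U → ∀ (Λ κ r : ℝ) (m N : ℕ) (ι : Fin 2) (c : ℂ) (γ : ℂ → ℂ), 0 < r → DifferentiableOn ℂ γ (ball 0 1) →
    (∀ ξ ∈ ball (0 : ℂ) 1, ∀ v ∈ ball (0 : ℂ) r, gp ι c κ γ (ξ, v) ∈ cone U) → ∀ p ∈ ball (0 : ℂ) 1 ×ˢ ball (0 : ℂ) r, 0 ≤ Ge f N (Th f Λ m N ι c κ γ) ι c κ γ p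

/-- Row VWT (medium to long; from UN1 MSS VDS): weights. Proof. `W_a = min {eta (g_a ξ)² : ‖ξ‖ ≤ 4/5}` (compactness). If `eta (g_a 0) = 0` then `W_a = 0`. Let `I` be the set of the other islands, `‖g_a 0‖² < 5/8`. (1) `#I ≤ C_κ (H+1)`: by Schwarz-Pick (or: `‖g_a ξ - g_a 0‖ ≤ 2‖ξ‖` by Schwarz for `(g_a ξ - g_a 0)/2`, so for `‖ξ‖ < 1/50` it is `≤ 1/25`)
`g_a(ball 0 (1/50)) ⊆ ball 0 (17/20)`. The density `t(z) = lap(un f 0 (Y)) z = tau f 0 Y z = (1/2)|Y_1 Y_0' - Y_0 Y_1'|²/pq(Y)² ` satisfies `t(g_a ξ) |g_a'|² = (1/2) κ²/(1+|c+κξ|²)² ≥ κ²/100` (`‖c + κξ‖ ≤ 2.1`), so by `VDS` (with `G = t` times the indicator of `ball 0 (17/20)`) `#I · κ² π/(100·2500) ≤ ∫_(ball 0 (17/20)) t ≤ ∫ χ t = ∫ lap χ · un f 0 (Y) ≤ C (H + C)`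
(`MSS` with a cut-off `χ ≥ 0`, `χ = 1` on this ball; `|un f N - un f 0| ≤ C` by `UN1`). As `eta ≤ 1`: `∑ W_a ≤ #I`. (2) `|g_a'(ξ)|² ≤ C ∫_(ball 0 (9/10)) |g_a'|² =: C A_a` for `‖ξ‖ ≤ 4/5` (mean value property of `g_a'` and Cauchy-Schwarz), so `‖g_a ξ - g_a 0‖ ≤ C A_a^(1/2)` and `eta(g_a 0)² - W_a ≤ C A_a^(1/2)` (`eta²` is Lipschitz);
`∑_(a∈I) A_a^(1/2) ≤ (#I)^(1/2) (∑ A_a)^(1/2) ≤ C (H+1)^(1/2)`, since `∑ A_a ≤ π` (`VDS` with `G = 1`). Injectivity of `g_a`: `(Y_(1-ι)/Y_ι)(g ξ) = c + κξ`. -/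
def VWT_stmt : Prop :=
  ∀ (d : ℕ) (f : Endo 2 d) (U : Set (PP 2)) (κ : ℝ), 2 ≤ d → Good0 f U → 0 < κ → κ ≤ 1 / 10 → ∃ C : ℝ, 1 ≤ C ∧ ∀ (N : ℕ) (Y : ℂ → E3) (H : ℝ) (n : ℕ) (A : Fin n → ID), Dsc U Y → 0 ≤ H →
    (∀ z ∈ ball (0 : ℂ) 1, |un f N (Y z)| ≤ H) → Fam Y κ A → ∃ W : Fin n → ℝ, Wgt A W ∧ (∀ a, W a ≤ eta ((A a).g 0) ^ 2) ∧ ∑ a, W a ≤ C * (H + 1) ∧
      ∑ a, (eta ((A a).g 0) ^ 2 - W a) ≤ C * (H + 1) ^ (1 / 2 : ℝ)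

/-- Row VEN (medium; from ENC VTR VDS VCJ VJB): comparison of the energies. Proof: for fixed `v ∈ ball 0 (2s)`: `G(z) = eta z² Gn(z) ≥ 0` (`VTR` shows it on the islands; in general `ENC`: `en = |det|² ed ≥ 0`), `VDS`: `∑_a ∫ G(g_a ξ)|g_a'|² ≤ ∫ G`, and `W_a eta ξ² Ge(ξ,v) = W_a eta ξ² Gn(g_a ξ)|g_a'|² ≤ eta(g_a ξ)² Gn(g_a ξ)|g_a'|²` (`eta ξ = 0` for `‖ξ‖ > 4/5`).
Multiply by `K v ≥ 0` and integrate in `v`: both sides are integrals of continuous functions of `v ∈ ball 0 (16 s)` (`VCJ`, `VJB`) times `K`, which is `0` for `‖v‖ ≥ 2s`. `Gn ≥ 0` on the whole ball: `ENC`. -/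
def VEN_stmt : Prop :=
  ∀ (d : ℕ) (f : Endo 2 d) (U : Set (PP 2)), 2 ≤ d → Good0 f U → ∀ (N : ℕ) (Ψ : E3 → ℝ) (B s κ : ℝ) (Y : ℂ → E3) (ι : Fin 2) (n : ℕ) (A : Fin n → ID) (W : Fin n → ℝ) (K : ℂ → ℝ), Adm f U N Ψ B → 0 < s → 0 < κ →
    DifferentiableOn ℂ Y (ball 0 1) → (∀ v ∈ ball (0 : ℂ) (16 * s), ∀ z ∈ ball (0 : ℂ) 1, Av ι v Y z ∈ cone U) → (∀ a, (A a).ι = ι) → Fam Y κ A → Wgt A W →
    Continuous K → (∀ v, 0 ≤ K v) → (∀ v, 2 * s ≤ ‖v‖ → K v = 0) →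
    ∑ a, W a * (∫ v, K v * ∫ ξ, eta ξ ^ 2 * Ge f N (fun p => Ψ (gp ι (A a).c κ (A a).γ p)) ι (A a).c κ (A a).γ (ξ, v)) ≤ ∫ v, K v * ∫ z, eta z ^ 2 * Gn f N Ψ ι v Y z

/-- Row VST (medium; from UN1 VSA VAD VTR VDS VCP VJA): static comparison. Proof: `Φ(z) = Psf(Y z) - pv(Y z)(Y' z) + C ≥ 0` (`VSA`). On an island `Psf(gp(ξ,0)) = Psf(Y(g ξ))` (`VTR` with `v = 0`, `Av ι 0 Y = Y`; `VAD`), `Psf(gp(ξ,0)) - Th(ξ,0) ≤ Φ(g_a ξ) + C_κ` (`VCP`), `gt(ξ,0) = tau f N Y (g_a ξ)|g_a'|²` (`VTR`). So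
`W_a (Ja(Psf∘gp)(0) - Ja(Th)(0)) ≤ ∫ W_a eta ξ² (Φ(g_a ξ) + C_κ) tau(g_a ξ)|g_a'|² ≤ ∫_(ball) eta(g_a ξ)² (Φ + C_κ)(g_a ξ) tau(g_a ξ) |g_a'|²`; sum with `VDS` (`G = eta² (Φ + C_κ) tau`, bounded measurable with compact support): `≤ ∫ eta² (Φ + C_κ) tau = mass (Jf - Tf + C + C_κ)`. The last part: the same with `G = eta² tau`. -/
def VST_stmt : Prop :=
  ∀ (d : ℕ) (f : Endo 2 d) (U : Set (PP 2)) (κ : ℝ), 2 ≤ d → Good0 f U → 0 < κ → κ ≤ 1 / 10 → ∃ C : ℝ, 1 ≤ C ∧ ∀ (Λ s : ℝ) (m N : ℕ) (Y : ℂ → E3) (ι : Fin 2) (n : ℕ) (A : Fin n → ID) (W : Fin n → ℝ), 0 ≤ Λ → 0 < s → 16 * s ≤ 1 / 4 → m ≤ N →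
    DifferentiableOn ℂ Y (ball 0 1) → (∀ v ∈ ball (0 : ℂ) (16 * s), ∀ z ∈ ball (0 : ℂ) 1, Av ι v Y z ∈ cone U) → 0 < mass f N Y → (∀ a, (A a).ι = ι) → Fam Y κ A → Wgt A W →
    ∑ a, W a * Dj f Λ m N ι (A a).c κ (A a).γ 0 ≤
      mass f N Y * (Jf f N (Psf f Λ m N) Y - Tf f Λ m N Y + C)

/-- Row VQL (short to medium; from VPH VAD VJA VCP): `QR` and the averages. Proof: `QR = s⁻² ∫_(‖v‖<s) Ja(Lf)(v) dv`, with `Ja(Lf) ≥ 0` continuous, so `QR ≤ 2π ∫ phr(2s) Ja(Lf)` (`VPH`: `s⁻² ≤ 2π phr (2s) v`), and `Ja(Lf) ≤ Ja(Psf∘gp) - Ja(Th) + C Ja(1)`, `∫ phr(2s) Ja(1) ≤ C`. Second part: `0 ≤ Lf ≤ C(1+Λ)(m+1)`. Third part: enlarge the domain of `v` (the function is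
continuous on `ball 0 (16 s)` and bounded, nonnegative, so integrable on the smaller balls). -/
def VQL_stmt : Prop :=
  ∀ (d : ℕ) (f : Endo 2 d) (U : Set (PP 2)) (κ : ℝ), 2 ≤ d → Good0 f U → 0 < κ → κ ≤ 1 / 10 → ∃ C : ℝ, 1 ≤ C ∧ ∀ (Λ s : ℝ) (m N : ℕ) (ι : Fin 2) (c : ℂ) (γ : ℂ → ℂ), 0 ≤ Λ → 0 < s → 16 * s ≤ 1 / 4 → m ≤ N → ‖c‖ ≤ 2 →
    DifferentiableOn ℂ γ (ball 0 1) → (∀ ξ ∈ ball (0 : ℂ) 1, ∀ v ∈ ball (0 : ℂ) (16 * s), gp ι c κ γ (ξ, v) ∈ cone U) →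
    QR f m (Λ * m) s N ι c κ γ ≤ 2 * Real.pi * (∫ v, phr (2 * s) v * Dj f Λ m N ι c κ γ v) + C ∧
    0 ≤ QR f m (Λ * m) s N ι c κ γ ∧ QR f m (Λ * m) s N ι c κ γ ≤ C * (1 + Λ) * (m + 1) ∧
    ∀ s' : ℝ, 0 < s' → s' ≤ s → s ≤ 2 * s' → QR f m (Λ * m) s' N ι c κ γ ≤ 4 * QR f m (Λ * m) s N ι c κ γ

/-- Row VP1 (medium; from RAD VPH VAD VGL VLC VJA VTR VCP VGT VEN): the inequality at a fixed scale `δ`. `Ψ = Psf f Λ m N`, `B = C(1+Λ)(m+1)`, `Θ_a = Psf∘gp_a`. Proof: `K` = the kernel. `VLC` (radius `2s`) for `Θ_a` and for `Th_a`, with `Ge(Th_a) ≥ 0` (`VGT`), `K ≥ 0`: `∫ phr(2s) (Ja(Θ_a) - Ja(Th_a)) ≤ ∫ phr δ (Ja(Θ_a) - Ja(Th_a)) + ∫ K ∫ η² Ge(Θ_a) + 2 C₁ B (2s)^α`. Multiply by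
`W_a`, sum, `VEN`: `∑ W_a ∫ K ∫ η² Ge(Θ_a) ≤ ∫ K ∫ η² Gn`, and this is `≤ mass (∫ phr(2s) Jf(A_v Y) - ∫ phr δ Jf(A_v Y) + C₂ B mass^(-1/2))` (`VGL` with `r = 16 s`, `Rad (16 s)` by monotonicity; `A_v Y` is in `U` for `‖v‖ < 16 s`: `RAD`). The tube of every island is in the cone of `U` (`VTR`). -/
def VP1_stmt : Prop :=
  ∀ (d : ℕ) (f : Endo 2 d) (U : Set (PP 2)) (r κ Λ : ℝ), 2 ≤ d → Good0 f U → 0 < r → r ≤ 1 / 100 → Rad r (f.map '' closure U) U → 0 < κ → κ ≤ 1 / 10 → 0 ≤ Λ → ∃ C1 α : ℝ, 1 ≤ C1 ∧ 0 < α ∧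
    ∀ s : ℝ, 0 < s → 16 * s ≤ r → ∃ C2 : ℝ, 1 ≤ C2 ∧ ∀ (m N : ℕ) (Y : ℂ → E3) (ι : Fin 2) (n : ℕ) (A : Fin n → ID) (W : Fin n → ℝ) (δ : ℝ) (K : ℂ → ℝ), m ≤ N → Dsc (f.map '' closure U) Y → C2 ≤ mass f N Y →
      (∀ a, (A a).ι = ι) → Fam Y κ A → Wgt A W → 0 < δ → δ ≤ s / 4 → Kr (2 * s) δ K →
      ∑ a, W a * (∫ v, phr (2 * s) v * Dj f Λ m N ι (A a).c κ (A a).γ v) ≤
        (∑ a, W a * (∫ v, phr δ v * Dj f Λ m N ι (A a).c κ (A a).γ v)) +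
        mass f N Y * ((∫ v, phr (2 * s) v * Jf f N (Psf f Λ m N) (Av ι v Y)) - (∫ v, phr δ v * Jf f N (Psf f Λ m N) (Av ι v Y))) +
        C1 * (m + 1) * s ^ α * (∑ a, W a) + C2 * (m + 1) * (mass f N Y) ^ (1 / 2 : ℝ)

/-- Row VP2 (medium; from KER RAD DMS VPH VCJ VAD VJA VCP VTR VP1): `δ → 0`. Proof: kernels exist for `δ ≤ s/4` (`KER` with `r = 2s`). The functions `v ↦ Jf f N Ψ (A_v Y)` (`VCJ`, quotient of continuous functions; the masses are `≥ mass(Y) - C > 0` for all `‖v‖ < 16 s` by `DMS`) and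
`Ja(Psf∘gp)`, `Ja(Th)` (`VJA`) are continuous on `ball 0 (16 s)`, so `∫ phr δ (..) → (..)(0)` (`VPH`); `Av ι 0 Y = Y`; and `∫ phr(2s) Jf(A_v Y) ≤ b` as `∫ phr = 1` and `phr (2s) v = 0` for `‖v‖ ≥ 2s`. -/
def VP2_stmt : Prop :=
  ∀ (d : ℕ) (f : Endo 2 d) (U : Set (PP 2)) (r κ Λ : ℝ), 2 ≤ d → Good0 f U → 0 < r → r ≤ 1 / 100 → Rad r (f.map '' closure U) U → 0 < κ → κ ≤ 1 / 10 → 0 ≤ Λ → ∃ C1 α : ℝ, 1 ≤ C1 ∧ 0 < α ∧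
    ∀ s : ℝ, 0 < s → 16 * s ≤ r → ∃ C2 : ℝ, 1 ≤ C2 ∧ ∀ (m N : ℕ) (Y : ℂ → E3) (b : ℝ) (ι : Fin 2) (n : ℕ) (A : Fin n → ID) (W : Fin n → ℝ), m ≤ N → Dsc (f.map '' closure U) Y → C2 ≤ mass f N Y →
      (∀ v ∈ ball (0 : ℂ) (2 * s), Jf f N (Psf f Λ m N) (Av ι v Y) ≤ b) → (∀ a, (A a).ι = ι) → Fam Y κ A → Wgt A W →
      ∑ a, W a * (∫ v, phr (2 * s) v * Dj f Λ m N ι (A a).c κ (A a).γ v) ≤
        (∑ a, W a * Dj f Λ m N ι (A a).c κ (A a).γ 0) +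
        mass f N Y * (b - Jf f N (Psf f Λ m N) Y) + C1 * (m + 1) * s ^ α * (∑ a, W a) + C2 * (m + 1) * (mass f N Y) ^ (1 / 2 : ℝ)

/-- Row VPT (medium; from RAD VTR VWT VQL VST VP2): the main inequality. Proof: for each `ι` take the subfamily `{a : ι_a = ι}` (reindex by `Fin n'`, or give the other islands the weight `0` after replacing them: simplest is `Finset.equivFin`/`orderEmbOfFin`; the weights of `VWT` for the whole family, `H = Kb mass`). `VQL` (1), `VP2`, `VST`: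
`∑ W_a QR_a ≤ 2π [mass (b - Tf + C) + C₁ (m+1) s^α ∑ W_a + C₂ (m+1) mass^(1/2)] + C ∑ W_a`, `∑ W_a ≤ C (Kb mass + 1) ≤ C' mass`. Since the left side is `≥ 0`, the bracket is `≥ -C ∑W_a/(2π)`: the sum over both `ι` is `≤ 100 [..]` with larger constants (`4π ≤ 100`, and the bracket plus `C' mass` is `≥ 0`). Replace `W_a` by `eta(g_a 0)²`: the difference is at most
`∑ (eta(g_a 0)² - W_a) C(1+Λ)(m+1) ≤ C (H+1)^(1/2) (m+1) ≤ C₂' mass^(1/2)` (`C₂` may depend on `m`). Divide by the mass; `(m+1) s^α ≤ 2 m s^α + 1`-type bounds (`s ≤ 1`: `(m+1) s^α ≤ m s^α + 1`). -/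
def VPT_stmt : Prop :=
  ∀ (d : ℕ) (f : Endo 2 d) (U : Set (PP 2)) (r κ Λ Kb : ℝ), 2 ≤ d → Good0 f U → 0 < r → r ≤ 1 / 100 → Rad r (f.map '' closure U) U → 0 < κ → κ ≤ 1 / 10 → 0 ≤ Λ → 0 < Kb → ∃ C1 α : ℝ, 1 ≤ C1 ∧ 0 < α ∧
    ∀ (s : ℝ) (m : ℕ), 0 < s → 16 * s ≤ r → ∃ C2 : ℝ, 1 ≤ C2 ∧ ∀ (N : ℕ) (Y : ℂ → E3) (b : ℝ) (n : ℕ) (A : Fin n → ID), m ≤ N → Dsc (f.map '' closure U) Y → C2 ≤ mass f N Y →
      (∀ z ∈ ball (0 : ℂ) 1, |un f N (Y z)| ≤ Kb * mass f N Y) → (∀ (ι : Fin 2), ∀ v ∈ ball (0 : ℂ) (2 * s), Jf f N (Psf f Λ m N) (Av ι v Y) ≤ b) → Fam Y κ A →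
      (mass f N Y)⁻¹ * (∑ a, eta ((A a).g 0) ^ 2 * QR f m (Λ * m) s N (A a).ι (A a).c κ (A a).γ) ≤
        100 * (b - Tf f Λ m N Y + C1 * (1 + m * s ^ α) + C2 * (mass f N Y) ^ (-(1 / 2) : ℝ))

/-! ### Assembly -/

/-- Row VBK (medium to long; from UN1 RAD DMS VIT VTT VNM VPT): the theorem with discrete parameters `ε = 2^(-k)`, `s = 2^(-l)`, `Λ = 1`. Proof. `Kb, a` of `VNM` (`Λ = 1`). For `k` let `e_k = 2^(-k)`; `VNM` (1) for `e_k/1000`: `J0(k), m0'(k), τ_k`, and `M(k,m)` for `m ≥ m0'(k)`. `U_k = Us (J0 k)`, it is good (`Good0`: `closure U_k ⊆ closure (Us 0)`), `r_k` of `RAD`,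
`C₁(k), α(k)` of `VPT` for `U_k, r_k, κ, 1, Kb`. Choose `m0(k) ≥ m0'(k)` with `100 C₁(k) ≤ (e_k/8) m0(k)`, `l0(k)` with `16·2^(-l0) ≤ r_k`, `100 C₁(k) 2^(-l0 α) ≤ e_k/8`. Given `m1, J, L0, M0, l1, k1`: `ε' = 2^(-k1)/1000`, `L1` of `VNM` (2) for `ε'`, `J`; `L ≥ max(L0, L1, m1, 1)` so large that `100 (m(|a|+1) + 2C(m+1)²) ≤ (2^(-k1)/8) m L` for `1 ≤ m ≤ m1`
(`C` of `VTT` for `Us 0`). `M` larger than `L + m1 + M0` and than finitely many thresholds for `k ≤ k1`, `l ≤ l1`, `m ≤ m1`. Let `(N,Z) ∈ Cls f Us J Kb M` with `L(a-ε') ≤ Tf f 1 L N Z`; if `M` is large then `N ≥ L + M`-type bounds hold: apply `VNM` (2) with `L + M` as last argument. For `k ≤ k1`, `J0 k ≤ J`, `l0 k ≤ l ≤ l1`, `m0 k ≤ m ≤ m1`, `s = 2^(-l)` and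
`1 ≤ i < L` let `N_i = N - i`, `Y_i = It f i ∘ Z`: a disc in `f(closure U_k)` (`Us J ⊆ U_k`), `mass f N_i Y_i = d^i mass f N Z`, `|un f N_i (Y_i z)| ≤ Kb mass` (`VIT`), and for `‖v‖ < 2s` `(N_i, Av ι v Y_i) ∈ Cls f Us (J0 k) (Kb+τ_k) (M(k,m))`: the matrix `adE one3 2 ι v` is `r_k`-near (`RAD` (4)), the mass changes by at most `C` (`DMS` (1)), `un` by at most `C` (`UN1` and
`RAD` (2): `nq (AW)` and `nq W` comparable), so `|un| ≤ Kb mass(Y_i) + C ≤ (Kb+τ_k) mass(A_v Y_i)` for large mass. So `VPT` applies with `b = m(a + e_k/1000)`: `S_i ≤ 100 (b - Tf f 1 m N_i Y_i + C₁(1+m s^α) + C₂ mass^(-1/2))` (`Is0_iff`). Sum over `i`, `VTT` (`m L (a-ε') ≤ ∑_(i<L) Tf f 1 m N_i Y_i + C(m+1)²`, the term `i = 0` is `≤ C(m+1)`):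
`∑ S_i ≤ 100 (L m (ε' + e_k/1000) + m(|a|+1) + 2C(m+1)² + L C₁(1+m s^α) + L C₂ mass^(-1/2)) ≤ e_k m L (1/5 + 4/8)`. -/
def VBK_stmt : Prop :=
  ∀ (d : ℕ) (f : Endo 2 d) (Us : ℕ → Set (PP 2)) (K : Set (PP 2)), 2 ≤ d → Core f Us K → ∃ Kb : ℝ, 0 < Kb ∧
    ∀ κ : ℝ, 0 < κ → κ ≤ 1 / 10 → ∃ m0 J0 l0 : ℕ → ℕ, (∀ k, 1 ≤ m0 k) ∧
      ∀ m1 J L0 M0 l1 k1 : ℕ, ∃ (L N : ℕ) (Z : ℂ → E3), L0 ≤ L ∧ L + m1 + M0 ≤ N ∧ Dsc (Us J) Z ∧ (M0 : ℝ) ≤ mass f N Z ∧ (∀ z ∈ ball (0 : ℂ) 1, |un f N (Z z)| ≤ Kb * mass f N Z) ∧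
        ∀ k l : ℕ, k ≤ k1 → J0 k ≤ J → l0 k ≤ l → l ≤ l1 → ∀ (n : ℕ → ℕ) (A : (i : ℕ) → Fin (n i) → ID), (∀ i, Fam (fun z => It f i (Z z)) κ (A i)) → ∀ m : ℕ, m0 k ≤ m → m ≤ m1 →
          ∑ i ∈ Finset.Ico 1 L, (((d : ℝ) ^ i * mass f N Z)⁻¹ * ∑ a : Fin (n i), eta ((A i a).g 0) ^ 2 * QR f m (1 * m) ((1 / 2 : ℝ) ^ l) (N - i) (A i a).ι (A i a).c κ (A i a).γ) ≤ (1 / 2 : ℝ) ^ k * m * L

/-- Row VBL (medium; from RAD VIT VTR VQL VBK): the target `VBL_stmt` of `DefsC`. Proof: `Λ1 = 1`, `Kb` of `VBK`; `r` of `RAD` for `Us 0`. For `ε > 0` let `k(ε)` be the least `k` with `4·2^(-k) ≤ ε` (nonincreasing in `ε`; all `ε`), `m0(ε) = m0(k(ε))`, `J0(ε) = J0(k(ε))`, `s0(ε) = min(2^(-l0(k(ε)))/2, r/32)`. Given `m1, J, L0, M0, s1, ε1`: `k1 = k(ε1)`, `l1` with `2^(-l1) ≤ s1`; `VBK`. For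
`ε ≥ ε1`, `s1 ≤ s ≤ s0(ε)` there is `l` with `s ≤ 2^(-l) ≤ 2s` (`exists_nat_pow_near_of_lt_one` or `Nat.find`), so `l ≤ l1`, `l ≥ l0(k(ε))`, and `QR_s ≤ 4 QR_(2^(-l))` by `VQL` (last part; `16·2^(-l) ≤ 32 s ≤ r ≤ 1/4`): the tube of radius `16·2^(-l)` of an island of `It f i ∘ Z`, `i ≥ 1`, is in the cone of `Us 0`, because `It f i ∘ Z` is a disc in `f(closure (Us 0))`
(`VIT`; `Us J ⊆ Us 0`), so its translates are in `Us 0` (`RAD`), and `VTR`. The weights are `≥ 0`: sum. For `m = ..`: levels `m ≤ N - i` hold since `L + m1 ≤ N`. -/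
def VBL_row : Prop := VBL_stmt

end Pool.Agent.P2V
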