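import Pool.Agent.helper83.P2.VPWd
import Pool.Agent.helper21.P2.VSA

set_option autoImplicit false

open scoped ContDiff Topology
open MeasureTheory Filter Set Metric MvPolynomial Pool.Agent.helper37.QA Pool.Agent.P2

namespace Pool.Agent.P2V

theorem VPW_mvadd (A : M3) (x y : E3) : mv A (x + y) = mv A x + mv A y := by
  funext i
  simp only [mv, Pi.add_apply, Fin.sum_univ_three]
  ring

theorem VPW_mvsmul (A : M3) (c : ℂ) (x : E3) : mv A (c • x) = c • mv A x := by
  funext i
  simp only [mv, Pi.smul_apply, smul_eq_mul, Fin.sum_univ_three]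
  ring

/-- the pointwise bound of the difference of the logarithms -/
theorem VPW_log {h R e k : ℝ} (hh : 0 ≤ h) (hR : 0 ≤ R) (he : 0 < e) (hk : 0 ≤ k) (hle : h ≤ R * k) : Real.log (h + e) - Real.log (R + e) ≤ Real.log (1 + k) := by
  have h1 : h + e ≤ (R + e) * (1 + k) := by nlinarith [mul_nonneg he.le hk]
  have h2 : 0 < R + e := by linarith
  have h3 : 0 < 1 + k := by linarith
  have h4 := Real.log_le_log (by linarith) h1
  rw [Real.log_mul h2.ne' h3.ne'] at h4
  linarith

theorem VPW_bd {d : ℕ} (f : Endo 2 d) (Λ : ℝ) (m N : ℕ) (W Y V : E3) (t : ℂ) (hW : W ≠ 0) (hV : V = Y + t • W) (CU l : ℝ)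
    (hu : (1 / 2) * Real.log (nq W) - CU ≤ un f N W) (hY : nq Y ≤ 10 * l ^ 2) (hT : nq (VPW_T f m W Y) ≠ 0) :
    Psf f Λ m N W - pv f Λ m N W V ≤ Real.log (1 + 10 * Real.exp (4 * CU) * (l ^ 2 * ∑ i : Fin 3, nq (VPW_T f m W (Pi.single i 1))) / nq (VPW_T f m W Y)) := by
  have hp := ENC_nqpos hW
  have hTV : VPW_T f m W V = VPW_T f m W Y := by rw [hV, map_add, map_smul, VPW_T_self, smul_zero, add_zero]
  have hcV : crs W V = crs W Y := by rw [hV, VPW_crs_add, VPW_crs_smul, VPW_crs_self, smul_zero, add_zero]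
  set Sg : ℝ := ∑ i : Fin 3, nq (VPW_T f m W (Pi.single i 1)) with hSg
  have hSg0 : 0 ≤ Sg := Finset.sum_nonneg fun i _ => ENT_nqnn _
  have hSe : VSA_S f m W = Sg := by simp only [VSA_S, VSA_T, hSg, VPW_T_apply]
  clear_value Sg
  have hTp : 0 < nq (VPW_T f m W Y) := lt_of_le_of_ne (ENT_nqnn _) (Ne.symm hT)
  have hcp : 0 < nq (crs W Y) := by
    have h1 := VSA_cs f m W Y hW
    have h3 : VSA_T f m W Y = VPW_T f m W Y := by rw [VPW_T_apply, VSA_T]
    rw [hSe, h3] at h1
    by_contra hc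
    have h4 : nq (crs W Y) = 0 := le_antisymm (not_lt.1 hc) (ENT_nqnn _)
    rw [h4, mul_zero] at h1
    have := mul_pos hTp hp
    linarith
  have hlag : nq (crs W Y) ≤ nq W * (10 * l ^ 2) := (ENT_lag W Y).trans (mul_le_mul_of_nonneg_left hY hp.le)
  set u : ℝ := un f N W with hu'
  set D : ℝ := (d : ℝ) ^ m with hD
  have hRv : Rv f m N W V = nq (VPW_T f m W Y) / nq (crs W Y) * Real.exp (4 * u - 4 * D * u) := by
    rw [Rv, ← VPW_T_apply, hTV, hcV]
  have hhop : hop f m N W = nq W * Sg * Real.exp (-(4 * D * u)) := by rw [VSA_hop, hSe]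
  unfold Psf pv
  refine VPW_log ?_ ?_ (Real.exp_pos _) ?_ ?_
  · rw [hhop]; exact mul_nonneg (mul_nonneg hp.le hSg0) (Real.exp_pos _).le
  · rw [hRv]; exact mul_nonneg (div_nonneg hTp.le hcp.le) (Real.exp_pos _).le
  · exact div_nonneg (mul_nonneg (mul_nonneg (by norm_num) (Real.exp_pos _).le) (mul_nonneg (sq_nonneg l) hSg0)) hTp.le
  · rw [hhop, hRv]
    have hexp : Real.exp (-(4 * D * u)) = Real.exp (4 * u - 4 * D * u) * Real.exp (-(4 * u)) := by
      rw [← Real.exp_add]
      congr 1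
      ring
    have hexp2 : Real.exp (-(4 * u)) ≤ Real.exp (4 * CU) / nq W ^ 2 := by
      have h1 : Real.exp (-(4 * u)) ≤ Real.exp (4 * CU - 2 * Real.log (nq W)) := Real.exp_le_exp.2 (by linarith)
      rw [Real.exp_sub] at h1
      have h2 : Real.exp (2 * Real.log (nq W)) = nq W ^ 2 := by
        rw [mul_comm, Real.exp_mul, Real.exp_log hp]
        norm_num
      rwa [h2] at h1
    have hfin : nq (VPW_T f m W Y) / nq (crs W Y) * Real.exp (4 * u - 4 * D * u) * (10 * Real.exp (4 * CU) * (l ^ 2 * Sg) / nq (VPW_T f m W Y)) =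
        Real.exp (4 * u - 4 * D * u) * (Sg * (Real.exp (4 * CU) * (10 * l ^ 2) / nq (crs W Y))) := by
      field_simp
    rw [hfin, hexp]
    have h5 : nq W * Real.exp (-(4 * u)) ≤ Real.exp (4 * CU) * (10 * l ^ 2) / nq (crs W Y) := by
      rw [le_div_iff₀ hcp]
      calc nq W * Real.exp (-(4 * u)) * nq (crs W Y) ≤ nq W * (Real.exp (4 * CU) / nq W ^ 2) * (nq W * (10 * l ^ 2)) := by
            gcongr
        _ = Real.exp (4 * CU) * (10 * l ^ 2) := by
            field_simp
    calc nq W * Sg * (Real.exp (4 * u - 4 * D * u) * Real.exp (-(4 * u))) = Real.exp (4 * u - 4 * D * u) * (Sg * (nq W * Real.exp (-(4 * u)))) := by ring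
      _ ≤ _ := mul_le_mul_of_nonneg_left (mul_le_mul_of_nonneg_left h5 hSg0) (Real.exp_pos _).le

theorem VPW (hUN1 : UN1_stmt) (hRAD : RAD_stmt) (hVL1 : VL1_stmt) (hVSA : VSA_stmt) : VPW_stmt := by
  intro d f U r hd hG hr hr1 hRd
  obtain ⟨CU, hCU0, -, hun, -, -⟩ := hUN1 d f U hd hG
  obtain ⟨CS, hCS1, hS⟩ := hVSA d f U hd hG
  obtain ⟨-, hnear, -, -⟩ := hRAD
  have hCm0 : 0 < max (10 * Real.exp (4 * CU)) CS := lt_max_of_lt_right (by linarith)
  obtain ⟨C1, hC11, hin⟩ := VPW_inner hVL1 (r / 8) (max (10 * Real.exp (4 * CU)) CS) (by positivity) (by linarith) hCm0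
  refine ⟨2 * C1 + CS, by linarith, ?_⟩
  intro Λ m N hΛ hm W hW V
  have hWU : ∀ A, Near r A → mv A W ∈ cone U := fun A hA => hRd A hA W hW
  have hpos : ∀ A, Near r A → 0 ≤ Psf f Λ m N (mv A W) - pv f Λ m N (mv A W) (mv A V) + CS := by
    intro A hA
    have := (hS Λ m 0 N hΛ hm (mv A W) (hWU A hA) (mv A V)).2.2.1
    linarith
  refine ⟨fun A hA => by have := hpos A hA; linarith, ?_⟩
  have hW0 : W ≠ 0 := hW.choose
  have hnqW : 0 < nq W := ENC_nqpos hW0
  have hnqWc : (nq W : ℂ) ≠ 0 := by exact_mod_cast hnqW.ne'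
  set t : ℂ := (V 0 * (starRingEnd ℂ) (W 0) + V 1 * (starRingEnd ℂ) (W 1) + V 2 * (starRingEnd ℂ) (W 2)) / (nq W : ℂ) with ht
  set X : E3 := V - t • W with hXdef
  have hV : V = X + t • W := by rw [hXdef, sub_add_cancel]
  have hon : X 0 * (starRingEnd ℂ) (W 0) + X 1 * (starRingEnd ℂ) (W 1) + X 2 * (starRingEnd ℂ) (W 2) = 0 := by
    have h1 : X 0 * (starRingEnd ℂ) (W 0) + X 1 * (starRingEnd ℂ) (W 1) + X 2 * (starRingEnd ℂ) (W 2) =
        (V 0 * (starRingEnd ℂ) (W 0) + V 1 * (starRingEnd ℂ) (W 1) + V 2 * (starRingEnd ℂ) (W 2)) - t * (nq W : ℂ) := by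
      rw [ENC_nqc]
      simp only [hXdef, Pi.sub_apply, Pi.smul_apply, smul_eq_mul]
      ring
    rw [h1, ht, div_mul_cancel₀ _ hnqWc, sub_self]
  have horth : (starRingEnd ℂ) (X 0) * W 0 + (starRingEnd ℂ) (X 1) * W 1 + (starRingEnd ℂ) (X 2) * W 2 = 0 := by
    have h1 := congrArg (starRingEnd ℂ) hon
    simpa only [map_add, map_mul, Complex.conj_conj, map_zero] using h1
  have hmvV : ∀ A, mv A V = mv A X + t • mv A W := by
    intro A
    conv_lhs => rw [hV]
    rw [VPW_mvadd, VPW_mvsmul]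
  by_cases hX : X = 0
  · have h0 : ∀ A, tv f N (mv A W) (mv A V) = 0 := by
      intro A
      have h1 : cc f N (mv A W) (mv A V) = 0 := by
        have h2 : mv A V = t • mv A W := by
          rw [hmvV A, hX]
          have : mv A 0 = 0 := by funext i; simp [mv]
          rw [this, zero_add]
        rw [← VPW_c_apply, h2, map_smul, VPW_c_apply, ENC_cc_self, smul_zero]
      unfold tv
      rw [h1]
      simp
    simp only [h0, mul_zero, ENNReal.ofReal_zero, lintegral_zero, le_refl]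
  have hnqX : 0 < nq X := ENC_nqpos hX
  set l : ℝ := Real.sqrt (nq X) with hl
  have hl0 : 0 < l := Real.sqrt_pos.2 hnqX
  have hl2 : l ^ 2 = nq X := Real.sq_sqrt hnqX.le
  have hlc : (l : ℂ) ≠ 0 := by exact_mod_cast hl0.ne'
  set q : E3 := fun j => (starRingEnd ℂ) (X j) / (l : ℂ) with hq
  have hqn : ∀ j, ‖q j‖ ^ 2 = Complex.normSq (X j) / l ^ 2 := by
    intro j
    rw [hq]
    simp only [norm_div, RCLike.norm_conj, Complex.norm_real, Real.norm_eq_abs, abs_of_pos hl0, div_pow]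
    rw [Complex.normSq_eq_norm_sq]
  have hnsX : ∀ j, Complex.normSq (X j) ≤ nq X := by
    intro j
    rw [ENC_nq3]
    have h0 := Complex.normSq_nonneg (X 0)
    have h1 := Complex.normSq_nonneg (X 1)
    have h2 := Complex.normSq_nonneg (X 2)
    fin_cases j
    · show Complex.normSq (X 0) ≤ _
      linarith
    · show Complex.normSq (X 1) ≤ _
      linarith
    · show Complex.normSq (X 2) ≤ _
      linarith
  have hq1 : ∀ j, ‖q j‖ ≤ 1 := by
    intro j
    have h1 : ‖q j‖ ^ 2 ≤ 1 := by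
      rw [hqn, hl2, div_le_one hnqX]
      exact hnsX j
    nlinarith [norm_nonneg (q j)]
  have hqW : q 0 * W 0 + q 1 * W 1 + q 2 * W 2 = 0 := by
    have h1 : q 0 * W 0 + q 1 * W 1 + q 2 * W 2 = ((starRingEnd ℂ) (X 0) * W 0 + (starRingEnd ℂ) (X 1) * W 1 + (starRingEnd ℂ) (X 2) * W 2) / (l : ℂ) := by
      simp only [hq]
      ring
    rw [h1, horth, zero_div]
  have hqV : q 0 * V 0 + q 1 * V 1 + q 2 * V 2 = (l : ℂ) := by
    have h1 : q 0 * V 0 + q 1 * V 1 + q 2 * V 2 = (q 0 * X 0 + q 1 * X 1 + q 2 * X 2) + t * (q 0 * W 0 + q 1 * W 1 + q 2 * W 2) := by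
      have hVi : ∀ i, V i = X i + t * W i := fun i => by
        have := congrFun hV i
        simpa only [Pi.add_apply, Pi.smul_apply, smul_eq_mul] using this
      rw [hVi 0, hVi 1, hVi 2]
      ring
    rw [h1, hqW, mul_zero, add_zero]
    have h2 : q 0 * X 0 + q 1 * X 1 + q 2 * X 2 = (nq X : ℂ) / (l : ℂ) := by
      rw [ENC_nqc]
      simp only [hq]
      ring
    rw [h2, ← hl2, div_eq_iff hlc]
    push_cast
    ring
  have hAW : ∀ A s, mv (A + VPW_E q s) W = mv A W := by
    intro A s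
    rw [VPW_Emv, hqW, zero_smul, add_zero]
  have hAV : ∀ A s, mv (A + VPW_E q s) V = mv A V + (l : ℂ) • s := by
    intro A s
    rw [VPW_Emv, hqV]
  have hpair : Continuous fun A : M3 => (mv A W, mv A V) := (VPW_mvcont W).prodMk (VPW_mvcont V)
  have htvm := (VPW_tvm f N).comp hpair.measurable
  have hPm := (VPW_Psfm f Λ m N).comp hpair.measurable
  have hpm := (VPW_pvm f Λ m N).comp hpair.measurable
  simp only [Function.comp_def] at htvm hPm hpm
  have hDm : Measurable fun A : M3 => Psf f Λ m N (mv A W) - pv f Λ m N (mv A W) (mv A V) + CS := Measurable.add_const (Measurable.sub hPm hpm) CS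
  set H : M3 → ENNReal := fun A => ENNReal.ofReal (tv f N (mv A W) (mv A V)) with hH
  set G : M3 → ENNReal := fun A => ENNReal.ofReal ((Psf f Λ m N (mv A W) - pv f Λ m N (mv A W) (mv A V) + CS) * tv f N (mv A W) (mv A V)) with hGdef
  have hHm : Measurable H := htvm.ennreal_ofReal
  have hGm : Measurable G := Measurable.ennreal_ofReal (Measurable.mul hDm htvm)
  have htvc : ∀ (A : M3) (s : E3), tv f N (mv (A + VPW_E q s) W) (mv (A + VPW_E q s) V) =
      (1 / 2) / pq (It f N (mv A W)) ^ 2 / (d : ℝ) ^ N * Complex.normSq (VPW_c f N (mv A W) (mv A X) + (l : ℂ) * VPW_c f N (mv A W) s) := by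
    intro A s
    rw [hAW, hAV, hmvV A]
    have h1 : cc f N (mv A W) (mv A X + t • mv A W + (l : ℂ) • s) = VPW_c f N (mv A W) (mv A X) + (l : ℂ) * VPW_c f N (mv A W) s := by
      have h4 : VPW_c f N (mv A W) (mv A W) = 0 := by rw [VPW_c_apply, ENC_cc_self]
      rw [← VPW_c_apply, map_add, map_add, map_smul, map_smul, h4, smul_zero, add_zero, smul_eq_mul]
    unfold tv
    rw [h1]
    ring
  have hkey : ∀ A, Near (r / 4) A → ∫⁻ s in VPW_S 3 (r / 8), G (A + VPW_E q s) ≤ ENNReal.ofReal C1 * ∫⁻ s in VPW_S 3 (r / 8), H (A + VPW_E q s) := by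
    intro A hA
    have hAr : Near r A := fun i j => lt_of_lt_of_le (hA i j) (by linarith)
    have hA100 : Near (1 / 100) A := fun i j => lt_of_lt_of_le (hA i j) (by linarith)
    have hW'U := hWU A hAr
    have hW'0 : mv A W ≠ 0 := hW'U.choose
    have hnX : nq (mv A X) ≤ 4 * l ^ 2 := by
      rw [hl2]
      exact (hnear A hA100 X X).2.2.2.1
    have hW'cl : mv A W ∈ cone (closure U) := by
      obtain ⟨h0, h1⟩ := hW'U
      exact ⟨h0, subset_closure h1⟩
    have hu := (abs_le.1 (hun N (mv A W) hW'cl)).1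
    have hq00 : 0 ≤ (1 / 2) / pq (It f N (mv A W)) ^ 2 / (d : ℝ) ^ N := by positivity
    have hLm : Measurable fun s : E3 => Psf f Λ m N (mv A W) - pv f Λ m N (mv A W) (mv A V + (l : ℂ) • s) + CS := by
      have hc : Continuous fun s : E3 => (mv A W, mv A V + (l : ℂ) • s) := by fun_prop
      have hm2 := (VPW_pvm f Λ m N).comp hc.measurable
      simp only [Function.comp_def] at hm2
      exact Measurable.add_const (Measurable.sub measurable_const hm2) CS
    have hres := hin (VPW_T f m (mv A W)) (VPW_c f N (mv A W)) (mv A X) l (10 * Real.exp (4 * CU) * (l ^ 2 * ∑ i : Fin 3, nq (VPW_T f m (mv A W) (Pi.single i 1))))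
      ((1 / 2) / pq (It f N (mv A W)) ^ 2 / (d : ℝ) ^ N) (fun s => Psf f Λ m N (mv A W) - pv f Λ m N (mv A W) (mv A V + (l : ℂ) • s) + CS) hl0 hnX
      (mul_nonneg (mul_nonneg (by norm_num) (Real.exp_pos _).le) (mul_nonneg (sq_nonneg l) (Finset.sum_nonneg fun i _ => ENT_nqnn _)))
      (by
        have h1 : 0 ≤ l ^ 2 * ∑ i : Fin 3, nq (VPW_T f m (mv A W) (Pi.single i 1)) := mul_nonneg (sq_nonneg l) (Finset.sum_nonneg fun i _ => ENT_nqnn _)
        exact mul_le_mul_of_nonneg_right (le_max_left _ _) h1)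
      hq00 hLm
      (by
        intro h0 s hs
        have h1 : hop f m N (mv A W) = 0 := by
          have hSe : VSA_S f m (mv A W) = ∑ i : Fin 3, nq (VPW_T f m (mv A W) (Pi.single i 1)) := by simp only [VSA_S, VSA_T, VPW_T_apply]
          rw [VSA_hop, hSe, h0, mul_zero, zero_mul]
        have h2 : 0 ≤ Rv f m N (mv A W) (mv A V + (l : ℂ) • s) := by
          unfold Rv
          exact mul_nonneg (div_nonneg (ENT_nqnn _) (ENT_nqnn _)) (Real.exp_pos _).le
        have h3 : Psf f Λ m N (mv A W) ≤ pv f Λ m N (mv A W) (mv A V + (l : ℂ) • s) := by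
          unfold Psf pv
          rw [h1, zero_add]
          exact Real.log_le_log (Real.exp_pos _) (by linarith)
        exact le_trans (by linarith) (le_max_right _ _))
      (by
        intro s hs hT
        have hsn := VPW_nqS (by linarith : r / 8 ≤ 1 / 2) hs
        have hY : nq (mv A X + (l : ℂ) • s) ≤ 10 * l ^ 2 := by
          have h1 := RAD_nq_add (mv A X) ((l : ℂ) • s)
          rw [VPW_nqmul] at h1
          nlinarith [sq_nonneg l]
        have hT' : nq (VPW_T f m (mv A W) (mv A X + (l : ℂ) • s)) ≠ 0 := by rwa [map_add, map_smul]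
        have hVe : mv A V + (l : ℂ) • s = (mv A X + (l : ℂ) • s) + t • mv A W := by
          rw [hmvV A]
          abel
        have h1 := VPW_bd f Λ m N (mv A W) (mv A X + (l : ℂ) • s) (mv A V + (l : ℂ) • s) t hW'0 hVe CU l (by linarith) hY hT'
        rw [map_add, map_smul] at h1
        have h2 := le_max_right (10 * Real.exp (4 * CU)) CS
        linarith)
    have hGe : ∀ s, G (A + VPW_E q s) = ENNReal.ofReal ((Psf f Λ m N (mv A W) - pv f Λ m N (mv A W) (mv A V + (l : ℂ) • s) + CS) *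
        ((1 / 2) / pq (It f N (mv A W)) ^ 2 / (d : ℝ) ^ N * Complex.normSq (VPW_c f N (mv A W) (mv A X) + (l : ℂ) * VPW_c f N (mv A W) s))) := by
      intro s
      simp only [hGdef]
      rw [htvc A s, hAW, hAV]
    have hHe : ∀ s, H (A + VPW_E q s) = ENNReal.ofReal ((1 / 2) / pq (It f N (mv A W)) ^ 2 / (d : ℝ) ^ N * Complex.normSq (VPW_c f N (mv A W) (mv A X) + (l : ℂ) * VPW_c f N (mv A W) s)) := by
      intro s
      simp only [hH]
      rw [htvc A s]
    simp only [hGe, hHe]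
    exact hres
  have havg := VPW_avg hr hq1 G H hGm hHm (ENNReal.ofReal C1) ENNReal.ofReal_ne_top hkey
  -- doubling
  obtain ⟨j0, hj0⟩ := VPW_max (fun j => Complex.normSq (X j))
  have hqj0 : 0 < ‖q j0‖ := by
    have h1 : nq X ≤ 3 * Complex.normSq (X j0) := hj0
    have h2 : 0 < ‖q j0‖ ^ 2 := by
      rw [hqn]
      have : 0 < Complex.normSq (X j0) := by linarith
      positivity
    by_contra h
    have h3 : ‖q j0‖ = 0 := le_antisymm (not_lt.1 h) (norm_nonneg _)
    rw [h3] at h2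
    norm_num at h2
  obtain ⟨j1, hj1⟩ : ∃ j1, ∀ j, ‖q j‖ ≤ ‖q j1‖ := Finite.exists_max fun j => ‖q j‖
  have hqj1 : 0 < ‖q j1‖ := lt_of_lt_of_le hqj0 (hj1 j0)
  set sg : ℝ := r / 4 / ‖q j1‖ with hsg
  have hsg0 : 0 < sg := by positivity
  set s0 : E3 := Pi.single 0 (sg : ℂ) with hs0
  have hE00 : ∀ j, VPW_E q s0 0 j = (sg : ℂ) * q j := by
    intro j
    simp [VPW_E, hs0]
  have hEne : ∀ i j, i ≠ 0 → VPW_E q s0 i j = 0 := by
    intro i j hi
    simp [VPW_E, hs0, hi]
  have hEn : ∀ i j, ‖VPW_E q s0 i j‖ ≤ r / 4 := by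
    intro i j
    by_cases hi : i = 0
    · rw [hi, hE00, norm_mul, Complex.norm_real, Real.norm_eq_abs, abs_of_pos hsg0, hsg]
      rw [div_mul_eq_mul_div, div_le_iff₀ hqj1]
      exact mul_le_mul_of_nonneg_left (hj1 j) (by positivity)
    · rw [hEne i j hi, norm_zero]
      positivity
  have hE0 : r / 4 ≤ ‖VPW_E q s0 0 j1‖ := by
    rw [hE00, norm_mul, Complex.norm_real, Real.norm_eq_abs, abs_of_pos hsg0, hsg, div_mul_cancel₀ _ hqj1.ne']
  have hdbl := VPW_dbl hr (VPW_E q s0) hEn 0 j1 hE0 H hHm (by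
    intro A
    have hneg : A - VPW_E q s0 = A + VPW_E q (-s0) := by
      funext i j
      simp only [VPW_E, Pi.sub_apply, Pi.add_apply, Pi.neg_apply]
      ring
    rw [hneg]
    have h0 : A = A + VPW_E q 0 := by
      funext i j
      simp [VPW_E]
    simp only [hH]
    have ht0 : tv f N (mv A W) (mv A V) = (1 / 2) / pq (It f N (mv A W)) ^ 2 / (d : ℝ) ^ N * Complex.normSq (VPW_c f N (mv A W) (mv A X)) := by
      conv_lhs => rw [h0]
      rw [htvc A 0, map_zero, mul_zero, add_zero]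
    rw [ht0, htvc A s0, htvc A (-s0), map_neg]
    set b : ℝ := (1 / 2) / pq (It f N (mv A W)) ^ 2 / (d : ℝ) ^ N with hb
    have hb0 : 0 ≤ b := by positivity
    set x : ℂ := VPW_c f N (mv A W) (mv A X)
    set y : ℂ := (l : ℂ) * VPW_c f N (mv A W) s0 with hy
    have hy2 : (l : ℂ) * -VPW_c f N (mv A W) s0 = -y := by rw [hy]; ring
    rw [hy2, ← ENNReal.ofReal_add (mul_nonneg hb0 (Complex.normSq_nonneg _)) (mul_nonneg hb0 (Complex.normSq_nonneg _))]
    have h2 : (2 : ENNReal) = ENNReal.ofReal 2 := by simp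
    rw [h2, ← ENNReal.ofReal_mul (by norm_num)]
    refine ENNReal.ofReal_le_ofReal ?_
    have h3 : Complex.normSq (x + y) + Complex.normSq (x + -y) = 2 * Complex.normSq x + 2 * Complex.normSq y := by
      simp only [Complex.normSq_apply, Complex.add_re, Complex.add_im, Complex.neg_re, Complex.neg_im]
      ring
    have h4 := mul_nonneg hb0 (Complex.normSq_nonneg y)
    calc 2 * (b * Complex.normSq x) ≤ b * (2 * Complex.normSq x + 2 * Complex.normSq y) := by nlinarith
      _ = _ := by rw [← h3]; ring)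
  -- conclusion
  set P : ENNReal := ∫⁻ A in {A : M3 | Near (r / 8) A}, H A with hP
  set Q : ENNReal := ∫⁻ A in {A : M3 | Near (r / 2) A}, H A with hQ
  calc ∫⁻ A in {A : M3 | Near (r / 8) A}, ENNReal.ofReal ((Psf f Λ m N (mv A W) - pv f Λ m N (mv A W) (mv A V) + (2 * C1 + CS)) * tv f N (mv A W) (mv A V))
      ≤ ∫⁻ A in {A : M3 | Near (r / 8) A}, (G A + ENNReal.ofReal (2 * C1) * H A) := by
        refine lintegral_mono fun A => ?_
        have htv0 : 0 ≤ tv f N (mv A W) (mv A V) := by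
          unfold tv
          have := Complex.normSq_nonneg (cc f N (mv A W) (mv A V))
          positivity
        simp only [hGdef, hH]
        rw [← ENNReal.ofReal_mul (by linarith)]
        refine le_trans (ENNReal.ofReal_le_ofReal ?_) ENNReal.ofReal_add_le
        exact le_of_eq (by ring)
    _ = (∫⁻ A in {A : M3 | Near (r / 8) A}, G A) + ENNReal.ofReal (2 * C1) * P := by
        rw [lintegral_add_left hGm, lintegral_const_mul' _ _ ENNReal.ofReal_ne_top]
    _ ≤ ENNReal.ofReal C1 * Q + ENNReal.ofReal C1 * Q := by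
        refine add_le_add havg ?_
        have h1 : ENNReal.ofReal (2 * C1) = ENNReal.ofReal C1 * 2 := by
          rw [mul_comm, ENNReal.ofReal_mul (by linarith)]
          simp
        rw [h1, mul_assoc]
        exact mul_le_mul_right hdbl _
    _ = ENNReal.ofReal (2 * C1) * Q := by
        rw [← add_mul, ← ENNReal.ofReal_add (by linarith) (by linarith)]
        congr 2
        ring
    _ ≤ ENNReal.ofReal (2 * C1 + CS) * Q := mul_le_mul_left (ENNReal.ofReal_le_ofReal (by linarith)) _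

end Pool.Agent.P2V
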