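import Pool.Agent.helper53.P2.RAD
import Pool.Agent.helper88.P2.VIT
import Pool.Agent.helper43.P2.CHN
import Pool.Agent.helper80.P2.ENC
import Pool.Agent.helper43.P2.VTR
import Pool.Agent.helper31.P2.VPH
import Pool.Agent.helper15.P2.UN1
import Pool.Agent.helper53.P2.MAU
import Pool.Agent.helper1.P2.LSE
import Pool.Agent.helper21.P2.VSA
import Pool.Agent.helper96.P2.VAD
import Pool.Agent.helper56.P2.VJA
import Pool.Agent.helper39.P2.VCP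
import Pool.Agent.helper26.P2.VQL
import Pool.Agent.helper53.P2.MSS
import Pool.Agent.helper42.P2.DMS
import Pool.Agent.helper3.P2.VTL
import Pool.Agent.helper53.P2.VTT
import Pool.Agent.helper28.P2.VFK
import Pool.Agent.helper87.P2.VN0
import Pool.Agent.helper64.P2.VN1
import Pool.Agent.helper2.P2.UNH
import Pool.Agent.helper68.P2.VN2
import Pool.Agent.helper88.P2.VNE
import Pool.Agent.helper71.P2.STO
import Pool.Agent.helper49.P2.IBP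
import Pool.Agent.helper1.P2.KER
import Pool.Agent.helper24.P2.LHM
import Pool.Agent.helper90.P2.CORE
import Pool.Agent.helper60.P2.DCO
import Pool.Agent.helper43.P2.RIE
import Pool.Agent.helper23.P2.VL1
import Pool.Agent.helper83.P2.VPW
import Pool.Agent.helper57.P2.VSP
import Pool.Agent.helper60.P2.VNM
import Pool.Agent.helper45.P2.VDS
import Pool.Agent.helper26.P2.VWT
import Pool.Agent.helper56.P2.VST
import Pool.Agent.helper16.P2.VCJ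
import Pool.Agent.helper80.P2.VC2
import Pool.Agent.helper96.P2.VGL
import Pool.Agent.helper79.P2.VLC
import Pool.Agent.helper56.P2.VGT
import Pool.Agent.helper35.P2.VJB
import Pool.Agent.helper26.P2.VEN
import Pool.Agent.helper48.P2.VP1
import Pool.Agent.helper48.P2.VP2
import Pool.Agent.helper76.P2.VPT
import Pool.Agent.helper8.P2.VBK
import Pool.Agent.helper43.P2.VBL

set_option autoImplicit false

/-! Project P2, block V: all rows composed. `VBL_all : VBL_stmt` (no hypotheses) -/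

namespace Pool.Agent.P2V

theorem V_RAD : Pool.Agent.P2.RAD_stmt := Pool.Agent.P2.RAD 
theorem V_VIT : Pool.Agent.P2V.VIT_stmt := Pool.Agent.P2V.VIT 
theorem V_CHN : Pool.Agent.P2.CHN_stmt := Pool.Agent.P2.CHN 
theorem V_ENC : Pool.Agent.P2.ENC_stmt := Pool.Agent.P2.ENC 
theorem V_VTR : Pool.Agent.P2V.VTR_stmt := Pool.Agent.P2V.VTR V_CHN V_ENC
theorem V_VPH : Pool.Agent.P2V.VPH_stmt := Pool.Agent.P2V.VPH 
theorem V_UN1 : Pool.Agent.P2.UN1_stmt := Pool.Agent.P2.UN1 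
theorem V_MAU : Pool.Agent.P2.MAU_stmt := Pool.Agent.P2.MAU 
theorem V_LSE : Pool.Agent.P2.LSE_stmt := Pool.Agent.P2.LSE 
theorem V_VSA : Pool.Agent.P2V.VSA_stmt := Pool.Agent.P2V.VSA V_UN1
theorem V_VAD : Pool.Agent.P2V.VAD_stmt := Pool.Agent.P2V.VAD V_UN1 V_MAU V_CHN V_LSE V_VSA
theorem V_VJA : Pool.Agent.P2V.VJA_stmt := Pool.Agent.P2V.VJA V_UN1 V_MAU V_CHN
theorem V_VCP : Pool.Agent.P2V.VCP_stmt := Pool.Agent.P2V.VCP V_UN1 V_VSA V_VJA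
theorem V_VQL : Pool.Agent.P2V.VQL_stmt := Pool.Agent.P2V.VQL V_VPH V_VAD V_VJA V_VCP
theorem V_MSS : Pool.Agent.P2.MSS_stmt := Pool.Agent.P2.MSS 
theorem V_DMS : Pool.Agent.P2.DMS_stmt := Pool.Agent.P2.DMS V_UN1 V_MSS V_RAD
theorem V_VTL : Pool.Agent.P2V.VTL_stmt := Pool.Agent.P2V.VTL 
theorem V_VTT : Pool.Agent.P2V.VTT_stmt := Pool.Agent.P2V.VTT V_UN1 V_VTL V_VIT V_VSA
theorem V_VFK : Pool.Agent.P2V.VFK_stmt := Pool.Agent.P2V.VFK 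
theorem V_VN0 : Pool.Agent.P2V.VN0_stmt := Pool.Agent.P2V.VN0 
theorem V_VN1 : Pool.Agent.P2V.VN1_stmt := Pool.Agent.P2V.VN1 V_VN0
theorem V_UNH : Pool.Agent.P2.UNH_stmt := Pool.Agent.P2.UNH V_UN1
theorem V_VN2 : Pool.Agent.P2V.VN2_stmt := Pool.Agent.P2V.VN2 V_UN1 V_UNH V_MSS
theorem V_VNE : Pool.Agent.P2V.VNE_stmt := Pool.Agent.P2V.VNE V_UN1 V_MSS V_VIT V_VN1 V_VN2
theorem V_STO : Pool.Agent.P2.STO_stmt := Pool.Agent.P2.STO 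
theorem V_IBP : Pool.Agent.P2.IBP_stmt := Pool.Agent.P2.IBP V_STO V_MAU
theorem V_KER : Pool.Agent.P2.KER_stmt := Pool.Agent.P2.KER 
theorem V_LHM : Pool.Agent.P2.LHM_stmt := Pool.Agent.P2.LHM 
theorem V_CORE : Pool.Agent.P2.CORE_stmt := Pool.Agent.P2.CORE V_IBP V_KER V_LHM
theorem V_DCO : Pool.Agent.P2.DCO_stmt := Pool.Agent.P2.DCO V_CORE V_CHN V_UNH V_UN1 V_MSS V_DMS V_RAD
theorem V_RIE : Pool.Agent.P2.RIE_stmt := Pool.Agent.P2.RIE V_DCO V_ENC V_RAD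
theorem V_VL1 : Pool.Agent.P2V.VL1_stmt := Pool.Agent.P2V.VL1 
theorem V_VPW : Pool.Agent.P2V.VPW_stmt := Pool.Agent.P2V.VPW V_UN1 V_RAD V_VL1 V_VSA
theorem V_VSP : Pool.Agent.P2V.VSP_stmt := Pool.Agent.P2V.VSP V_UN1 V_RIE V_RAD V_DMS V_VSA V_VAD V_VPW
theorem V_VNM : Pool.Agent.P2V.VNM_stmt := Pool.Agent.P2V.VNM V_UN1 V_RAD V_DMS V_VFK V_VNE V_VIT V_VSA V_VSP
theorem V_VDS : Pool.Agent.P2V.VDS_stmt := Pool.Agent.P2V.VDS 
theorem V_VWT : Pool.Agent.P2V.VWT_stmt := Pool.Agent.P2V.VWT V_UN1 V_MSS V_VDS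
theorem V_VST : Pool.Agent.P2V.VST_stmt := Pool.Agent.P2V.VST V_UN1 V_VSA V_VAD V_VTR V_VDS V_VCP V_VJA
theorem V_VCJ : Pool.Agent.P2V.VCJ_stmt := Pool.Agent.P2V.VCJ V_UN1
theorem V_VC2 : Pool.Agent.P2V.VC2_stmt := Pool.Agent.P2V.VC2 V_IBP V_LHM
theorem V_VGL : Pool.Agent.P2V.VGL_stmt := Pool.Agent.P2V.VGL V_VC2 V_CHN V_UNH V_UN1 V_MSS V_DMS V_RAD
theorem V_VLC : Pool.Agent.P2V.VLC_stmt := Pool.Agent.P2V.VLC V_UN1 V_UNH V_VC2 V_VJA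
theorem V_VGT : Pool.Agent.P2V.VGT_stmt := Pool.Agent.P2V.VGT V_UN1 V_MAU V_LSE
theorem V_VJB : Pool.Agent.P2V.VJB_stmt := Pool.Agent.P2V.VJB V_UN1
theorem V_VEN : Pool.Agent.P2V.VEN_stmt := Pool.Agent.P2V.VEN V_ENC V_VTR V_VDS V_VCJ V_VJB
theorem V_VP1 : Pool.Agent.P2V.VP1_stmt := Pool.Agent.P2V.VP1 V_RAD V_VPH V_VAD V_VGL V_VLC V_VJA V_VTR V_VCP V_VGT V_VEN
theorem V_VP2 : Pool.Agent.P2V.VP2_stmt := Pool.Agent.P2V.VP2 V_KER V_RAD V_DMS V_VPH V_VCJ V_VAD V_VJA V_VCP V_VTR V_VP1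
theorem V_VPT : Pool.Agent.P2V.VPT_stmt := Pool.Agent.P2V.VPT V_RAD V_VTR V_VWT V_VQL V_VST V_VP2
theorem V_VBK : Pool.Agent.P2V.VBK_stmt := Pool.Agent.P2V.VBK V_UN1 V_RAD V_DMS V_VIT V_VTT V_VNM V_VPT
theorem VBL_all : Pool.Agent.P2.VBL_stmt := Pool.Agent.P2V.VBL V_RAD V_VIT V_VTR V_VQL V_VBK

end Pool.Agent.P2V
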