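import Pool.Agent.helper83.P2.SpecV
import Pool.Agent.helper80.P2.ENT

set_option autoImplicit false

open scoped ContDiff Topology
open MeasureTheory Filter Set Metric MvPolynomial Pool.Agent.helper37.QA Pool.Agent.P2

namespace Pool.Agent.P2V

/-- one variable lower bound -/
theorem VPW_one (a c : ℂ) (ρ : ℝ) : ENNReal.ofReal (Complex.normSq c) * ∫⁻ t in ball (0 : ℂ) ρ, ENNReal.ofReal (Complex.normSq t) ≤
    ∫⁻ t in ball (0 : ℂ) ρ, ENNReal.ofReal (Complex.normSq (a + t * c)) := by
  have hm1 : Measurable fun t : ℂ => ENNReal.ofReal (Complex.normSq (a + t * c)) :=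
    (Complex.continuous_normSq.comp (continuous_const.add (continuous_id.mul continuous_const))).measurable.ennreal_ofReal
  have hsym : ∫⁻ t in ball (0 : ℂ) ρ, ENNReal.ofReal (Complex.normSq (a + (-t) * c)) = ∫⁻ t in ball (0 : ℂ) ρ, ENNReal.ofReal (Complex.normSq (a + t * c)) := by
    have h := (Measure.measurePreserving_neg (volume : Measure ℂ)).setLIntegral_comp_preimage_emb (MeasurableEquiv.neg ℂ).measurableEmbedding
      (fun t : ℂ => ENNReal.ofReal (Complex.normSq (a + t * c))) (ball (0 : ℂ) ρ)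
    have hp : (Neg.neg ⁻¹' ball (0 : ℂ) ρ) = ball (0 : ℂ) ρ := by
      ext t
      simp [mem_ball_zero_iff]
    rw [hp] at h
    exact h
  have h2 : 2 * (ENNReal.ofReal (Complex.normSq c) * ∫⁻ t in ball (0 : ℂ) ρ, ENNReal.ofReal (Complex.normSq t)) ≤ 2 * ∫⁻ t in ball (0 : ℂ) ρ, ENNReal.ofReal (Complex.normSq (a + t * c)) := by
    calc 2 * (ENNReal.ofReal (Complex.normSq c) * ∫⁻ t in ball (0 : ℂ) ρ, ENNReal.ofReal (Complex.normSq t))
        = ∫⁻ t in ball (0 : ℂ) ρ, 2 * (ENNReal.ofReal (Complex.normSq c) * ENNReal.ofReal (Complex.normSq t)) := by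
          rw [lintegral_const_mul _ ((Complex.continuous_normSq.measurable.ennreal_ofReal).const_mul _), lintegral_const_mul _ Complex.continuous_normSq.measurable.ennreal_ofReal]
      _ ≤ ∫⁻ t in ball (0 : ℂ) ρ, (ENNReal.ofReal (Complex.normSq (a + t * c)) + ENNReal.ofReal (Complex.normSq (a + (-t) * c))) := by
          refine lintegral_mono fun t => ?_
          rw [← ENNReal.ofReal_mul (Complex.normSq_nonneg _), ← ENNReal.ofReal_add (Complex.normSq_nonneg _) (Complex.normSq_nonneg _)]
          have h3 : (2 : ENNReal) = ENNReal.ofReal 2 := by simp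
          rw [h3, ← ENNReal.ofReal_mul (by norm_num)]
          refine ENNReal.ofReal_le_ofReal ?_
          have h4 : Complex.normSq (a + t * c) + Complex.normSq (a + (-t) * c) = 2 * Complex.normSq a + 2 * (Complex.normSq c * Complex.normSq t) := by
            rw [← Complex.normSq_mul c t]
            simp only [Complex.normSq_apply, Complex.add_re, Complex.add_im, Complex.mul_re, Complex.mul_im, Complex.neg_re, Complex.neg_im]
            ring
          have := Complex.normSq_nonneg a
          linarith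
      _ = 2 * ∫⁻ t in ball (0 : ℂ) ρ, ENNReal.ofReal (Complex.normSq (a + t * c)) := by
          rw [lintegral_add_left hm1, hsym, two_mul]
  exact (ENNReal.mul_le_mul_iff_right (by norm_num) (by norm_num)).1 h2

/-- the polydisc -/
def VPW_S (n : ℕ) (ρ : ℝ) : Set (Fin n → ℂ) := {s | ∀ i, ‖s i‖ < ρ}

theorem VPW_Spi (n : ℕ) (ρ : ℝ) : VPW_S n ρ = Set.univ.pi fun _ => ball (0 : ℂ) ρ := by
  ext s
  simp [VPW_S]

theorem VPW_Smeas (n : ℕ) (ρ : ℝ) : MeasurableSet (VPW_S n ρ) := by
  rw [VPW_Spi]
  exact MeasurableSet.univ_pi fun _ => measurableSet_ball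

theorem VPW_Svol (n : ℕ) (ρ : ℝ) (hρ : 0 < ρ) : volume (VPW_S n ρ) ≠ 0 ∧ volume (VPW_S n ρ) ≠ ⊤ := by
  rw [VPW_Spi, volume_pi_pi]
  constructor
  · exact Finset.prod_ne_zero_iff.2 fun i _ => (measure_ball_pos volume (0 : ℂ) hρ).ne'
  · exact ENNReal.prod_ne_top fun i _ => measure_ball_lt_top.ne

/-- integration over the polydisc, one coordinate first -/
theorem VPW_split {n : ℕ} (j : Fin (n + 1)) (ρ : ℝ) (F : (Fin (n + 1) → ℂ) → ENNReal) (hF : Measurable F) :
    ∫⁻ s in VPW_S (n + 1) ρ, F s = ∫⁻ s' in VPW_S n ρ, ∫⁻ t in ball (0 : ℂ) ρ, F (j.insertNth t s') := by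
  have hmp := (volume_preserving_piFinSuccAbove (fun _ : Fin (n + 1) => ℂ) j).symm
  have h1 : ∫⁻ s in VPW_S (n + 1) ρ, F s = ∫⁻ p : ℂ × (Fin n → ℂ), (VPW_S (n + 1) ρ).indicator F ((MeasurableEquiv.piFinSuccAbove (fun _ : Fin (n + 1) => ℂ) j).symm p) := by
    rw [← lintegral_indicator (VPW_Smeas _ _), ← hmp.lintegral_comp_emb (MeasurableEquiv.measurableEmbedding _)]
  rw [h1]
  have hm : Measurable fun p : ℂ × (Fin n → ℂ) => (VPW_S (n + 1) ρ).indicator F ((MeasurableEquiv.piFinSuccAbove (fun _ : Fin (n + 1) => ℂ) j).symm p) :=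
    (hF.indicator (VPW_Smeas _ _)).comp (MeasurableEquiv.measurable _)
  rw [Measure.volume_eq_prod, lintegral_prod_symm _ hm.aemeasurable, ← lintegral_indicator (VPW_Smeas _ _)]
  refine lintegral_congr fun s' => ?_
  by_cases hs : s' ∈ VPW_S n ρ
  · rw [indicator_of_mem hs, ← lintegral_indicator measurableSet_ball]
    refine lintegral_congr fun t => ?_
    have hiff : (MeasurableEquiv.piFinSuccAbove (fun _ : Fin (n + 1) => ℂ) j).symm (t, s') = j.insertNth t s' := rfl
    rw [hiff]
    by_cases ht : t ∈ ball (0 : ℂ) ρ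
    · rw [indicator_of_mem ht, indicator_of_mem]
      intro i
      refine Fin.succAboveCases j ?_ (fun k => ?_) i
      · simpa using ht
      · simpa using hs k
    · rw [indicator_of_notMem ht, indicator_of_notMem]
      intro h
      apply ht
      have := h j
      simpa using this
  · rw [indicator_of_notMem hs, ← lintegral_zero (μ := (volume : Measure ℂ))]
    refine lintegral_congr fun t => ?_
    have hiff : (MeasurableEquiv.piFinSuccAbove (fun _ : Fin (n + 1) => ℂ) j).symm (t, s') = j.insertNth t s' := rfl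
    rw [hiff, indicator_of_notMem]
    intro h
    apply hs
    intro k
    have := h (j.succAbove k)
    simpa using this

theorem VPW_ins (j : Fin 3) (t : ℂ) (s' : Fin 2 → ℂ) : (j.insertNth t s' : E3) = (j.insertNth 0 s' : E3) + t • (Pi.single j 1 : E3) := by
  funext i
  refine Fin.succAboveCases j ?_ (fun k => ?_) i
  · simp
  · simp

end Pool.Agent.P2V
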