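import Pool.Agent.helper83.P2.VPWa
import Pool.Agent.helper53.P2.RAD
import Pool.Agent.helper80.P2.PSC

set_option autoImplicit false

open scoped ContDiff Topology
open MeasureTheory Filter Set Metric MvPolynomial Pool.Agent.helper37.QA Pool.Agent.P2

namespace Pool.Agent.P2V

theorem VPW_max (x : Fin 3 → ℝ) : ∃ j, ∑ i, x i ≤ 3 * x j := by
  rcases le_total (x 0) (x 1) with h | h
  · rcases le_total (x 1) (x 2) with h' | h'
    · exact ⟨2, by rw [Fin.sum_univ_three]; linarith⟩
    · exact ⟨1, by rw [Fin.sum_univ_three]; linarith⟩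
  · rcases le_total (x 0) (x 2) with h' | h'
    · exact ⟨2, by rw [Fin.sum_univ_three]; linarith⟩
    · exact ⟨0, by rw [Fin.sum_univ_three]; linarith⟩

theorem VPW_nqS {ρ : ℝ} (hρ1 : ρ ≤ 1 / 2) {s : E3} (hs : s ∈ VPW_S 3 ρ) : nq s ≤ 3 / 4 := by
  have h : ∀ i, Complex.normSq (s i) ≤ 1 / 4 := by
    intro i
    have h1 := hs i
    rw [Complex.normSq_eq_norm_sq]
    nlinarith [norm_nonneg (s i)]
  rw [ENC_nq3]
  linarith [h 0, h 1, h 2]

theorem VPW_nqmul (l : ℝ) (s : E3) : nq ((l : ℂ) • s) = l ^ 2 * nq s := by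
  rw [PSC_nqsmul, Complex.normSq_ofReal]
  ring

theorem VPW_lin {V : Type} [AddCommGroup V] [Module ℂ V] (c : E3 →ₗ[ℂ] V) (Y : E3) : c Y = Y 0 • c (Pi.single 0 1) + Y 1 • c (Pi.single 1 1) + Y 2 • c (Pi.single 2 1) := by
  have hX : Y = Y 0 • (Pi.single 0 1 : E3) + Y 1 • (Pi.single 1 1 : E3) + Y 2 • (Pi.single 2 1 : E3) := by
    funext i
    fin_cases i <;> simp
  conv_lhs => rw [hX]
  simp only [map_add, map_smul]

theorem VPW_inner (hVL1 : VL1_stmt) (ρ C : ℝ) (hρ : 0 < ρ) (hρ1 : ρ ≤ 1 / 2) (hC : 0 < C) : ∃ C1 : ℝ, 1 ≤ C1 ∧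
    ∀ (T : E3 →ₗ[ℂ] E3) (c : E3 →ₗ[ℂ] ℂ) (X : E3) (l K q : ℝ) (L : E3 → ℝ), 0 < l → nq X ≤ 4 * l ^ 2 → 0 ≤ K → K ≤ C * (l ^ 2 * ∑ i : Fin 3, nq (T (Pi.single i 1))) → 0 ≤ q → Measurable L →
    (∑ i : Fin 3, nq (T (Pi.single i 1)) = 0 → ∀ s ∈ VPW_S 3 ρ, L s ≤ C) →
    (∀ s ∈ VPW_S 3 ρ, nq (T X + (l : ℂ) • T s) ≠ 0 → L s ≤ Real.log (1 + K / nq (T X + (l : ℂ) • T s)) + C) →
    ∫⁻ s in VPW_S 3 ρ, ENNReal.ofReal (L s * (q * Complex.normSq (c X + l * c s))) ≤
      ENNReal.ofReal C1 * ∫⁻ s in VPW_S 3 ρ, ENNReal.ofReal (q * Complex.normSq (c X + l * c s)) := by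
  obtain ⟨Cv, hCv0, hCv⟩ := hVL1 ρ (3 * C) hρ (by positivity)
  obtain ⟨hS30, hS3t⟩ := VPW_Svol 3 ρ hρ
  obtain ⟨hS20, hS2t⟩ := VPW_Svol 2 ρ hρ
  set I0 : ENNReal := ∫⁻ t in ball (0 : ℂ) ρ, ENNReal.ofReal (Complex.normSq t) with hI0
  have hI0t : I0 ≠ ⊤ := by
    have h1 : I0 ≤ ∫⁻ t in ball (0 : ℂ) ρ, ENNReal.ofReal (ρ ^ 2) := by
      refine setLIntegral_mono measurable_const fun t ht => ENNReal.ofReal_le_ofReal ?_
      rw [mem_ball_zero_iff] at ht
      rw [Complex.normSq_eq_norm_sq]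
      nlinarith [norm_nonneg t]
    rw [setLIntegral_const] at h1
    exact (lt_of_le_of_lt h1 (ENNReal.mul_lt_top ENNReal.ofReal_lt_top measure_ball_lt_top)).ne
  have hI0p : I0 ≠ 0 := by
    intro h
    have hm : Measurable fun t : ℂ => ENNReal.ofReal (Complex.normSq t) := Complex.continuous_normSq.measurable.ennreal_ofReal
    rw [hI0, lintegral_eq_zero_iff hm] at h
    have h2 : ∀ᵐ t ∂(volume.restrict (ball (0 : ℂ) ρ)), t = 0 := by
      filter_upwards [h] with t ht
      have ht' : ENNReal.ofReal (Complex.normSq t) = 0 := ht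
      rw [ENNReal.ofReal_eq_zero] at ht'
      exact Complex.normSq_eq_zero.1 (le_antisymm ht' (Complex.normSq_nonneg t))
    have h3 : volume.restrict (ball (0 : ℂ) ρ) {t : ℂ | t ≠ 0} = 0 := h2
    have h4 : volume.restrict (ball (0 : ℂ) ρ) {(0 : ℂ)} = 0 := by
      have := Measure.restrict_apply_le (μ := (volume : Measure ℂ)) (ball (0 : ℂ) ρ) {(0 : ℂ)}
      exact le_antisymm (this.trans (by simp)) bot_le
    have h5 : volume.restrict (ball (0 : ℂ) ρ) Set.univ = 0 := by
      have hu : (Set.univ : Set ℂ) = {t : ℂ | t ≠ 0} ∪ {(0 : ℂ)} := by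
        ext t
        simp only [mem_univ, mem_union, mem_setOf_eq, mem_singleton_iff, true_iff]
        tauto
      rw [hu]
      exact measure_union_null h3 h4
    rw [Measure.restrict_apply_univ] at h5
    exact (measure_ball_pos volume (0 : ℂ) hρ).ne' h5
  set CL : ENNReal := volume (VPW_S 2 ρ) * (ENNReal.ofReal Cv + ENNReal.ofReal C * volume (ball (0 : ℂ) ρ)) + ENNReal.ofReal C * volume (VPW_S 3 ρ) with hCL
  have hCLt : CL ≠ ⊤ := by
    rw [hCL]
    exact ENNReal.add_ne_top.2 ⟨ENNReal.mul_ne_top hS2t (ENNReal.add_ne_top.2 ⟨ENNReal.ofReal_ne_top, ENNReal.mul_ne_top ENNReal.ofReal_ne_top measure_ball_lt_top.ne⟩),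
      ENNReal.mul_ne_top ENNReal.ofReal_ne_top hS3t⟩
  set IV : ENNReal := volume (VPW_S 2 ρ) * I0 with hIV
  have hIVp : IV ≠ 0 := mul_ne_zero hS20 hI0p
  have hIVt : IV ≠ ⊤ := ENNReal.mul_ne_top hS2t hI0t
  refine ⟨1 + 30 * (CL.toReal / IV.toReal), by
    have : 0 ≤ CL.toReal / IV.toReal := div_nonneg ENNReal.toReal_nonneg ENNReal.toReal_nonneg
    linarith, ?_⟩
  intro T c X l K q L hl hX hK0 hK hq hLm hL0 hL
  set Sg : ℝ := ∑ i : Fin 3, nq (T (Pi.single i 1)) with hSg
  set cn : ℝ := ∑ i : Fin 3, Complex.normSq (c (Pi.single i 1)) with hcn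
  have hcn0 : 0 ≤ cn := Finset.sum_nonneg fun i _ => Complex.normSq_nonneg _
  have hSg0 : 0 ≤ Sg := Finset.sum_nonneg fun i _ => ENT_nqnn _
  -- the weight
  have hw : ∀ s ∈ VPW_S 3 ρ, q * Complex.normSq (c X + l * c s) ≤ q * (10 * l ^ 2 * cn) := by
    intro s hs
    refine mul_le_mul_of_nonneg_left ?_ hq
    have h1 : c X + l * c s = c (X + (l : ℂ) • s) := by rw [map_add, map_smul, smul_eq_mul]
    rw [h1, VPW_lin c]
    set Y : E3 := X + (l : ℂ) • s with hY
    have h2 := ENT_cs (fun i => c (Pi.single i 1)) Y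
    have h3 : nq Y ≤ 10 * l ^ 2 := by
      have h4 := RAD_nq_add X ((l : ℂ) • s)
      rw [VPW_nqmul] at h4
      have h5 := VPW_nqS hρ1 hs
      nlinarith [sq_nonneg l]
    have h6 : nq (fun i => c (Pi.single i 1)) = cn := rfl
    rw [h6] at h2
    have h7 : Y 0 • c (Pi.single 0 1) + Y 1 • c (Pi.single 1 1) + Y 2 • c (Pi.single 2 1) =
        c (Pi.single 0 1) * Y 0 + c (Pi.single 1 1) * Y 1 + c (Pi.single 2 1) * Y 2 := by
      simp only [smul_eq_mul]
      ring
    rw [h7]
    nlinarith [ENT_nqnn Y]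
  -- integral of L
  have hLint : ∫⁻ s in VPW_S 3 ρ, ENNReal.ofReal (L s) ≤ CL := by
    by_cases hS0 : Sg = 0
    · calc ∫⁻ s in VPW_S 3 ρ, ENNReal.ofReal (L s) ≤ ∫⁻ s in VPW_S 3 ρ, ENNReal.ofReal C :=
            setLIntegral_mono measurable_const fun s hs => ENNReal.ofReal_le_ofReal (hL0 hS0 s hs)
        _ = ENNReal.ofReal C * volume (VPW_S 3 ρ) := setLIntegral_const _ _
        _ ≤ CL := by
          rw [hCL]
          exact le_add_self
    · obtain ⟨j, hj⟩ := VPW_max (fun i => nq (T (Pi.single i 1)))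
      have hj' : Sg ≤ 3 * nq (T (Pi.single j 1)) := hj
      have hjp : 0 < nq (T (Pi.single j 1)) := by
        have : 0 < Sg := lt_of_le_of_ne hSg0 (Ne.symm hS0)
        linarith
      rw [VPW_split j ρ _ hLm.ennreal_ofReal]
      have hin : ∀ s' ∈ VPW_S 2 ρ, ∫⁻ t in ball (0 : ℂ) ρ, ENNReal.ofReal (L (j.insertNth t s')) ≤ ENNReal.ofReal Cv + ENNReal.ofReal C * volume (ball (0 : ℂ) ρ) := by
        intro s' hs'
        set b0 : E3 := T X + (l : ℂ) • T (j.insertNth 0 s') with hb0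
        set b1 : E3 := (l : ℂ) • T (Pi.single j 1) with hb1
        have hTb : ∀ t : ℂ, T X + (l : ℂ) • T (j.insertNth t s') = b0 + t • b1 := by
          intro t
          rw [VPW_ins j t s', map_add, map_smul, hb0, hb1, smul_add, smul_comm]
          abel
        have hnb1 : nq b1 = l ^ 2 * nq (T (Pi.single j 1)) := VPW_nqmul l _
        have hnb1p : 0 < nq b1 := by rw [hnb1]; positivity
        have hKb : K ≤ 3 * C * nq b1 := by
          rw [hnb1]
          have : l ^ 2 * Sg ≤ l ^ 2 * (3 * nq (T (Pi.single j 1))) := mul_le_mul_of_nonneg_left hj' (sq_nonneg l)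
          nlinarith
        have hae : ∀ᵐ t ∂(volume.restrict (ball (0 : ℂ) ρ)), nq (b0 + t • b1) ≠ 0 := by
          have hsub : {t : ℂ | ¬ nq (b0 + t • b1) ≠ 0}.Subsingleton := by
            intro t ht t' ht'
            simp only [ne_eq, not_not, mem_setOf_eq] at ht ht'
            have h1 : b0 + t • b1 = 0 := by
              by_contra h
              exact (ENC_nqpos h).ne' ht
            have h2 : b0 + t' • b1 = 0 := by
              by_contra h
              exact (ENC_nqpos h).ne' ht'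
            have h3 : (t - t') • b1 = 0 := by
              rw [sub_smul]
              have : t • b1 - t' • b1 = (b0 + t • b1) - (b0 + t' • b1) := by abel
              rw [this, h1, h2, sub_zero]
            rcases smul_eq_zero.1 h3 with h4 | h4
            · exact sub_eq_zero.1 h4
            · exfalso
              rw [h4] at hnb1p
              simp [nq] at hnb1p
          exact ae_iff.2 (hsub.measure_zero _)
        calc ∫⁻ t in ball (0 : ℂ) ρ, ENNReal.ofReal (L (j.insertNth t s'))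
            ≤ ∫⁻ t in ball (0 : ℂ) ρ, (ENNReal.ofReal (Real.log (1 + K / nq (b0 + t • b1))) + ENNReal.ofReal C) := by
              refine lintegral_mono_ae ?_
              filter_upwards [hae, ae_restrict_mem measurableSet_ball] with t ht htb
              have hmem : (j.insertNth t s' : E3) ∈ VPW_S 3 ρ := by
                intro i
                refine Fin.succAboveCases j ?_ (fun k => ?_) i
                · simpa using htb
                · simpa using hs' k
              have h1 := hL _ hmem (by rw [hTb]; exact ht)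
              rw [hTb] at h1
              exact (ENNReal.ofReal_le_ofReal h1).trans ENNReal.ofReal_add_le
          _ = (∫⁻ t in ball (0 : ℂ) ρ, ENNReal.ofReal (Real.log (1 + K / nq (b0 + t • b1)))) + ENNReal.ofReal C * volume (ball (0 : ℂ) ρ) := by
              rw [lintegral_add_right _ measurable_const, setLIntegral_const]
          _ ≤ _ := by
              gcongr
              exact hCv K b0 b1 hK0 hKb
      calc ∫⁻ s' in VPW_S 2 ρ, ∫⁻ t in ball (0 : ℂ) ρ, ENNReal.ofReal (L (j.insertNth t s'))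
          ≤ ∫⁻ s' in VPW_S 2 ρ, (ENNReal.ofReal Cv + ENNReal.ofReal C * volume (ball (0 : ℂ) ρ)) :=
            setLIntegral_mono measurable_const hin
        _ = (ENNReal.ofReal Cv + ENNReal.ofReal C * volume (ball (0 : ℂ) ρ)) * volume (VPW_S 2 ρ) := setLIntegral_const _ _
        _ ≤ CL := by
          rw [hCL, mul_comm]
          exact le_self_add
  -- lower bound
  have hlow : ENNReal.ofReal (q * (l ^ 2 * (cn / 3))) * IV ≤ ∫⁻ s in VPW_S 3 ρ, ENNReal.ofReal (q * Complex.normSq (c X + l * c s)) := by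
    obtain ⟨k, hk⟩ := VPW_max (fun i => Complex.normSq (c (Pi.single i 1)))
    have hk' : cn ≤ 3 * Complex.normSq (c (Pi.single k 1)) := hk
    have hcc : Continuous fun s : E3 => c s := c.continuous_of_finiteDimensional
    have hcm : Measurable fun s : E3 => ENNReal.ofReal (q * Complex.normSq (c X + l * c s)) := by
      refine Measurable.ennreal_ofReal (Continuous.measurable ?_)
      exact continuous_const.mul (Complex.continuous_normSq.comp (continuous_const.add (continuous_const.mul hcc)))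
    rw [VPW_split k ρ _ hcm]
    have hin : ∀ s' : Fin 2 → ℂ, ENNReal.ofReal (q * (l ^ 2 * (cn / 3))) * I0 ≤ ∫⁻ t in ball (0 : ℂ) ρ, ENNReal.ofReal (q * Complex.normSq (c X + l * c (k.insertNth t s'))) := by
      intro s'
      have h1 := VPW_one (c X + l * c (k.insertNth 0 s')) (l * c (Pi.single k 1)) ρ
      have h2 : ∀ t : ℂ, c X + l * c (k.insertNth t s') = c X + l * c (k.insertNth 0 s') + t * (l * c (Pi.single k 1)) := by
        intro t
        rw [VPW_ins k t s', map_add, map_smul, smul_eq_mul]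
        ring
      calc ENNReal.ofReal (q * (l ^ 2 * (cn / 3))) * I0 ≤ ENNReal.ofReal q * (ENNReal.ofReal (Complex.normSq (l * c (Pi.single k 1))) * I0) := by
            rw [← mul_assoc (ENNReal.ofReal q), ← ENNReal.ofReal_mul hq]
            refine mul_le_mul_left (ENNReal.ofReal_le_ofReal (mul_le_mul_of_nonneg_left ?_ hq)) _
            rw [Complex.normSq_mul, Complex.normSq_ofReal]
            nlinarith [sq_nonneg l]
        _ ≤ ENNReal.ofReal q * ∫⁻ t in ball (0 : ℂ) ρ, ENNReal.ofReal (Complex.normSq (c X + l * c (k.insertNth 0 s') + t * (l * c (Pi.single k 1)))) := by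
            gcongr
        _ = ∫⁻ t in ball (0 : ℂ) ρ, ENNReal.ofReal (q * Complex.normSq (c X + l * c (k.insertNth t s'))) := by
            rw [← lintegral_const_mul' _ _ ENNReal.ofReal_ne_top]
            refine lintegral_congr fun t => ?_
            rw [← ENNReal.ofReal_mul hq, h2 t]
    calc ENNReal.ofReal (q * (l ^ 2 * (cn / 3))) * IV = ∫⁻ s' in VPW_S 2 ρ, ENNReal.ofReal (q * (l ^ 2 * (cn / 3))) * I0 := by
          rw [setLIntegral_const, hIV]
          ring
      _ ≤ _ := lintegral_mono fun s' => hin s'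
  -- conclusion
  have hup : ∫⁻ s in VPW_S 3 ρ, ENNReal.ofReal (L s * (q * Complex.normSq (c X + l * c s))) ≤ ENNReal.ofReal (q * (10 * l ^ 2 * cn)) * CL := by
    calc ∫⁻ s in VPW_S 3 ρ, ENNReal.ofReal (L s * (q * Complex.normSq (c X + l * c s)))
        ≤ ∫⁻ s in VPW_S 3 ρ, ENNReal.ofReal (q * (10 * l ^ 2 * cn)) * ENNReal.ofReal (L s) := by
          refine setLIntegral_mono' (VPW_Smeas 3 ρ) fun s hs => ?_
          rw [ENNReal.ofReal_mul' (mul_nonneg hq (Complex.normSq_nonneg _)), mul_comm]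
          exact mul_le_mul_left (ENNReal.ofReal_le_ofReal (hw s hs)) _
      _ = ENNReal.ofReal (q * (10 * l ^ 2 * cn)) * ∫⁻ s in VPW_S 3 ρ, ENNReal.ofReal (L s) := lintegral_const_mul' _ _ ENNReal.ofReal_ne_top
      _ ≤ _ := by gcongr
  refine hup.trans (le_trans ?_ (mul_le_mul_right hlow _))
  have hCLe : CL = ENNReal.ofReal CL.toReal := (ENNReal.ofReal_toReal hCLt).symm
  have hIVe : IV = ENNReal.ofReal IV.toReal := (ENNReal.ofReal_toReal hIVt).symm
  have hivp : 0 < IV.toReal := ENNReal.toReal_pos hIVp hIVt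
  have hcl0 : 0 ≤ CL.toReal := ENNReal.toReal_nonneg
  have hp0 : 0 ≤ q * (10 * l ^ 2 * cn) := by positivity
  have hp1 : 0 ≤ q * (l ^ 2 * (cn / 3)) := by positivity
  have hp2 : 0 ≤ 1 + 30 * (CL.toReal / IV.toReal) := by positivity
  rw [hCLe, hIVe, ENNReal.toReal_ofReal hcl0, ENNReal.toReal_ofReal hivp.le, ← ENNReal.ofReal_mul hp0, ← ENNReal.ofReal_mul hp1, ← ENNReal.ofReal_mul hp2]
  refine ENNReal.ofReal_le_ofReal ?_
  have hid : (1 + 30 * (CL.toReal / IV.toReal)) * (q * (l ^ 2 * (cn / 3)) * IV.toReal) = q * (l ^ 2 * (cn / 3)) * IV.toReal + q * (10 * l ^ 2 * cn) * CL.toReal := by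
    field_simp
    ring
  rw [hid]
  have : 0 ≤ q * (l ^ 2 * (cn / 3)) * IV.toReal := by positivity
  linarith

end Pool.Agent.P2V
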