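import Pool.Agent.helper83.P2.VPWb

set_option autoImplicit false

open scoped ContDiff Topology
open MeasureTheory Filter Set Metric MvPolynomial Pool.Agent.helper37.QA Pool.Agent.P2

namespace Pool.Agent.P2V

/-- the shift matrix -/
def VPW_E (q s : E3) : M3 := fun i j => s i * q j

theorem VPW_Econt (q : E3) : Continuous (VPW_E q) := by
  unfold VPW_E
  fun_prop

theorem VPW_nearm (r : ℝ) : MeasurableSet {A : M3 | Near r A} := by
  have h : {A : M3 | Near r A} = ⋂ i, ⋂ j, {A : M3 | ‖A i j - one3 i j‖ < r} := by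
    ext A
    simp [Near]
  rw [h]
  refine MeasurableSet.iInter fun i => MeasurableSet.iInter fun j => (isOpen_lt ?_ continuous_const).measurableSet
  fun_prop

theorem VPW_shift {r : ℝ} (hr : 0 < r) {q : E3} (hq : ∀ j, ‖q j‖ ≤ 1) {s : E3} (hs : s ∈ VPW_S 3 (r / 8)) (i j : Fin 3) : ‖VPW_E q s i j‖ < r / 8 := by
  unfold VPW_E
  rw [norm_mul]
  have h1 := hs i
  have h2 := hq j
  nlinarith [norm_nonneg (s i), norm_nonneg (q j)]

theorem VPW_avg {r : ℝ} (hr : 0 < r) {q : E3} (hq : ∀ j, ‖q j‖ ≤ 1) (G H : M3 → ENNReal) (hG : Measurable G) (hH : Measurable H) (C : ENNReal)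
    (hC : C ≠ ⊤)
    (h : ∀ A, Near (r / 4) A → ∫⁻ s in VPW_S 3 (r / 8), G (A + VPW_E q s) ≤ C * ∫⁻ s in VPW_S 3 (r / 8), H (A + VPW_E q s)) :
    ∫⁻ A in {A : M3 | Near (r / 8) A}, G A ≤ C * ∫⁻ A in {A : M3 | Near (r / 2) A}, H A := by
  obtain ⟨hS0, hSt⟩ := VPW_Svol 3 (r / 8) (by positivity)
  have hc : Continuous fun p : M3 × E3 => p.1 + VPW_E q p.2 := continuous_fst.add ((VPW_Econt q).comp continuous_snd)
  have hGm : Measurable fun p : M3 × E3 => G (p.1 + VPW_E q p.2) := hG.comp hc.measurable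
  have hHm : Measurable fun p : M3 × E3 => H (p.1 + VPW_E q p.2) := hH.comp hc.measurable
  have h1 : volume (VPW_S 3 (r / 8)) * ∫⁻ A in {A : M3 | Near (r / 8) A}, G A ≤ ∫⁻ s in VPW_S 3 (r / 8), ∫⁻ A in {A : M3 | Near (r / 4) A}, G (A + VPW_E q s) := by
    rw [mul_comm, ← setLIntegral_const]
    refine setLIntegral_mono' (VPW_Smeas _ _) fun s hs => ?_
    rw [← lintegral_indicator (VPW_nearm _), ← lintegral_add_right_eq_self _ (VPW_E q s), ← lintegral_indicator (VPW_nearm _)]
    refine lintegral_mono fun A => ?_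
    by_cases hA : A + VPW_E q s ∈ {A : M3 | Near (r / 8) A}
    · have hA4 : A ∈ {A : M3 | Near (r / 4) A} := by
        intro i j
        have h2 := hA i j
        have h3 := VPW_shift hr hq hs i j
        have h4 : A i j - one3 i j = ((A + VPW_E q s) i j - one3 i j) - VPW_E q s i j := by
          simp only [Pi.add_apply]
          ring
        rw [h4]
        exact lt_of_le_of_lt (norm_sub_le _ _) (by linarith)
      rw [indicator_of_mem hA, indicator_of_mem hA4]
    · rw [indicator_of_notMem hA]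
      exact zero_le
  have h2 : ∫⁻ s in VPW_S 3 (r / 8), ∫⁻ A in {A : M3 | Near (r / 4) A}, G (A + VPW_E q s) = ∫⁻ A in {A : M3 | Near (r / 4) A}, ∫⁻ s in VPW_S 3 (r / 8), G (A + VPW_E q s) := by
    rw [lintegral_lintegral_swap]
    exact (hGm.comp measurable_swap).aemeasurable
  have h3 : ∫⁻ A in {A : M3 | Near (r / 4) A}, ∫⁻ s in VPW_S 3 (r / 8), G (A + VPW_E q s) ≤ C * ∫⁻ A in {A : M3 | Near (r / 4) A}, ∫⁻ s in VPW_S 3 (r / 8), H (A + VPW_E q s) := by
    rw [← lintegral_const_mul' _ _ hC]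
    exact setLIntegral_mono' (VPW_nearm _) fun A hA => h A hA
  have h4 : ∫⁻ A in {A : M3 | Near (r / 4) A}, ∫⁻ s in VPW_S 3 (r / 8), H (A + VPW_E q s) = ∫⁻ s in VPW_S 3 (r / 8), ∫⁻ A in {A : M3 | Near (r / 4) A}, H (A + VPW_E q s) := by
    rw [lintegral_lintegral_swap]
    exact hHm.aemeasurable
  have h5 : ∫⁻ s in VPW_S 3 (r / 8), ∫⁻ A in {A : M3 | Near (r / 4) A}, H (A + VPW_E q s) ≤ volume (VPW_S 3 (r / 8)) * ∫⁻ A in {A : M3 | Near (r / 2) A}, H A := by
    rw [mul_comm, ← setLIntegral_const]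
    refine setLIntegral_mono' (VPW_Smeas _ _) fun s hs => ?_
    rw [← lintegral_indicator (VPW_nearm (r / 2)), ← lintegral_add_right_eq_self ({A : M3 | Near (r / 2) A}.indicator H) (VPW_E q s), ← lintegral_indicator (VPW_nearm (r / 4))]
    refine lintegral_mono fun A => ?_
    by_cases hA : A ∈ {A : M3 | Near (r / 4) A}
    · have hA4 : A + VPW_E q s ∈ {A : M3 | Near (r / 2) A} := by
        intro i j
        have h2 := hA i j
        have h3 := VPW_shift hr hq hs i j
        have h4 : (A + VPW_E q s) i j - one3 i j = (A i j - one3 i j) + VPW_E q s i j := by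
          simp only [Pi.add_apply]
          ring
        rw [h4]
        exact lt_of_le_of_lt (norm_add_le _ _) (by linarith)
      rw [indicator_of_mem hA, indicator_of_mem hA4]
    · rw [indicator_of_notMem hA]
      exact zero_le
  have h6 : volume (VPW_S 3 (r / 8)) * ∫⁻ A in {A : M3 | Near (r / 8) A}, G A ≤ volume (VPW_S 3 (r / 8)) * (C * ∫⁻ A in {A : M3 | Near (r / 2) A}, H A) := by
    calc _ ≤ _ := h1
      _ = _ := h2
      _ ≤ _ := h3
      _ ≤ C * (volume (VPW_S 3 (r / 8)) * ∫⁻ A in {A : M3 | Near (r / 2) A}, H A) := by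
        rw [h4]
        exact mul_le_mul_right h5 _
      _ = _ := by ring
  exact (ENNReal.mul_le_mul_iff_right hS0 hSt).1 h6

theorem VPW_Emv (A : M3) (q s W : E3) : mv (A + VPW_E q s) W = mv A W + (q 0 * W 0 + q 1 * W 1 + q 2 * W 2) • s := by
  funext i
  simp only [mv, VPW_E, Pi.add_apply, Pi.smul_apply, smul_eq_mul, Fin.sum_univ_three]
  ring

end Pool.Agent.P2V
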