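import Pool.Agent.helper83.P2.VPWc

set_option autoImplicit false

open scoped ContDiff Topology
open MeasureTheory Filter Set Metric MvPolynomial Pool.Agent.helper37.QA Pool.Agent.P2

namespace Pool.Agent.P2V

theorem VPW_dbl {r : ℝ} (hr : 0 < r) (E : M3) (hE : ∀ i j, ‖E i j‖ ≤ r / 4) (i0 j0 : Fin 3) (hE0 : r / 4 ≤ ‖E i0 j0‖) (H : M3 → ENNReal) (hH : Measurable H)
    (h : ∀ A, 2 * H A ≤ H (A + E) + H (A - E)) : 2 * ∫⁻ A in {A : M3 | Near (r / 8) A}, H A ≤ ∫⁻ A in {A : M3 | Near (r / 2) A}, H A := by
  set S8 : Set M3 := {A : M3 | Near (r / 8) A} with hS8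
  have hm8 : MeasurableSet S8 := VPW_nearm _
  have hp : Measurable fun A : M3 => H (A + E) := hH.comp (measurable_id.add_const E)
  have hn : Measurable fun A : M3 => H (A - E) := hH.comp (measurable_id.sub_const E)
  have h1 : ∫⁻ A in S8, H (A + E) = ∫⁻ A : M3, S8.indicator (fun B => H (B + E)) (A - E) := by
    rw [← lintegral_indicator hm8, ← lintegral_sub_right_eq_self _ E]
  have h2 : ∫⁻ A in S8, H (A - E) = ∫⁻ A : M3, S8.indicator (fun B => H (B - E)) (A + E) := by
    rw [← lintegral_indicator hm8, ← lintegral_add_right_eq_self _ E]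
  calc 2 * ∫⁻ A in S8, H A = ∫⁻ A in S8, 2 * H A := (lintegral_const_mul' _ _ (by norm_num)).symm
    _ ≤ ∫⁻ A in S8, (H (A + E) + H (A - E)) := lintegral_mono fun A => h A
    _ = (∫⁻ A in S8, H (A + E)) + ∫⁻ A in S8, H (A - E) := lintegral_add_left hp _
    _ = ∫⁻ A : M3, (S8.indicator (fun B => H (B + E)) (A - E) + S8.indicator (fun B => H (B - E)) (A + E)) := by
        rw [h1, h2, ← lintegral_add_left]
        exact (hp.indicator hm8).comp (measurable_id.sub_const E)
    _ ≤ ∫⁻ A : M3, ({A : M3 | Near (r / 2) A}).indicator H A := by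
        refine lintegral_mono fun A => ?_
        have hsub : ∀ B F : M3, B ∈ S8 → (∀ i j, ‖F i j‖ ≤ r / 4) → B + F ∈ {A : M3 | Near (r / 2) A} := by
          intro B F hB hF i j
          have h3 : (B + F) i j - one3 i j = (B i j - one3 i j) + F i j := by
            simp only [Pi.add_apply]
            ring
          rw [h3]
          have h4 : ‖B i j - one3 i j‖ < r / 8 := hB i j
          exact lt_of_le_of_lt (norm_add_le _ _) (by linarith [hF i j])
        by_cases ha : A - E ∈ S8
        · by_cases hb : A + E ∈ S8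
          · exfalso
            have h3 : (2 : ℂ) * E i0 j0 = ((A + E) i0 j0 - one3 i0 j0) - ((A - E) i0 j0 - one3 i0 j0) := by
              simp only [Pi.add_apply, Pi.sub_apply]
              ring
            have h4 : ‖(2 : ℂ) * E i0 j0‖ = 2 * ‖E i0 j0‖ := by rw [norm_mul]; simp
            have h5 : ‖(A + E) i0 j0 - one3 i0 j0‖ < r / 8 := hb i0 j0
            have h6 : ‖(A - E) i0 j0 - one3 i0 j0‖ < r / 8 := ha i0 j0
            have h7 := norm_sub_le ((A + E) i0 j0 - one3 i0 j0) ((A - E) i0 j0 - one3 i0 j0)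
            rw [← h3, h4] at h7
            linarith
          · have hA : A ∈ {A : M3 | Near (r / 2) A} := by
              have := hsub (A - E) E ha hE
              rwa [sub_add_cancel] at this
            rw [indicator_of_mem ha, indicator_of_notMem hb, indicator_of_mem hA, add_zero, sub_add_cancel]
        · by_cases hb : A + E ∈ S8
          · have hA : A ∈ {A : M3 | Near (r / 2) A} := by
              have := hsub (A + E) (-E) hb (fun i j => by simpa using hE i j)
              rwa [add_neg_cancel_right] at this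
            rw [indicator_of_notMem ha, indicator_of_mem hb, indicator_of_mem hA, zero_add, add_sub_cancel_right]
          · rw [indicator_of_notMem ha, indicator_of_notMem hb, add_zero]
            exact zero_le
    _ = _ := lintegral_indicator (VPW_nearm _) _

/-! ### dynamics -/

theorem VPW_Itd {d : ℕ} (f : Endo 2 d) (m : ℕ) : ContDiff ℂ ∞ (It f m) := contDiff_pi.2 fun i => PSC_Itc f m i

theorem VPW_comp {d : ℕ} (f : Endo 2 d) (m : ℕ) (W X : E3) (i : Fin 3) : fderiv ℂ (It f m) W X i = fderiv ℂ (fun W => It f m W i) W X := by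
  have h := (VPW_Itd f m).differentiable (by simp) W
  have h2 : HasFDerivAt (fun W => It f m W i) ((ContinuousLinearMap.proj (R := ℂ) (φ := fun _ : Fin 3 => ℂ) i).comp (fderiv ℂ (It f m) W)) W :=
    ((ContinuousLinearMap.proj (R := ℂ) (φ := fun _ : Fin 3 => ℂ) i).hasFDerivAt).comp W h.hasFDerivAt
  rw [h2.fderiv]
  rfl

theorem VPW_euler {d : ℕ} (f : Endo 2 d) (m : ℕ) (W : E3) : fderiv ℂ (It f m) W W = ((d ^ m : ℕ) : ℂ) • It f m W := by
  funext i
  rw [VPW_comp, ENC_euler]
  rfl

theorem VPW_crs_add (a x y : E3) : crs a (x + y) = crs a x + crs a y := by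
  funext i
  fin_cases i <;> simp [crs] <;> ring

theorem VPW_crs_smul (a x : E3) (c : ℂ) : crs a (c • x) = c • crs a x := by
  funext i
  fin_cases i <;> simp [crs] <;> ring

theorem VPW_crs_self (a : E3) : crs a a = 0 := by
  funext i
  fin_cases i <;> simp [crs] <;> ring

/-- the map `X ↦ It f m W × D(It f m) X` -/
noncomputable def VPW_T {d : ℕ} (f : Endo 2 d) (m : ℕ) (W : E3) : E3 →ₗ[ℂ] E3 where
  toFun X := crs (It f m W) (fderiv ℂ (It f m) W X)
  map_add' x y := by rw [map_add, VPW_crs_add]
  map_smul' c x := by rw [map_smul, VPW_crs_smul, RingHom.id_apply]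

theorem VPW_T_apply {d : ℕ} (f : Endo 2 d) (m : ℕ) (W X : E3) : VPW_T f m W X = crs (It f m W) (fderiv ℂ (It f m) W X) := by
  simp only [VPW_T, LinearMap.coe_mk, AddHom.coe_mk]

theorem VPW_T_self {d : ℕ} (f : Endo 2 d) (m : ℕ) (W : E3) : VPW_T f m W W = 0 := by
  rw [VPW_T_apply, VPW_euler, VPW_crs_smul, VPW_crs_self, smul_zero]

/-- the covector `cc` -/
noncomputable def VPW_c {d : ℕ} (f : Endo 2 d) (N : ℕ) (W : E3) : E3 →ₗ[ℂ] ℂ where
  toFun X := cc f N W X
  map_add' x y := by
    rw [ENC_cc, ENC_cc, ENC_cc]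
    simp only [Pi.add_apply]
    ring
  map_smul' c x := by
    rw [ENC_cc, ENC_cc]
    simp only [Pi.smul_apply, smul_eq_mul, RingHom.id_apply]
    ring

theorem VPW_c_apply {d : ℕ} (f : Endo 2 d) (N : ℕ) (W X : E3) : VPW_c f N W X = cc f N W X := by
  simp only [VPW_c, LinearMap.coe_mk, AddHom.coe_mk]

theorem VPW_Itcont {d : ℕ} (f : Endo 2 d) (m : ℕ) : Continuous (It f m) := (VPW_Itd f m).continuous

theorem VPW_Tcont {d : ℕ} (f : Endo 2 d) (m : ℕ) : Continuous fun p : E3 × E3 => nq (VPW_T f m p.1 p.2) := by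
  have h1 : Continuous fun p : E3 × E3 => fderiv ℂ (It f m) p.1 p.2 := (VPW_Itd f m).continuous_fderiv_apply (by simp)
  have h2 : Continuous fun p : E3 × E3 => It f m p.1 := (VPW_Itcont f m).comp continuous_fst
  have h3 : Continuous fun p : E3 × E3 => crs (It f m p.1) (fderiv ℂ (It f m) p.1 p.2) := by
    have h4 : ∀ i, Continuous fun p : E3 × E3 => fderiv ℂ (It f m) p.1 p.2 i := fun i => (continuous_apply i).comp h1
    have h5 : ∀ i, Continuous fun p : E3 × E3 => It f m p.1 i := fun i => (continuous_apply i).comp h2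
    unfold crs
    refine continuous_pi fun i => ?_
    fin_cases i
    · exact ((h5 1).mul (h4 2)).sub ((h5 2).mul (h4 1))
    · exact ((h5 2).mul (h4 0)).sub ((h5 0).mul (h4 2))
    · exact ((h5 0).mul (h4 1)).sub ((h5 1).mul (h4 0))
  simp only [VPW_T_apply]
  exact ENT_nqcont.comp h3

theorem VPW_ccont {d : ℕ} (f : Endo 2 d) (N : ℕ) : Continuous fun p : E3 × E3 => cc f N p.1 p.2 := by
  have h : (fun p : E3 × E3 => cc f N p.1 p.2) = fun p => cv f N p.1 0 * p.2 0 + cv f N p.1 1 * p.2 1 + cv f N p.1 2 * p.2 2 := by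
    funext p
    exact ENC_cc f N p.1 p.2
  rw [h]
  have h1 : ∀ i, Continuous fun p : E3 × E3 => cv f N p.1 i := fun i => (ENT_cvcont f N i).comp continuous_fst
  have h2 : ∀ i : Fin 3, Continuous fun p : E3 × E3 => p.2 i := fun i => (continuous_apply i).comp continuous_snd
  exact (((h1 0).mul (h2 0)).add ((h1 1).mul (h2 1))).add ((h1 2).mul (h2 2))

theorem VPW_crscont : Continuous fun p : E3 × E3 => nq (crs p.1 p.2) := by
  have h : Continuous fun p : E3 × E3 => crs p.1 p.2 := by
    unfold crs
    refine continuous_pi fun i => ?_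
    fin_cases i
    · exact (((continuous_apply 1).comp continuous_fst).mul ((continuous_apply 2).comp continuous_snd)).sub (((continuous_apply 2).comp continuous_fst).mul ((continuous_apply 1).comp continuous_snd))
    · exact (((continuous_apply 2).comp continuous_fst).mul ((continuous_apply 0).comp continuous_snd)).sub (((continuous_apply 0).comp continuous_fst).mul ((continuous_apply 2).comp continuous_snd))
    · exact (((continuous_apply 0).comp continuous_fst).mul ((continuous_apply 1).comp continuous_snd)).sub (((continuous_apply 1).comp continuous_fst).mul ((continuous_apply 0).comp continuous_snd))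
  exact ENT_nqcont.comp h

theorem VPW_unm {d : ℕ} (f : Endo 2 d) (N : ℕ) : Measurable fun p : E3 × E3 => un f N p.1 := by
  unfold un
  refine Measurable.div_const (Measurable.const_mul ?_ _) _
  exact Real.measurable_log.comp ((ENT_pqcont.comp ((VPW_Itcont f N).comp continuous_fst)).measurable)

theorem VPW_Rvm {d : ℕ} (f : Endo 2 d) (m N : ℕ) : Measurable fun p : E3 × E3 => Rv f m N p.1 p.2 := by
  unfold Rv
  have hT := (VPW_Tcont f m).measurable
  simp only [VPW_T_apply] at hT
  refine Measurable.mul (Measurable.div hT VPW_crscont.measurable) ?_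
  refine Real.measurable_exp.comp ?_
  exact ((VPW_unm f N).const_mul _).sub ((VPW_unm f N).const_mul _)

theorem VPW_pvm {d : ℕ} (f : Endo 2 d) (Λ : ℝ) (m N : ℕ) : Measurable fun p : E3 × E3 => pv f Λ m N p.1 p.2 := by
  unfold pv
  exact Real.measurable_log.comp ((VPW_Rvm f m N).add_const _)

theorem VPW_hopm {d : ℕ} (f : Endo 2 d) (m N : ℕ) : Measurable fun p : E3 × E3 => hop f m N p.1 := by
  have h1 : Measurable fun p : E3 × E3 => nq p.1 := (ENT_nqcont.comp continuous_fst).measurable
  have h2 : Measurable fun p : E3 × E3 => ∑ i : Fin 3, nq (crs (It f m p.1) (fderiv ℂ (It f m) p.1 (Pi.single i 1))) := by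
    refine Finset.measurable_sum _ fun i _ => ?_
    have hc : Continuous fun p : E3 × E3 => (p.1, (Pi.single i 1 : E3)) := continuous_fst.prodMk continuous_const
    have h' := ((VPW_Tcont f m).comp hc).measurable
    simp only [VPW_T_apply, Function.comp_def] at h'
    exact h'
  have h3 : Measurable fun p : E3 × E3 => Real.exp (-(4 * (d : ℝ) ^ m * un f N p.1)) := Measurable.exp (Measurable.neg (Measurable.const_mul (VPW_unm f N) _))
  exact Measurable.mul (Measurable.mul h1 h2) h3

theorem VPW_Psfm {d : ℕ} (f : Endo 2 d) (Λ : ℝ) (m N : ℕ) : Measurable fun p : E3 × E3 => Psf f Λ m N p.1 :=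
  Measurable.log (Measurable.add_const (VPW_hopm f m N) _)

theorem VPW_tvm {d : ℕ} (f : Endo 2 d) (N : ℕ) : Measurable fun p : E3 × E3 => tv f N p.1 p.2 := by
  unfold tv
  refine Measurable.div_const (Measurable.div (Measurable.const_mul ?_ _) ?_) _
  · exact (Complex.continuous_normSq.comp (VPW_ccont f N)).measurable
  · exact ((ENT_pqcont.comp ((VPW_Itcont f N).comp continuous_fst)).pow 2).measurable

theorem VPW_mvcont (W : E3) : Continuous fun A : M3 => mv A W := by
  unfold mv
  fun_prop

end Pool.Agent.P2V
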